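import Pool.Agent.helper14.QF.Dig

/-!
# QF-2: digits of the constants and of masked numbers, absolute values

All numbers are described by their digits `dg` (`QF/Dig.lean`).  Do not let `simp`, `norm_num`, `decide`
or `rfl` evaluate numbers like `2 ^ 4060`.
-/

namespace Pool.Agent.helper14.QF

set_option exponentiation.threshold 9000

/-! ### constants -/

theorem geom_aux (n N : Nat) (h : N = 116 * n) :
    Nat.div (Nat.sub (Nat.pow 2 N) 1) (Nat.sub (Nat.pow 2 116) 1) =
      ∑ j ∈ Finset.range n, 1 * 2 ^ (116 * j) := by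
  subst h
  have h1 : ∑ j ∈ Finset.range n, 1 * 2 ^ (116 * j) = ∑ j ∈ Finset.range n, (2 ^ 116) ^ j := by
    apply Finset.sum_congr rfl
    intro j _
    rw [Nat.one_mul, pow_mul]
  rw [h1, Nat.geomSum_eq (by norm_num), ← pow_mul]
  exact Eq.refl _

theorem dg_one (i : Nat) : dg 1 i = if i = 0 then 1 else 0 := by
  split_ifs with h
  · subst h
    rw [dg_zero]
    norm_num
  · exact dg_of_lt (n := 1) (by norm_num) (by omega)

theorem dg_two_pow (j i : Nat) : dg (2 ^ (116 * j)) i = if i = j then 1 else 0 := by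
  have e : 2 ^ (116 * j) = Nat.shiftLeft 1 (116 * j) := by
    have e1 : Nat.shiftLeft 1 (116 * j) = 1 * 2 ^ (116 * j) := Nat.shiftLeft_eq 1 (116 * j)
    rw [e1, Nat.one_mul]
  rw [e, dg_shl, dg_one]
  by_cases h1 : i < j
  · rw [if_pos h1, if_neg (by omega)]
  · rw [if_neg h1]
    by_cases h2 : i = j
    · rw [if_pos h2, if_pos (by omega)]
    · rw [if_neg h2, if_neg (by omega)]

theorem both_eq (x : Nat) : both x = x + Nat.shiftLeft x (116 * 35) := by
  have h : ∀ n, Nat.mul x (Nat.add (Nat.pow 2 n) 1) = x + Nat.shiftLeft x n := by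
    intro n
    have e1 : Nat.shiftLeft x n = x * 2 ^ n := Nat.shiftLeft_eq x n
    have e2 : Nat.mul x (Nat.add (Nat.pow 2 n) 1) = x * (2 ^ n + 1) := rfl
    rw [e1, e2, Nat.mul_add, Nat.mul_one, Nat.add_comm]
  have e : both x = Nat.mul x (Nat.add (Nat.pow 2 4060) 1) := rfl
  rw [e]
  exact h 4060

theorem one_lt_aux : 1 < 2 ^ 4060 := Nat.one_lt_two_pow (by norm_num)

theorem dg_mul_full {x : Nat} {p : Nat → Prop} [DecidablePred p]
    (h : ∀ i, dg x i = if p i then 1 else 0) (i : Nat) :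
    dg (Nat.mul x full) i = if p i then 2 ^ 116 - 1 else 0 := by
  have e : Nat.mul x full = x * (2 ^ 116 - 1) := rfl
  have hs : ∀ j, dg x j * (2 ^ 116 - 1) = if p j then 2 ^ 116 - 1 else 0 := by
    intro j
    rw [h]
    split_ifs
    · exact Nat.one_mul _
    · exact Nat.zero_mul _
  rw [e, dg_mul_one, hs]
  intro j
  rw [hs]
  split_ifs <;> norm_num

theorem ones_eq : ones = ∑ j ∈ Finset.range 70, 1 * 2 ^ (116 * j) := by
  delta ones
  exact geom_aux 70 8120 rfl

theorem onesM_eq : onesM = ∑ j ∈ Finset.range 35, 1 * 2 ^ (116 * j) := by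
  delta onesM
  exact geom_aux 35 4060 rfl

theorem dg_ones (i : Nat) : dg ones i = if i < 70 then 1 else 0 := by
  rw [ones_eq]
  exact dg_mk (fun _ => 1) 70 (fun _ _ => by norm_num) i

theorem dg_onesM (i : Nat) : dg onesM i = if i < 35 then 1 else 0 := by
  rw [onesM_eq]
  exact dg_mk (fun _ => 1) 35 (fun _ _ => by norm_num) i

/-- the same digit everywhere -/
theorem dg_ones_mul {c : Nat} (hc : c < 2 ^ 116) (i : Nat) :
    dg (Nat.mul ones c) i = if i < 70 then c else 0 := by
  have e : Nat.mul ones c = ones * c := rfl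
  have h : ∀ j, dg ones j * c = if j < 70 then c else 0 := by
    intro j
    rw [dg_ones]
    split_ifs
    · exact Nat.one_mul c
    · exact Nat.zero_mul c
  rw [e, dg_mul_one, h]
  intro j
  rw [h]
  split_ifs
  · exact hc
  · positivity

theorem dg_onesM_mul {c : Nat} (hc : c < 2 ^ 116) (i : Nat) :
    dg (Nat.mul onesM c) i = if i < 35 then c else 0 := by
  have e : Nat.mul onesM c = onesM * c := rfl
  have h : ∀ j, dg onesM j * c = if j < 35 then c else 0 := by
    intro j
    rw [dg_onesM]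
    split_ifs
    · exact Nat.one_mul c
    · exact Nat.zero_mul c
  rw [e, dg_mul_one, h]
  intro j
  rw [h]
  split_ifs
  · exact hc
  · positivity

theorem dg_psel {l : List Nat} (hl : l.Nodup) (i : Nat) :
    dg (psel l) i = if i ∈ l then 1 else 0 := by
  induction l generalizing i with
  | nil =>
    rw [if_neg (List.not_mem_nil)]
    exact dg_zero_left i
  | cons j t ih =>
    have hj : j ∉ t := (List.nodup_cons.mp hl).1
    have ht : t.Nodup := (List.nodup_cons.mp hl).2
    have e : psel (j :: t) = 2 ^ (116 * j) + psel t := rfl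
    have hs : ∀ k, dg (2 ^ (116 * j)) k + dg (psel t) k = if k ∈ j :: t then 1 else 0 := by
      intro k
      rw [dg_two_pow, ih ht]
      by_cases h1 : k = j
      · subst h1
        rw [if_pos rfl, if_neg hj, if_pos List.mem_cons_self]
      · rw [if_neg h1]
        by_cases h2 : k ∈ t
        · rw [if_pos h2, if_pos (List.mem_cons_of_mem _ h2)]
        · have h3 : k ∉ j :: t := by
            intro h
            rcases List.mem_cons.mp h with h | h
            · exact h1 h
            · exact h2 h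
          rw [if_neg h2, if_neg h3]
    rw [e, dg_add, hs]
    intro k
    rw [hs]
    split_ifs <;> norm_num

theorem dg_both {x : Nat} (hx : x < 2 ^ 4060) (i : Nat) :
    dg (both x) i = if i < 35 then dg x i else if i < 70 then dg x (i - 35) else 0 := by
  have e35 : (4060 : Nat) = 116 * 35 := rfl
  rw [e35] at hx
  have h1 : ∀ k, dg (Nat.shiftLeft x (116 * 35)) k = if k < 35 then 0 else dg x (k - 35) :=
    fun k => dg_shl x 35 k
  rw [both_eq, dg_add]
  · rw [h1]
    by_cases h : i < 35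
    · rw [if_pos h, if_pos h, Nat.add_zero]
    · rw [if_neg h, if_neg h, dg_of_lt hx (by omega : 35 ≤ i), Nat.zero_add]
      by_cases h2 : i < 70
      · rw [if_pos h2]
      · rw [if_neg h2, dg_of_lt hx (by omega : 35 ≤ i - 35)]
  · intro k
    rw [h1]
    by_cases h : k < 35
    · rw [if_pos h, Nat.add_zero]
      exact dg_lt x k
    · rw [if_neg h, dg_of_lt hx (by omega : 35 ≤ k), Nat.zero_add]
      exact dg_lt x _

/-- positions of the linear part -/
def PL : List Nat := [1, 4, 10, 12, 17]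

/-- positions of the quadratic part -/
def PQ : List Nat := [2, 5, 8, 11, 13, 14, 16, 18, 20, 21, 22, 24, 27, 29, 34]

theorem PL_lt {i : Nat} (h : i ∈ PL) : i < 35 := by
  have h1 : ∀ k ∈ PL, k < 35 := by decide
  exact h1 i h

theorem PQ_lt {i : Nat} (h : i ∈ PQ) : i < 35 := by
  have h1 : ∀ k ∈ PQ, k < 35 := by decide
  exact h1 i h

theorem dg_pL (i : Nat) : dg pL i = if i ∈ PL then 1 else 0 := by
  have e : pL = psel PL := by
    delta pL
    exact Eq.refl _
  rw [e]
  exact dg_psel (by decide) i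

theorem dg_pQ (i : Nat) : dg pQ i = if i ∈ PQ then 1 else 0 := by
  have e : pQ = psel PQ := by
    delta pQ
    exact Eq.refl _
  rw [e]
  exact dg_psel (by decide) i

theorem pL_lt : pL < 2 ^ 4060 := by
  have e : (4060 : Nat) = 116 * 35 := rfl
  rw [e]
  apply lt_of_dg
  intro i hi
  rw [dg_pL, if_neg]
  intro h
  have := PL_lt h
  omega

theorem rm_nodup (n : Nat) : (rm n).Nodup := by
  rcases n with _ | _ | _ | _ | _ | n
  · decide
  · decide
  · decide
  · decide
  · decide
  · change ([1, 4, 10, 12, 17, 2, 5, 8, 11, 14, 20, 13, 16, 22, 24, 18, 21, 27, 29, 34] :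
      List Nat).Nodup
    decide

theorem rm_sub (n : Nat) : ∀ i ∈ rm n, i ∈ PL ∨ i ∈ PQ := by
  rcases n with _ | _ | _ | _ | _ | n
  · decide
  · decide
  · decide
  · decide
  · decide
  · change ∀ i ∈ ([1, 4, 10, 12, 17, 2, 5, 8, 11, 14, 20, 13, 16, 22, 24, 18, 21, 27, 29, 34] :
      List Nat), i ∈ PL ∨ i ∈ PQ
    decide

theorem dg_oC (i : Nat) : dg oC i = if i = 0 ∨ i = 35 then 1 else 0 := by
  have e : oC = both 1 := by
    delta oC
    exact Eq.refl _
  rw [e, dg_both one_lt_aux, dg_one, dg_one]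
  by_cases h0 : i = 0
  · subst h0
    rw [if_pos (by norm_num), if_pos rfl, if_pos (Or.inl rfl)]
  · by_cases h35 : i = 35
    · subst h35
      rw [if_neg (by norm_num), if_pos (by norm_num), if_pos rfl, if_pos (Or.inr rfl)]
    · have h : ¬(i = 0 ∨ i = 35) := by
        rintro (h | h)
        · exact h0 h
        · exact h35 h
      rw [if_neg h, if_neg h0]
      by_cases h1 : i < 35
      · rw [if_pos h1]
      · rw [if_neg h1]
        by_cases h2 : i < 70
        · rw [if_pos h2, if_neg (by omega)]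
        · rw [if_neg h2]

theorem dg_oL (i : Nat) : dg oL i = if i ∈ PL ∨ (35 ≤ i ∧ i - 35 ∈ PL) then 1 else 0 := by
  have e : oL = both pL := by
    delta oL
    exact Eq.refl _
  rw [e, dg_both pL_lt, dg_pL, dg_pL]
  by_cases h1 : i < 35
  · rw [if_pos h1]
    by_cases h2 : i ∈ PL
    · rw [if_pos h2, if_pos (Or.inl h2)]
    · rw [if_neg h2, if_neg]
      rintro (h | h)
      · exact h2 h
      · omega
  · rw [if_neg h1]
    have h3 : i ∉ PL := fun h => h1 (PL_lt h)
    by_cases h2 : i < 70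
    · rw [if_pos h2]
      by_cases h4 : i - 35 ∈ PL
      · rw [if_pos h4, if_pos (Or.inr ⟨by omega, h4⟩)]
      · rw [if_neg h4, if_neg]
        rintro (h | h)
        · exact h3 h
        · exact h4 h.2
    · rw [if_neg h2, if_neg]
      rintro (h | h)
      · exact h3 h
      · have := PL_lt h.2
        omega

theorem dg_mC (i : Nat) : dg mC i = if i = 0 ∨ i = 35 then 2 ^ 116 - 1 else 0 := by
  have e : mC = Nat.mul oC full := by
    delta mC
    exact Eq.refl _
  rw [e]
  exact dg_mul_full dg_oC i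

theorem dg_mL (i : Nat) :
    dg mL i = if i ∈ PL ∨ (35 ≤ i ∧ i - 35 ∈ PL) then 2 ^ 116 - 1 else 0 := by
  have e : mL = Nat.mul oL full := by
    delta mL
    exact Eq.refl _
  rw [e]
  exact dg_mul_full dg_oL i

theorem dg_mA (i : Nat) :
    dg mA i = if (i = 0 ∨ i = 35) ∨ (i ∈ PL ∨ (35 ≤ i ∧ i - 35 ∈ PL)) then 2 ^ 116 - 1 else 0 := by
  have e : mA = mC + mL := by
    delta mA
    exact Eq.refl _
  have hs : ∀ k, dg mC k + dg mL k =
      if (k = 0 ∨ k = 35) ∨ (k ∈ PL ∨ (35 ≤ k ∧ k - 35 ∈ PL)) then 2 ^ 116 - 1 else 0 := by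
    intro k
    rw [dg_mC, dg_mL]
    by_cases h1 : k = 0 ∨ k = 35
    · have h2 : ¬(k ∈ PL ∨ (35 ≤ k ∧ k - 35 ∈ PL)) := by
        rcases h1 with h1 | h1 <;> subst h1 <;> decide
      rw [if_pos h1, if_neg h2, if_pos (Or.inl h1), Nat.add_zero]
    · rw [if_neg h1, Nat.zero_add]
      by_cases h2 : k ∈ PL ∨ (35 ≤ k ∧ k - 35 ∈ PL)
      · rw [if_pos h2, if_pos (Or.inr h2)]
      · rw [if_neg h2, if_neg]
        rintro (h | h)
        · exact h1 h
        · exact h2 h
  rw [e, dg_add, hs]
  intro k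
  rw [hs]
  split_ifs <;> norm_num

theorem dg_mLM (i : Nat) : dg mLM i = if i ∈ PL then 2 ^ 116 - 1 else 0 := by
  have e : mLM = Nat.mul pL full := by
    delta mLM
    exact Eq.refl _
  rw [e]
  exact dg_mul_full dg_pL i

theorem dg_mQM (i : Nat) : dg mQM i = if i ∈ PQ then 2 ^ 116 - 1 else 0 := by
  have e : mQM = Nat.mul pQ full := by
    delta mQM
    exact Eq.refl _
  rw [e]
  exact dg_mul_full dg_pQ i

/-- real positions (`rm n` is a list without repetitions, contained in `PL ++ PQ`) -/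
theorem dg_real {n : Nat} (i : Nat) :
    dg (Nat.mul (psel (rm n)) full) i = if i ∈ rm n then 2 ^ 116 - 1 else 0 := by
  exact dg_mul_full (fun k => dg_psel (rm_nodup n) k) i

/-- the other positions -/
theorem dg_cplx {n : Nat} (i : Nat) :
    dg (Nat.mul (Nat.sub (Nat.add pL pQ) (psel (rm n))) full) i =
      if (i ∈ PL ∨ i ∈ PQ) ∧ i ∉ rm n then 2 ^ 116 - 1 else 0 := by
  have hd : ∀ k, ¬(k ∈ PL ∧ k ∈ PQ) := by
    rintro k ⟨h1, h2⟩
    have h3 : ∀ k ∈ PL, k ∉ PQ := by decide
    exact h3 k h1 h2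
  have h1 : ∀ k, dg pL k + dg pQ k = if k ∈ PL ∨ k ∈ PQ then 1 else 0 := by
    intro k
    rw [dg_pL, dg_pQ]
    by_cases h2 : k ∈ PL
    · have h3 : k ∉ PQ := fun h => hd k ⟨h2, h⟩
      rw [if_pos h2, if_neg h3, if_pos (Or.inl h2)]
    · rw [if_neg h2, Nat.zero_add]
      by_cases h3 : k ∈ PQ
      · rw [if_pos h3, if_pos (Or.inr h3)]
      · rw [if_neg h3, if_neg]
        rintro (h | h)
        · exact h2 h
        · exact h3 h
  have h2 : ∀ k, dg (Nat.add pL pQ) k = if k ∈ PL ∨ k ∈ PQ then 1 else 0 := by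
    intro k
    have e : Nat.add pL pQ = pL + pQ := rfl
    rw [e, dg_add, h1]
    intro j
    rw [h1]
    split_ifs <;> norm_num
  have h3 : ∀ k, dg (psel (rm n)) k = if k ∈ rm n then 1 else 0 := fun k => dg_psel (rm_nodup n) k
  refine dg_mul_full (p := fun k => (k ∈ PL ∨ k ∈ PQ) ∧ k ∉ rm n) ?_ i
  intro k
  have e : Nat.sub (Nat.add pL pQ) (psel (rm n)) = Nat.add pL pQ - psel (rm n) := rfl
  rw [e, dg_sub, h2, h3]
  · by_cases h4 : k ∈ rm n
    · rw [if_pos h4, if_pos (rm_sub n k h4), if_neg (fun h => h.2 h4)]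
    · rw [if_neg h4, Nat.sub_zero]
      by_cases h5 : k ∈ PL ∨ k ∈ PQ
      · rw [if_pos h5, if_pos ⟨h5, h4⟩]
      · rw [if_neg h5, if_neg (fun h => h5 h.1)]
  · intro j
    rw [h2, h3]
    by_cases h4 : j ∈ rm n
    · rw [if_pos h4, if_pos (rm_sub n j h4)]
    · rw [if_neg h4]
      exact Nat.zero_le _

/-- a full digit -/
theorem land_full {a : Nat} (h : a < 2 ^ 116) : Nat.land a (2 ^ 116 - 1) = a := by
  rw [land_mask, Nat.mod_eq_of_lt h]

/-! ### stored numbers -/

/-- stored number: seventy digits `< 2^54` -/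
def Good (X : Nat) : Prop := X < 2 ^ 8120 ∧ ∀ i, dg X i < 2 ^ 54

/-- signed digits -/
def sd (X i : Nat) : ℤ := (dg X i : ℤ) - 2 ^ 53

theorem sd_bound {X : Nat} (h : Good X) (i : Nat) : -2 ^ 53 ≤ sd X i ∧ sd X i < 2 ^ 53 := by
  have h1 := h.2 i
  have e : sd X i = (dg X i : ℤ) - 2 ^ 53 := rfl
  rw [e]
  generalize dg X i = a at *
  norm_num at h1 ⊢
  omega

theorem dg_mD (i : Nat) : dg mD i = if i < 70 then 2 ^ 54 - 1 else 0 := by
  have e : mD = Nat.mul ones (2 ^ 54 - 1) := by
    delta mD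
    exact Eq.refl _
  rw [e, dg_ones_mul (by norm_num)]

theorem dg_mH (i : Nat) : dg mH i = if i < 70 then 262143 * 2 ^ 54 else 0 := by
  have e : mH = Nat.mul ones (Nat.sub (Nat.pow 2 72) (Nat.pow 2 54)) := by
    delta mH
    exact Eq.refl _
  have e1 : Nat.sub (Nat.pow 2 72) (Nat.pow 2 54) = 262143 * 2 ^ 54 := by decide
  rw [e, e1, dg_ones_mul (by norm_num)]

theorem dg_vH (i : Nat) : dg vH i = if i < 70 then 2 ^ 71 else 0 := by
  have e : vH = Nat.mul ones (2 ^ 71) := by
    delta vH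
    exact Eq.refl _
  rw [e, dg_ones_mul (by norm_num)]

theorem dg_fS (i : Nat) : dg fS i = if i < 70 then 2 ^ 71 - 2 ^ 53 else 0 := by
  have e : fS = Nat.mul ones (2 ^ 71 - 2 ^ 53) := by
    delta fS
    exact Eq.refl _
  rw [e, dg_ones_mul (by norm_num)]

theorem dg_fT (i : Nat) : dg fT i = if i < 70 then 2 ^ 71 else 0 := by
  have e : fT = Nat.mul ones (2 ^ 71) := by
    delta fT
    exact Eq.refl _
  rw [e, dg_ones_mul (by norm_num)]

theorem dg_fD (i : Nat) : dg fD i = if i < 70 then 2 ^ 71 + 2 ^ 53 else 0 := by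
  have e : fD = Nat.mul ones (2 ^ 71 + 2 ^ 53) := by
    delta fD
    exact Eq.refl _
  rw [e, dg_ones_mul (by norm_num)]

theorem dg_fN (i : Nat) : dg fN i = if i < 70 then 2 ^ 71 + 2 ^ 54 else 0 := by
  have e : fN = Nat.mul ones (2 ^ 71 + 2 ^ 54) := by
    delta fN
    exact Eq.refl _
  rw [e, dg_ones_mul (by norm_num)]

theorem dg_gM (i : Nat) : dg gM i = if i < 35 then 2 ^ 60 else 0 := by
  have e : gM = Nat.mul onesM (2 ^ 60) := by
    delta gM
    exact Eq.refl _
  rw [e, dg_onesM_mul (by norm_num)]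

theorem dg_mM (i : Nat) : dg mM i = if i < 35 then 2 ^ 60 - 1 else 0 := by
  have e : mM = Nat.mul onesM (2 ^ 60 - 1) := by
    delta mM
    exact Eq.refl _
  rw [e, dg_onesM_mul (by norm_num)]

theorem land_shl (a m k : Nat) : Nat.land a (m * 2 ^ k) = Nat.land (a / 2 ^ k) m * 2 ^ k := by
  have e1 : Nat.land a (m * 2 ^ k) = a &&& (m <<< k) := by
    rw [Nat.shiftLeft_eq]
    rfl
  have e2 : Nat.land (a / 2 ^ k) m * 2 ^ k = ((a >>> k) &&& m) <<< k := by
    rw [Nat.shiftLeft_eq, Nat.shiftRight_eq_div_pow]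
    rfl
  rw [e1, e2]
  apply Nat.eq_of_testBit_eq
  intro j
  simp only [Nat.testBit_and, Nat.testBit_shiftLeft, Nat.testBit_shiftRight]
  by_cases h : j ≥ k
  · have h1 : k + (j - k) = j := by omega
    rw [h1]
    cases Nat.testBit a j <;> cases Nat.testBit m (j - k) <;> cases decide (j ≥ k) <;> rfl
  · rw [decide_eq_false h]
    cases Nat.testBit a j <;> rfl

theorem dg_ge70 {X : Nat} (hX : X < 2 ^ 8120 ∧ ∀ i, dg X i < 2 ^ 54) {i : Nat} (hi : 70 ≤ i) :
    dg X i = 0 := by
  have e : (8120 : Nat) = 116 * 70 := rfl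
  have h := hX.1
  rw [e] at h
  exact dg_of_lt h hi

/-! ### range check -/

/-- `U` has the digits `c i + 2^71 + 2^53` modulo `2^72` -/
def Dg72 (U : Nat) (c : Nat → ℤ) : Prop :=
  ∀ i, i < 70 → ((dg U i % 2 ^ 72 : ℕ) : ℤ) = c i + 2 ^ 71 + 2 ^ 53

theorem okU_spec {U : Nat} {c : Nat → ℤ} (hU : Dg72 U c) (h : okU U = true) :
    Good (cut U) ∧ ∀ i, i < 70 → sd (cut U) i = c i := by
  have h0 : Nat.land U mH = vH := Nat.eq_of_beq_eq_true h
  have h1 : ∀ i, i < 70 → Nat.land (dg U i) (262143 * 2 ^ 54) = 2 ^ 71 := by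
    intro i hi
    have h2 : dg (Nat.land U mH) i = dg vH i := by rw [h0]
    rw [dg_land, dg_mH, dg_vH, if_pos hi, if_pos hi] at h2
    exact h2
  have hc : ∀ i, dg (cut U) i = if i < 70 then dg U i % 2 ^ 54 else 0 := by
    intro i
    have e : cut U = Nat.land U mD := rfl
    rw [e, dg_land, dg_mD]
    by_cases hi : i < 70
    · rw [if_pos hi, if_pos hi]
      exact land_mask _ 54
    · rw [if_neg hi, if_neg hi]
      exact land_zero_right _
  have hg : Good (cut U) := by
    constructor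
    · have e : (8120 : Nat) = 116 * 70 := rfl
      rw [e]
      apply lt_of_dg
      intro i hi
      rw [hc, if_neg (by omega)]
    · intro i
      rw [hc]
      split_ifs
      · exact Nat.mod_lt _ (by positivity)
      · positivity
  refine ⟨hg, ?_⟩
  intro i hi
  have h2 := h1 i hi
  have h3 := hU i hi
  have e : sd (cut U) i = (dg (cut U) i : ℤ) - 2 ^ 53 := rfl
  rw [e, hc, if_pos hi]
  rw [land_shl] at h2
  have h4 : Nat.land (dg U i / 2 ^ 54) 262143 = dg U i / 2 ^ 54 % 2 ^ 18 := land_mask _ 18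
  rw [h4] at h2
  generalize dg U i = a at *
  norm_num at h2 h3 ⊢
  omega

theorem add_spec {X Y : Nat} (hX : Good X) (hY : Good Y) :
    Dg72 (Nat.add (Nat.add X Y) fS) (fun i => sd X i + sd Y i) := by
  intro i hi
  have hs : ∀ j, dg (X + Y) j = dg X j + dg Y j := by
    intro j
    apply dg_add
    intro k
    have h1 := hX.2 k
    have h2 := hY.2 k
    norm_num at h1 h2 ⊢
    omega
  have e : Nat.add (Nat.add X Y) fS = X + Y + fS := rfl
  have h1 := hX.2 i
  have h2 := hY.2 i
  rw [e, dg_add, hs, dg_fS, if_pos hi]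
  · have e1 : sd X i = (dg X i : ℤ) - 2 ^ 53 := rfl
    have e2 : sd Y i = (dg Y i : ℤ) - 2 ^ 53 := rfl
    simp only [e1, e2]
    generalize dg X i = a at *
    generalize dg Y i = b at *
    omega
  · intro k
    have h1 := hX.2 k
    have h2 := hY.2 k
    rw [hs, dg_fS]
    split_ifs <;> norm_num at h1 h2 ⊢ <;> omega

theorem sub_spec {X Y : Nat} (hX : Good X) (hY : Good Y) :
    Dg72 (Nat.sub (Nat.add X fD) Y) (fun i => sd X i - sd Y i) := by
  intro i hi
  have hs : ∀ j, dg (X + fD) j = dg X j + dg fD j := by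
    intro j
    apply dg_add
    intro k
    have h1 := hX.2 k
    rw [dg_fD]
    split_ifs <;> norm_num at h1 ⊢ <;> omega
  have e : Nat.sub (Nat.add X fD) Y = X + fD - Y := rfl
  have h1 := hX.2 i
  have h2 := hY.2 i
  rw [e, dg_sub, hs, dg_fD, if_pos hi]
  · have e1 : sd X i = (dg X i : ℤ) - 2 ^ 53 := rfl
    have e2 : sd Y i = (dg Y i : ℤ) - 2 ^ 53 := rfl
    simp only [e1, e2]
    generalize dg X i = a at *
    generalize dg Y i = b at *
    omega
  · intro k
    have h1 := hX.2 k
    have h2 := hY.2 k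
    rw [hs, dg_fD]
    split_ifs with hk
    · norm_num at h1 h2 ⊢
      omega
    · rw [dg_ge70 hY (by omega)]
      exact Nat.zero_le _

theorem neg_spec {X : Nat} (hX : Good X) : Dg72 (Nat.sub fN X) (fun i => -sd X i) := by
  intro i hi
  have e : Nat.sub fN X = fN - X := rfl
  have h1 := hX.2 i
  rw [e, dg_sub, dg_fN, if_pos hi]
  · have e1 : sd X i = (dg X i : ℤ) - 2 ^ 53 := rfl
    simp only [e1]
    generalize dg X i = a at *
    omega
  · intro k
    have h1 := hX.2 k
    rw [dg_fN]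
    split_ifs with hk
    · norm_num at h1 ⊢
      omega
    · rw [dg_ge70 hX (by omega)]

/-! ### absolute values -/

theorem xor_full {a : Nat} (h : a < 2 ^ 54) : Nat.xor a (2 ^ 54 - 1) = 2 ^ 54 - 1 - a := by
  have e : Nat.xor a (2 ^ 54 - 1) = a ^^^ (2 ^ 54 - 1) := rfl
  have e2 : 2 ^ 54 - 1 - a = 2 ^ 54 - (a + 1) := by
    rw [Nat.sub_sub, Nat.add_comm]
  rw [e, e2]
  apply Nat.eq_of_testBit_eq
  intro j
  rw [Nat.testBit_xor, Nat.testBit_two_pow_sub_one, Nat.testBit_two_pow_sub_succ h]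
  by_cases hj : j < 54
  · rw [decide_eq_true hj]
    cases Nat.testBit a j <;> rfl
  · rw [decide_eq_false hj]
    have h1 : Nat.testBit a j = false := by
      apply Nat.testBit_eq_false_of_lt
      exact lt_of_lt_of_le h (Nat.pow_le_pow_right (by norm_num) (by omega))
    rw [h1]
    rfl

theorem xor_zero_right (a : Nat) : Nat.xor a 0 = a := by
  exact Nat.xor_zero a

theorem dg_absX {X : Nat} (hX : Good X) (i : Nat) :
    dg (absX X) i = if i < 70 then (if 2 ^ 53 ≤ dg X i then dg X i - 2 ^ 53 else 2 ^ 53 - 1 - dg X i)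
      else 0 := by
  have h1 : ∀ j, dg (Nat.land (Nat.shiftRight X 53) ones) j =
      if j < 70 then dg X j / 2 ^ 53 else 0 := by
    intro j
    rw [dg_land, dg_ones, dg_shr_gen (by norm_num)]
    split_ifs with hj
    · have h2 := land_mask (dg X j / 2 ^ 53 + dg X (j + 1) % 2 ^ 53 * 2 ^ (116 - 53)) 1
      have e : (2 : Nat) ^ 1 - 1 = 1 := rfl
      rw [e] at h2
      rw [h2]
      have h3 := hX.2 j
      generalize dg X j = a at *
      generalize dg X (j + 1) % 2 ^ 53 = b at *
      norm_num at h3 ⊢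
      omega
    · exact land_zero_right _
  have h2 : ∀ j, dg (Nat.sub ones (Nat.land (Nat.shiftRight X 53) ones)) j =
      if j < 70 then 1 - dg X j / 2 ^ 53 else 0 := by
    intro j
    have e : Nat.sub ones (Nat.land (Nat.shiftRight X 53) ones) =
      ones - Nat.land (Nat.shiftRight X 53) ones := rfl
    rw [e, dg_sub, h1, dg_ones]
    · split_ifs <;> rfl
    · intro k
      rw [h1, dg_ones]
      split_ifs
      · have h3 := hX.2 k
        norm_num at h3 ⊢
        omega
      · exact le_refl _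
  have h3 : ∀ j, dg (Nat.mul (Nat.sub ones (Nat.land (Nat.shiftRight X 53) ones))
      18014398509481983) j = if j < 70 then (1 - dg X j / 2 ^ 53) * 18014398509481983 else 0 := by
    intro j
    have e : Nat.mul (Nat.sub ones (Nat.land (Nat.shiftRight X 53) ones)) 18014398509481983 =
      Nat.sub ones (Nat.land (Nat.shiftRight X 53) ones) * 18014398509481983 := rfl
    rw [e, dg_mul_one, h2]
    · split_ifs
      · rfl
      · exact Nat.zero_mul _
    · intro k
      rw [h2]
      split_ifs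
      · generalize dg X k / 2 ^ 53 = b
        norm_num
        omega
      · norm_num
  have h4 : ∀ j, dg (Nat.xor X (Nat.mul (Nat.sub ones (Nat.land (Nat.shiftRight X 53) ones))
      18014398509481983)) j =
      if j < 70 then (if 2 ^ 53 ≤ dg X j then dg X j else 2 ^ 54 - 1 - dg X j) else 0 := by
    intro j
    rw [dg_xor, h3]
    split_ifs with hj h5
    · have h6 : dg X j / 2 ^ 53 = 1 := by
        have h7 := hX.2 j
        norm_num at h5 h7 ⊢
        omega
      rw [h6]
      exact xor_zero_right _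
    · have h6 : dg X j / 2 ^ 53 = 0 := by
        norm_num at h5 ⊢
        omega
      rw [h6]
      exact xor_full (hX.2 j)
    · rw [dg_ge70 hX (by omega)]
      rfl
  have e : absX X = Nat.xor X (Nat.mul (Nat.sub ones (Nat.land (Nat.shiftRight X 53) ones))
      18014398509481983) - Nat.mul ones 9007199254740992 := rfl
  rw [e, dg_sub, h4, dg_ones_mul (by norm_num)]
  · split_ifs with hi h5
    · rfl
    · norm_num at h5 ⊢
      omega
    · rfl
  · intro k
    rw [h4, dg_ones_mul (by norm_num)]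
    split_ifs with hi h5
    · exact h5
    · norm_num at h5 ⊢
      omega
    · exact le_refl _

theorem absX_spec {X : Nat} (hX : Good X) (i : Nat) :
    (i < 70 → dg (absX X) i ≤ 2 ^ 53 ∧ |sd X i| ≤ (dg (absX X) i : ℤ) + 1 ∧
      (dg (absX X) i : ℤ) ≤ |sd X i|) ∧ (70 ≤ i → dg (absX X) i = 0) := by
  rw [dg_absX hX]
  constructor
  · intro hi
    rw [if_pos hi]
    have h1 := hX.2 i
    have e1 : sd X i = (dg X i : ℤ) - 2 ^ 53 := rfl
    rw [e1]
    generalize dg X i = a at *
    split_ifs with h2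
    · have h3 : (0 : ℤ) ≤ (a : ℤ) - 2 ^ 53 := by
        omega
      rw [abs_of_nonneg h3]
      refine ⟨?_, ?_, ?_⟩ <;> omega
    · have h3 : (a : ℤ) - 2 ^ 53 ≤ 0 := by
        omega
      rw [abs_of_nonpos h3]
      refine ⟨?_, ?_, ?_⟩ <;> omega
  · intro hi
    rw [if_neg (by omega)]

/-- `max u v + (√2 - 1) min u v ≥ √(u² + v²)`, `√2 - 1 < 425/1024` -/
theorem hyp_le {u v : ℝ} (hu : 0 ≤ u) (hv : 0 ≤ v) :
    Real.sqrt (u ^ 2 + v ^ 2) ≤ max u v + 425 / 1024 * min u v := by
  rw [Real.sqrt_le_iff]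
  rcases le_total u v with h | h
  · rw [max_eq_right h, min_eq_left h]
    constructor
    · positivity
    · nlinarith [mul_nonneg hu (sub_nonneg.mpr h), mul_nonneg hu hu]
  · rw [max_eq_left h, min_eq_right h]
    constructor
    · positivity
    · nlinarith [mul_nonneg hv (sub_nonneg.mpr h), mul_nonneg hv hv]

/-- digits of the two halves, maxima and minima -/
theorem dg_magX {X : Nat} (hX : Good X) (i : Nat) :
    dg (magX X) i = if i < 35 then
      (dg (absX X) (i + 35) + (dg (absX X) i - dg (absX X) (i + 35))) +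
        (dg (absX X) i - (dg (absX X) i - dg (absX X) (i + 35))) * 425 / 1024
      else 0 := by
  have hb : ∀ j, dg (absX X) j ≤ 2 ^ 53 := by
    intro j
    by_cases hj : j < 70
    · exact ((absX_spec hX j).1 hj).1
    · rw [(absX_spec hX j).2 (by omega)]
      exact Nat.zero_le _
  have hz : ∀ j, 70 ≤ j → dg (absX X) j = 0 := fun j hj => (absX_spec hX j).2 hj
  unfold magX
  dsimp only
  generalize absX X = y at *
  have hU : ∀ j, dg (Nat.land y mk4060) j = if j < 35 then dg y j else 0 := by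
    intro j
    have e : Nat.land y mk4060 = y % 2 ^ (116 * 35) := by
      have e1 : mk4060 = 2 ^ (116 * 35) - 1 := by
        delta mk4060
        exact Eq.refl _
      rw [e1]
      exact land_mask y (116 * 35)
    rw [e]
    exact dg_mod_pow y 35 j
  have hV : ∀ j, dg (Nat.shiftRight y 4060) j = dg y (j + 35) := by
    intro j
    exact dg_shr y 35 j
  generalize Nat.land y mk4060 = U at *
  generalize Nat.shiftRight y 4060 = V at *
  have ht1 : ∀ j, dg (U + gM) j = if j < 35 then dg y j + 2 ^ 60 else 0 := by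
    intro j
    rw [dg_add, hU, dg_gM]
    · split_ifs <;> rfl
    · intro k
      rw [hU, dg_gM]
      have h1 := hb k
      split_ifs <;> norm_num at h1 ⊢
      omega
  have ht : ∀ j, dg (Nat.sub (Nat.add U gM) V) j =
      if j < 35 then dg y j + 2 ^ 60 - dg y (j + 35) else 0 := by
    intro j
    have e : Nat.sub (Nat.add U gM) V = U + gM - V := rfl
    rw [e, dg_sub, ht1, hV]
    · split_ifs with hj
      · rfl
      · exact Nat.zero_sub _
    · intro k
      rw [ht1, hV]
      split_ifs with hk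
      · have h1 := hb (k + 35)
        norm_num at h1 ⊢
        omega
      · rw [hz _ (by omega)]
  generalize Nat.sub (Nat.add U gM) V = t at *
  have hk : ∀ j, dg (Nat.land t gM) j = if j < 35 ∧ dg y (j + 35) ≤ dg y j then 2 ^ 60 else 0 := by
    intro j
    rw [dg_land, ht, dg_gM]
    by_cases hj : j < 35
    · rw [if_pos hj, if_pos hj]
      have h2 := land_shl (dg y j + 2 ^ 60 - dg y (j + 35)) 1 60
      rw [Nat.one_mul] at h2
      rw [h2]
      have h3 := land_mask ((dg y j + 2 ^ 60 - dg y (j + 35)) / 2 ^ 60) 1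
      have e : (2 : Nat) ^ 1 - 1 = 1 := rfl
      rw [e] at h3
      rw [h3]
      have h4 := hb j
      have h5 := hb (j + 35)
      generalize dg y j = a at *
      generalize dg y (j + 35) = b at *
      by_cases h6 : b ≤ a
      · rw [if_pos ⟨hj, h6⟩]
        norm_num at h4 h5 ⊢
        omega
      · rw [if_neg (fun h => h6 h.2)]
        norm_num at h4 h5 ⊢
        omega
    · rw [if_neg hj, if_neg hj, if_neg (fun h => hj h.1)]
      rfl
  generalize Nat.land t gM = k at *
  have hk2 : ∀ j, dg (Nat.shiftRight k 60) j = if j < 35 ∧ dg y (j + 35) ≤ dg y j then 1 else 0 := by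
    intro j
    rw [dg_shr_gen (by norm_num), hk, hk]
    split_ifs <;> norm_num
  have hk3 : ∀ j, dg (Nat.sub k (Nat.shiftRight k 60)) j =
      if j < 35 ∧ dg y (j + 35) ≤ dg y j then 2 ^ 60 - 1 else 0 := by
    intro j
    have e : Nat.sub k (Nat.shiftRight k 60) = k - Nat.shiftRight k 60 := rfl
    rw [e, dg_sub, hk, hk2]
    · split_ifs <;> rfl
    · intro m
      rw [hk, hk2]
      split_ifs
      · norm_num
      · exact le_refl _
  have ha : ∀ j, dg (Nat.land t (Nat.sub k (Nat.shiftRight k 60))) j =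
      if j < 35 then dg y j - dg y (j + 35) else 0 := by
    intro j
    rw [dg_land, ht, hk3]
    by_cases hj : j < 35
    · rw [if_pos hj, if_pos hj]
      by_cases h1 : dg y (j + 35) ≤ dg y j
      · rw [if_pos ⟨hj, h1⟩, land_mask]
        have h4 := hb j
        have h5 := hb (j + 35)
        generalize dg y j = a at *
        generalize dg y (j + 35) = b at *
        norm_num at h4 h5 ⊢
        omega
      · rw [if_neg (fun h => h1 h.2), land_zero_right]
        omega
    · rw [if_neg hj, if_neg hj, if_neg (fun h => hj h.1)]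
      rfl
  generalize Nat.land t (Nat.sub k (Nat.shiftRight k 60)) = a at *
  have h1 : ∀ j, dg (V + a) j =
      if j < 35 then dg y (j + 35) + (dg y j - dg y (j + 35)) else 0 := by
    intro j
    rw [dg_add, hV, ha]
    · split_ifs with hj
      · rfl
      · rw [hz _ (by omega)]
    · intro m
      rw [hV, ha]
      have h4 := hb m
      have h5 := hb (m + 35)
      split_ifs <;> norm_num at h4 h5 ⊢ <;> omega
  have h2 : ∀ j, dg (Nat.sub U a) j =
      if j < 35 then dg y j - (dg y j - dg y (j + 35)) else 0 := by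
    intro j
    have e : Nat.sub U a = U - a := rfl
    rw [e, dg_sub, hU, ha]
    · split_ifs <;> rfl
    · intro m
      rw [hU, ha]
      split_ifs
      · exact Nat.sub_le _ _
      · exact le_refl _
  have h3 : ∀ j, dg (Nat.mul (Nat.sub U a) 425) j =
      if j < 35 then (dg y j - (dg y j - dg y (j + 35))) * 425 else 0 := by
    intro j
    have e : Nat.mul (Nat.sub U a) 425 = Nat.sub U a * 425 := rfl
    rw [e, dg_mul_one, h2]
    · split_ifs
      · rfl
      · exact Nat.zero_mul _
    · intro m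
      rw [h2]
      have h4 := hb m
      split_ifs <;> norm_num at h4 ⊢ <;> omega
  have h5 : ∀ j, dg (Nat.land (Nat.shiftRight (Nat.mul (Nat.sub U a) 425) 10) mM) j =
      if j < 35 then (dg y j - (dg y j - dg y (j + 35))) * 425 / 1024 else 0 := by
    intro j
    rw [dg_land, dg_shr_gen (by norm_num), dg_mM]
    by_cases hj : j < 35
    · rw [if_pos hj, if_pos hj, land_mask, h3, if_pos hj]
      have h4 := hb j
      generalize dg (Nat.mul (Nat.sub U a) 425) (j + 1) = w at *
      generalize dg y j = u at *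
      generalize dg y (j + 35) = v at *
      have h6 : (u - (u - v)) * 425 / 2 ^ 10 < 2 ^ 60 := by
        norm_num at h4 ⊢
        omega
      have h7 : w % 2 ^ 10 * 2 ^ (116 - 10) = 2 ^ 60 * (w % 2 ^ 10 * 2 ^ 46) := by
        norm_num
        ring
      rw [h7, Nat.add_mul_mod_self_left, Nat.mod_eq_of_lt h6]
      norm_num
    · rw [if_neg hj, if_neg hj]
      exact land_zero_right _
  have e : Nat.add (Nat.add V a)
      (Nat.land (Nat.shiftRight (Nat.mul (Nat.sub U a) 425) 10) mM) =
      V + a + Nat.land (Nat.shiftRight (Nat.mul (Nat.sub U a) 425) 10) mM := rfl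
  rw [e, dg_add, h1, h5]
  · split_ifs <;> rfl
  · intro m
    rw [h1, h5]
    have h4 := hb m
    have h6 := hb (m + 35)
    split_ifs <;> norm_num at h4 h6 ⊢
    omega

theorem mag_aux {x y : ℝ} {a b : Nat} (hx : |x| ≤ (a : ℝ) + 1) (hy : |y| ≤ (b : ℝ) + 1) :
    Real.sqrt (x ^ 2 + y ^ 2) ≤
      ((b + (a - b) + (a - (a - b)) * 425 / 1024 : Nat) : ℝ) + 3 := by
  have hmax : b + (a - b) = max a b := by omega
  have hmin : a - (a - b) = min a b := by omega
  rw [hmax, hmin]
  have ha : (0 : ℝ) ≤ (a : ℝ) := Nat.cast_nonneg a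
  have hb : (0 : ℝ) ≤ (b : ℝ) := Nat.cast_nonneg b
  have h1 : x ^ 2 + y ^ 2 ≤ ((a : ℝ) + 1) ^ 2 + ((b : ℝ) + 1) ^ 2 := by
    have h2 : x ^ 2 ≤ ((a : ℝ) + 1) ^ 2 := by
      rw [← sq_abs x]
      exact pow_le_pow_left₀ (abs_nonneg x) hx 2
    have h3 : y ^ 2 ≤ ((b : ℝ) + 1) ^ 2 := by
      rw [← sq_abs y]
      exact pow_le_pow_left₀ (abs_nonneg y) hy 2
    linarith
  have h2 := Real.sqrt_le_sqrt h1
  have h3 := hyp_le (u := (a : ℝ) + 1) (v := (b : ℝ) + 1) (by positivity) (by positivity)
  have h4 : max ((a : ℝ) + 1) ((b : ℝ) + 1) = ((max a b : Nat) : ℝ) + 1 := by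
    rw [max_add_add_right, Nat.cast_max]
  have h5 : min ((a : ℝ) + 1) ((b : ℝ) + 1) = ((min a b : Nat) : ℝ) + 1 := by
    rw [min_add_add_right, Nat.cast_min]
  rw [h4, h5] at h3
  have h6 : ((min a b : Nat) : ℝ) * 425 / 1024 ≤ ((min a b * 425 / 1024 : Nat) : ℝ) + 1 := by
    have h7 : min a b * 425 < (min a b * 425 / 1024 + 1) * 1024 := by omega
    have h8 : ((min a b * 425 : Nat) : ℝ) < (((min a b * 425 / 1024 + 1) * 1024 : Nat) : ℝ) := by
      exact_mod_cast h7
    rw [div_le_iff₀ (by norm_num)]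
    push_cast at h8 ⊢
    exact h8.le
  rw [Nat.cast_add]
  linarith

theorem magX_spec {X : Nat} (hX : Good X) (i : Nat) :
    (i < 35 → dg (magX X) i < 2 ^ 55 ∧
      Real.sqrt ((sd X i : ℝ) ^ 2 + (sd X (i + 35) : ℝ) ^ 2) ≤ (dg (magX X) i : ℝ) + 3) ∧
      (35 ≤ i → dg (magX X) i = 0) := by
  rw [dg_magX hX]
  constructor
  · intro hi
    rw [if_pos hi]
    have h1 := (absX_spec hX i).1 (by omega)
    have h2 := (absX_spec hX (i + 35)).1 (by omega)
    have hu := h1.1
    have hv := h2.1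
    constructor
    · generalize dg (absX X) i = a at *
      generalize dg (absX X) (i + 35) = b at *
      norm_num at hu hv ⊢
      omega
    · have hx : |(sd X i : ℝ)| ≤ (dg (absX X) i : ℝ) + 1 := by exact_mod_cast h1.2.1
      have hy : |(sd X (i + 35) : ℝ)| ≤ (dg (absX X) (i + 35) : ℝ) + 1 := by
        exact_mod_cast h2.2.1
      exact mag_aux hx hy
  · intro hi
    rw [if_neg (by omega)]

/-- sum over masked digits; `M` selects a list of positions `l` below `35` -/
theorem mask_sum {y M : Nat} {l : List Nat} (hl : l.Nodup) (hl2 : ∀ i ∈ l, i < 35)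
    (hM : ∀ i, dg M i = if i ∈ l then 2 ^ 116 - 1 else 0) (hy : ∀ i ∈ l, dg y i < 2 ^ 55) :
    Nat.mod (Nat.land y M) full = (l.map (dg y)).sum := by
  have h1 : ∀ i, dg (Nat.land y M) i = if i ∈ l then dg y i else 0 := by
    intro i
    rw [dg_land, hM]
    split_ifs
    · exact land_full (dg_lt y i)
    · exact land_zero_right _
  have h2 : Nat.land y M < 2 ^ (116 * 35) := by
    apply lt_of_dg
    intro i hi
    rw [h1, if_neg]
    intro h
    have := hl2 i h
    omega
  have h3 : ∑ j ∈ Finset.range 35, dg (Nat.land y M) j = (l.map (dg y)).sum := by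
    rw [Finset.sum_congr rfl (fun j _ => h1 j), ← Finset.sum_filter, ← List.sum_toFinset _ hl]
    apply Finset.sum_congr
    · ext j
      rw [Finset.mem_filter, List.mem_toFinset, Finset.mem_range]
      exact ⟨fun h => h.2, fun h => ⟨hl2 j h, h⟩⟩
    · intro j _
      rfl
  rw [mod_full h2, h3]
  have h4 : ∑ j ∈ Finset.range 35, dg (Nat.land y M) j ≤ ∑ j ∈ Finset.range 35, 2 ^ 55 := by
    apply Finset.sum_le_sum
    intro j _
    rw [h1]
    split_ifs with h
    · exact (hy j h).le
    · positivity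
  rw [Finset.sum_const, Finset.card_range, smul_eq_mul] at h4
  refine lt_of_le_of_lt h4 ?_
  norm_num

end Pool.Agent.helper14.QF
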