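import Pool.Agent.helper31.IB.Defs
import Pool.Agent.helper31.IF.Defs

/-!
# QF: second order kernel arithmetic modulo a Fermat number, definitions

Same programs and the same one-number functions as `IB`; a model has a centre, a linear and a quadratic
form in at most five noise symbols.

A complex vector `(a k + b k * i)`, `k < 35`, is one number: `Σ a k * 2^(116 k) + J * Σ b k * 2^(116 k)`
modulo `NN = 2^8120 + 1`, where `J = 2^4060` is a square root of `-1`.  The digits `a k`, `b k` are
signed; the stored number `A.X` has the digits `a k + 2^53`, `-2^53 ≤ a k < 2^53` (unit `2^(-40)`).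
Position `0` is the centre, position `e i` the coefficient of `ε i`, position `e i + e j` the
coefficient of `ε i * ε j`, `e = 1, 4, 10, 12, 17` (all sums are different); the other digits are `0`.

Value form: a number which is `≡ Σ a k * 2^(116 k) + J * Σ b k * 2^(116 k)` modulo `NN`.
-/

namespace Pool.Agent.helper14.QF

open Pool.Agent.helper31.IA (Z Op)
open Pool.Agent.helper31.IB (fd pack zinv ofZ mg dmag)
open Pool.Agent.helper31.IF (zexp zlog)

/-- `Σ_{k < 70} 2^(116 k)` -/
@[irreducible] def ones : Nat := Nat.div (Nat.sub (Nat.pow 2 8120) 1) (Nat.sub (Nat.pow 2 116) 1)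

/-- `Σ_{k < 35} 2^(116 k)` -/
@[irreducible] def onesM : Nat := Nat.div (Nat.sub (Nat.pow 2 4060) 1) (Nat.sub (Nat.pow 2 116) 1)

@[irreducible] def NN : Nat := Nat.add (Nat.pow 2 8120) 1

/-- sum of `2^(116 k)` over a list of positions -/
def psel : List Nat → Nat
  | [] => 0
  | j :: t => Nat.add (Nat.pow 2 (Nat.mul 116 j)) (psel t)

/-- both halves -/
def both (x : Nat) : Nat := Nat.mul x (Nat.add (Nat.pow 2 4060) 1)

/-- positions of the linear part -/
@[irreducible] def pL : Nat := psel [1, 4, 10, 12, 17]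

/-- positions of the quadratic part -/
@[irreducible] def pQ : Nat := psel [2, 5, 8, 11, 13, 14, 16, 18, 20, 21, 22, 24, 27, 29, 34]

@[irreducible] def oC : Nat := both 1
@[irreducible] def oL : Nat := both pL

/-- a full digit -/
def full : Nat := Nat.sub (Nat.pow 2 116) 1

/-- masks of the centre, of the linear part, of both -/
@[irreducible] def mC : Nat := Nat.mul oC full
@[irreducible] def mL : Nat := Nat.mul oL full
@[irreducible] def mA : Nat := Nat.add mC mL

/-- `NN - 2^53 * (ones at the positions)`: added to masked stored digits gives the value form -/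
@[irreducible] def kC : Nat := Nat.sub NN (Nat.mul oC 9007199254740992)
@[irreducible] def kL : Nat := Nat.sub NN (Nat.mul oL 9007199254740992)
@[irreducible] def kA : Nat := Nat.sub NN (Nat.mul (Nat.add oC oL) 9007199254740992)
/-- all positions but centre and linear part -/
@[irreducible] def kQ : Nat := Nat.sub NN (Nat.mul (Nat.sub ones (Nat.add oC oL)) 9007199254740992)
/-- all positions but the centre -/
@[irreducible] def kD : Nat := Nat.sub NN (Nat.mul (Nat.sub ones oC) 9007199254740992)
/-- all positions -/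
@[irreducible] def kX : Nat := Nat.sub NN (Nat.mul ones 9007199254740992)

/-- low `54` bits of all digits -/
@[irreducible] def mD : Nat := Nat.mul ones 18014398509481983
/-- bits `54..71` of all digits -/
@[irreducible] def mH : Nat := Nat.mul ones (Nat.sub (Nat.pow 2 72) (Nat.pow 2 54))
/-- bit `71` of all digits -/
@[irreducible] def vH : Nat := Nat.mul ones (Nat.pow 2 71)
/-- offsets before a shift by `40`, `41` -/
@[irreducible] def f40 : Nat := Nat.mul ones (Nat.mul (Nat.add (Nat.pow 2 71) (Nat.pow 2 53)) (Nat.pow 2 40))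
@[irreducible] def f41 : Nat := Nat.mul ones (Nat.mul (Nat.add (Nat.pow 2 71) (Nat.pow 2 53)) (Nat.pow 2 41))
/-- offsets: `2^71 - 2^53`, `2^71`, `2^71 + 2^53`, `2^71 + 2^54` in all digits -/
@[irreducible] def fS : Nat := Nat.mul ones (Nat.sub (Nat.pow 2 71) (Nat.pow 2 53))
@[irreducible] def fT : Nat := Nat.mul ones (Nat.pow 2 71)
@[irreducible] def fD : Nat := Nat.mul ones (Nat.add (Nat.pow 2 71) (Nat.pow 2 53))
@[irreducible] def fN : Nat := Nat.mul ones (Nat.add (Nat.pow 2 71) (Nat.pow 2 54))

/-- range check: a digit `a + 2^71 + 2^53` (mod `2^72`) has `-2^53 ≤ a < 2^53` -/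
def okU (U : Nat) : Bool := Nat.beq (Nat.land U mH) vH

/-- stored form from checked digits -/
def cut (U : Nat) : Nat := Nat.land U mD

/-- value form divided by `2^40`, `2^41`: digits `⌊a / 2^40⌋ + 2^71 + 2^53` (mod `2^76`, `2^75`) -/
def r40 (P : Nat) : Nat := Nat.shiftRight (Nat.mod (Nat.add P f40) NN) 40
def r41 (P : Nat) : Nat := Nat.shiftRight (Nat.mod (Nat.add P f41) NN) 41

/-- all digits `|a|` or `|a| - 1` -/
def absX (X : Nat) : Nat :=
  Nat.sub (Nat.xor X (Nat.mul (Nat.sub ones (Nat.land (Nat.shiftRight X 53) ones)) 18014398509481983))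
    (Nat.mul ones 9007199254740992)

/-- guard bits `60` -/
@[irreducible] def gM : Nat := Nat.mul onesM (Nat.pow 2 60)
/-- low `60` bits of the digits of the first half -/
@[irreducible] def mM : Nat := Nat.mul onesM (Nat.sub (Nat.pow 2 60) 1)
@[irreducible] def mk4060 : Nat := Nat.sub (Nat.pow 2 4060) 1

/-- digits `v` with `|a + b i| ≤ v + 3` -/
def magX (X : Nat) : Nat :=
  let y := absX X
  let U := Nat.land y mk4060
  let V := Nat.shiftRight y 4060
  let t := Nat.sub (Nat.add U gM) V
  let k := Nat.land t gM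
  let a := Nat.land t (Nat.sub k (Nat.shiftRight k 60))
  Nat.add (Nat.add V a) (Nat.land (Nat.shiftRight (Nat.mul (Nat.sub U a) 425) 10) mM)

@[irreducible] def mLM : Nat := Nat.mul pL full
@[irreducible] def mQM : Nat := Nat.mul pQ full

/-- second order model: digits, bound of `‖centre‖`, of the linear part, of `‖value - centre‖`
(in units), error, validity -/
structure A where
  X : Nat
  m : Nat
  G : Nat
  D : Nat
  r : Nat
  ok : Bool
deriving Repr, Inhabited

def mdl (X r : Nat) (b : Bool) : A :=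
  let y := magX X
  let g := Nat.add (Nat.mod (Nat.land y mLM) full) 15
  ⟨X, Nat.add (Nat.land y full) 3, g,
    Nat.add (Nat.add g (Nat.add (Nat.mod (Nat.land y mQM) full) 45)) r, r,
    b && Nat.ble r 9007199254740992⟩

def bad : A := ⟨0, 0, 0, 0, 0, false⟩

/-- model from shifted digits -/
def mU (U r : Nat) (b : Bool) : A := mdl (cut U) r (b && okU U)

def A.add (x y : A) : A := mU (Nat.add (Nat.add x.X y.X) fS) (Nat.add x.r y.r) (x.ok && y.ok)

def A.sub (x y : A) : A := mU (Nat.sub (Nat.add x.X fD) y.X) (Nat.add x.r y.r) (x.ok && y.ok)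

def A.neg (x : A) : A := mU (Nat.sub fN x.X) x.r x.ok

def A.mul (x y : A) : A :=
  let a := Nat.land x.X mA
  let b := Nat.land y.X mA
  let P := Nat.add (Nat.mul (Nat.add a kA) (Nat.add b kA))
    (Nat.add (Nat.mul (Nat.add (Nat.land a mC) kC) (Nat.add (Nat.sub y.X b) kQ))
      (Nat.mul (Nat.add (Nat.land b mC) kC) (Nat.add (Nat.sub x.X a) kQ)))
  mU (r40 P)
    (Nat.add (Nat.shiftRight
       (Nat.add (Nat.add (Nat.mul x.m y.r) (Nat.mul y.m x.r))
         (Nat.sub (Nat.mul x.D y.D) (Nat.mul x.G y.G))) 40) 50)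
    (x.ok && y.ok)

/-- value form of a packed number of `IB` -/
def toF (c : Nat) : Nat :=
  Nat.sub (Nat.add (Nat.add (fd c 0) (Nat.shiftLeft (fd c 1) 4060)) NN)
    (Nat.add (fd c 2) (Nat.shiftLeft (fd c 3) 4060))

/-- the centre as a packed number of `IB` -/
def cen (X : Nat) : Nat :=
  let a := Nat.land X full
  let b := Nat.land (Nat.shiftRight X 4060) full
  pack (Nat.sub a 9007199254740992) (Nat.sub 9007199254740992 a)
    (Nat.sub b 9007199254740992) (Nat.sub 9007199254740992 b)

def A.const (z : Z) : A :=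
  mU (Nat.mod (Nat.add (toF (ofZ z)) fD) NN) 0
    (Nat.ble (Nat.add (Nat.add z.a z.b) (Nat.add z.c z.d)) 4503599627370496)

def A.scale (z : Z) (x : A) : A :=
  let c := ofZ z
  mU (r40 (Nat.mul (Nat.add x.X kX) (toF c))) (Nat.add (Nat.shiftRight (Nat.mul (mg c) x.r) 40) 50)
    (x.ok && Nat.ble (Nat.add (Nat.add z.a z.b) (Nat.add z.c z.d)) 4503599627370496)

/-- deviation from the centre, value form -/
def dev (X : Nat) : Nat := Nat.add (Nat.sub X (Nat.land X mC)) kD

/-- linear part, value form -/
def linV (X : Nat) : Nat := Nat.add (Nat.land X mL) kL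

def A.exp (x : A) : A :=
  let E := zexp (cen x.X)
  let M := Nat.add (dmag E.1) E.2.1
  let l := linV x.X
  let s := r41 (Nat.mul l l)
  let e := toF E.1
  let t := r40 (Nat.mul (Nat.add (dev x.X) (Nat.add (cut s) kX)) e)
  let q := Nat.add (Nat.add (Nat.shiftRight (Nat.sub (Nat.mul x.D x.D) (Nat.mul x.G x.G)) 41)
    (Nat.div (Nat.mul (Nat.mul x.D (Nat.mul x.D x.D)) (Nat.add 3298534883328 x.D))
      (Nat.shiftLeft 18 120))) 60
  bif x.ok && E.2.2 && Nat.ble x.D 1099511627776 && Nat.ble M 4503599627370496 && okU s && okU t then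
    mU (Nat.mod (Nat.add (Nat.add (cut t) fT) e) NN)
      (Nat.add
        (Nat.add E.2.1 (Nat.shiftRight (Nat.mul E.2.1 (Nat.mul 2 x.D)) 40))
        (Nat.add (Nat.shiftRight (Nat.mul M (Nat.add x.r q)) 40) 100))
      true
  else bad

def A.inv (x : A) : A :=
  let u := zinv (cen x.X)
  let U := Nat.add (dmag u.1) 2
  let h := Nat.add (Nat.shiftRight (Nat.mul U x.D) 40) 1
  let uf := toF u.1
  let y := r40 (Nat.mul (dev x.X) uf)
  let l := linV (cut y)
  let s := r40 (Nat.mul l l)
  let t := r40 (Nat.mul (Nat.sub (Nat.add (cut s) NN) (cut y)) uf)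
  bif x.ok && Nat.ble 1099511627776 u.2 && Nat.ble U 4503599627370496 && Nat.ble h 549755813888 &&
     okU y && okU s && okU t then
    mU (Nat.mod (Nat.add (Nat.add (cut t) fT) uf) NN)
      (Nat.add
        (Nat.add
          (Nat.shiftRight (Nat.mul (Nat.mul U U) (Nat.add (Nat.shiftLeft x.r 80)
            (Nat.mul U (Nat.sub (Nat.mul x.D x.D) (Nat.mul x.G x.G))))) 160)
          (Nat.div (Nat.mul U (Nat.mul h (Nat.mul h h)))
            (Nat.shiftLeft (Nat.sub 1099511627776 h) 80)))
        (Nat.add (Nat.shiftRight (Nat.mul 300 U) 40) 100))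
      true
  else bad

def A.log (x : A) : A :=
  let c := cen x.X
  let l := zlog c
  let u := zinv c
  let U := Nat.add (dmag u.1) 2
  let h := Nat.add (Nat.shiftRight (Nat.mul U x.D) 40) 1
  let im := Nat.add (Nat.sub (fd l.1 1) (fd l.1 3)) (Nat.sub (fd l.1 3) (fd l.1 1))
  let y := r40 (Nat.mul (dev x.X) (toF u.1))
  let k := linV (cut y)
  let s := r41 (Nat.mul k k)
  bif x.ok && l.2.2 && Nat.ble 1099511627776 u.2 && Nat.ble U 4503599627370496 &&
     Nat.ble h 549755813888 &&
     Nat.ble (Nat.add im (Nat.add l.2.1 (Nat.mul 2 h))) 3452466511216 && okU y && okU s then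
    mU (Nat.mod (Nat.add (Nat.sub (Nat.add (cut y) fD) (cut s)) (toF l.1)) NN)
      (Nat.add
        (Nat.add (Nat.add l.2.1 (Nat.shiftRight (Nat.mul 4 x.D) 40))
          (Nat.shiftRight (Nat.mul U (Nat.add (Nat.shiftLeft x.r 81)
            (Nat.mul U (Nat.sub (Nat.mul x.D x.D) (Nat.mul x.G x.G))))) 121))
        (Nat.add (Nat.div (Nat.mul h (Nat.mul h h))
            (Nat.mul 3 (Nat.shiftLeft (Nat.sub 1099511627776 h) 40))) 400))
      true
  else bad

/-- positions of the products of the first `n` noise symbols (the real ones) -/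
def rm : Nat → List Nat
  | 0 => []
  | 1 => [1, 2]
  | 2 => [1, 4, 2, 5, 8]
  | 3 => [1, 4, 10, 2, 5, 8, 11, 14, 20]
  | 4 => [1, 4, 10, 12, 2, 5, 8, 11, 14, 20, 13, 16, 22, 24]
  | _ => [1, 4, 10, 12, 17, 2, 5, 8, 11, 14, 20, 13, 16, 22, 24, 18, 21, 27, 29, 34]

/-- `0 < Re`; the first `nr` noise symbols are real: `|Re a|` at the real positions, `|a|` at the
others -/
def A.isPos (nr : Nat) (x : A) : Bool :=
  let p := psel (rm nr)
  x.ok && Nat.ble nr 5 &&
    Nat.ble (Nat.add (Nat.add 9007199254740992 (Nat.mod (Nat.land (absX x.X) (Nat.mul p full)) full))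
      (Nat.add (Nat.mod (Nat.land (magX x.X)
          (Nat.mul (Nat.sub (Nat.add pL pQ) p) full)) full) (Nat.add x.r 100)))
      (Nat.land x.X full)

/-- `‖ ‖ < B / 2^40` -/
def A.isLt (x : A) (B : Nat) : Bool :=
  let c := cen x.X
  let p := Nat.add (fd c 0) (fd c 2)
  let q := Nat.add (fd c 1) (fd c 3)
  x.ok && Nat.ble (Nat.add x.D 1) B &&
    Nat.ble (Nat.add (Nat.add (Nat.mul p p) (Nat.mul q q)) 1)
      (Nat.mul (Nat.sub B x.D) (Nat.sub B x.D))

/-- the position of the noise symbol `j` -/
def pos : Nat → Nat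
  | 0 => 1
  | 1 => 4
  | 2 => 10
  | 3 => 12
  | _ => 17

/-- models of complex unit discs, `j` is the number of the first one -/
def discs : Nat → Nat → List A
  | 0, _ => []
  | nd + 1, j => mU (Nat.add fD (Nat.shiftLeft 1099511627776 (Nat.mul 116 (pos j)))) 0 true ::
      discs nd (j + 1)

/-- models of the real variables -/
def models : List (Nat × Nat) → Nat → Nat → List A
  | [], j, nd => discs nd j
  | (c, h) :: b, j, nd => mU (Nat.add fD (Nat.add c (Nat.shiftLeft h (Nat.mul 116 (pos j))))) 0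
      (Nat.ble c 9007199254740991 && Nat.ble h 9007199254740991) :: models b (j + 1) nd

end Pool.Agent.helper14.QF
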