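import Pool.Agent.helper14.QF.Model
import Pool.Agent.helper31.IB.Fun
import Pool.Agent.helper31.IF.Spec

/-!
# QF-5: second order models: inverse, exponential, logarithm

As in `QB/Fun.lean` (the analytic part is the same, private lemmas may be copied).  Write the value of
`x` as `c + δ`, `δ = lin + κ`, `‖δ‖ ≤ D`, `‖δ - lin‖ ≤ D - G`, `‖δ + lin‖ ≤ D + G` (units), so
`‖δ² - lin²‖ ≤ D² - G²`.

* inverse, `v = δ/c`, `‖v‖ ≤ h`: `1/(c + δ) = (1/c)(1 - v + v² - v³/(1 + v))`;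
  `u` is within `2` units of `1/c`, `y` within `30 + 2 D` units of `u (lin + quad)`.
* exponential: `exp (c + δ) = exp c (1 + δ + δ²/2 + R)`,
  `‖R‖ ≤ ‖δ‖³/6 (1 + ‖δ‖/4 + ‖δ‖²/20 + ...) ≤ ‖δ‖³ (3 + ‖δ‖)/18` for `‖δ‖ ≤ 1`.
* logarithm: `log (1 + v) = v - v²/2 + R`, `‖R‖ ≤ ‖v‖³/(3 (1 - ‖v‖))`; the principal value and the
  slit plane as in `IB/Fun.lean`.
-/

namespace Pool.Agent.helper14.QF

open Complex
open Pool.Agent.helper31.IA (Z Small get RealL)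
open Pool.Agent.helper31.IB (fd One bz mg ofZ zinv dmag)
open Pool.Agent.helper31.IF (zexp zlog)

/-! ### products with one number: digits -/

private theorem fbd {z w : GaussianInt} {m n : ℤ} (hm : 0 ≤ m)
    (hz : |z.re| ≤ m ∧ |z.im| ≤ m) (hw : |w.re| ≤ n ∧ |w.im| ≤ n) :
    |(z * w).re| ≤ 2 * (m * n) ∧ |(z * w).im| ≤ 2 * (m * n) := by
  have mm : ∀ s t : ℤ, |s| ≤ m → |t| ≤ n → |s * t| ≤ m * n := by
    intro s t hs ht
    rw [abs_mul]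
    exact mul_le_mul hs ht (abs_nonneg _) hm
  have h1 := abs_le.1 (mm _ _ hz.1 hw.1)
  have h2 := abs_le.1 (mm _ _ hz.2 hw.2)
  have h3 := abs_le.1 (mm _ _ hz.1 hw.2)
  have h4 := abs_le.1 (mm _ _ hz.2 hw.1)
  constructor
  · rw [Zsqrtd.re_mul, abs_le]
    constructor <;> linarith [h1.1, h1.2, h2.1, h2.2]
  · rw [Zsqrtd.im_mul, abs_le]
    constructor <;> linarith [h3.1, h3.2, h4.1, h4.2]

private theorem fcd {X : Nat} (hX : Good X) (k : Nat) :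
    |(cd X k).re| ≤ 2 ^ 53 ∧ |(cd X k).im| ≤ 2 ^ 53 := by
  have h1 := sd_bound hX k
  have h2 := sd_bound hX (k + 35)
  constructor
  · show |sd X k| ≤ 2 ^ 53
    rw [abs_le]
    exact ⟨h1.1, h1.2.le⟩
  · show |sd X (k + 35)| ≤ 2 ^ 53
    rw [abs_le]
    exact ⟨h2.1, h2.2.le⟩

private theorem fcd0 {X : Nat} (hX : Good X) (k : Nat) :
    |(if k = 0 then (0 : GaussianInt) else cd X k).re| ≤ 2 ^ 53 ∧
      |(if k = 0 then (0 : GaussianInt) else cd X k).im| ≤ 2 ^ 53 := by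
  by_cases h : k = 0
  · rw [if_pos h]
    constructor
    · show |(0 : ℤ)| ≤ 2 ^ 53
      norm_num
    · show |(0 : ℤ)| ≤ 2 ^ 53
      norm_num
  · rw [if_neg h]
    exact fcd hX k

/-- product with a number `|z| ≤ 2^54` and a digit `≤ 2^54` -/
private theorem fprod {z w : GaussianInt} {n : Nat} (hz : |z.re| ≤ n ∧ |z.im| ≤ n)
    (hn : n ≤ 2 ^ 54) (hw : |w.re| ≤ 2 ^ 54 ∧ |w.im| ≤ 2 ^ 54) :
    |(z * w).re| ≤ 2 ^ 110 ∧ |(z * w).im| ≤ 2 ^ 110 := by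
  have hn2 : ((n : ℕ) : ℤ) ≤ 2 ^ 54 := by exact_mod_cast hn
  have h := fbd (m := 2 ^ 54) (n := 2 ^ 54) (by positivity)
    ⟨hz.1.trans hn2, hz.2.trans hn2⟩ hw
  have e : (2 : ℤ) * (2 ^ 54 * 2 ^ 54) ≤ 2 ^ 110 := by norm_num
  exact ⟨h.1.trans e, h.2.trans e⟩

private theorem f5354 {w : GaussianInt} (hw : |w.re| ≤ 2 ^ 53 ∧ |w.im| ≤ 2 ^ 53) :
    |w.re| ≤ 2 ^ 54 ∧ |w.im| ≤ 2 ^ 54 := by
  have e : (2 : ℤ) ^ 53 ≤ 2 ^ 54 := by norm_num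
  exact ⟨hw.1.trans e, hw.2.trans e⟩

private theorem fadd {v w : GaussianInt} (hv : |v.re| ≤ 2 ^ 53 ∧ |v.im| ≤ 2 ^ 53)
    (hw : |w.re| ≤ 2 ^ 53 ∧ |w.im| ≤ 2 ^ 53) :
    |(v + w).re| ≤ 2 ^ 54 ∧ |(v + w).im| ≤ 2 ^ 54 := by
  have e : (2 : ℤ) ^ 53 + 2 ^ 53 = 2 ^ 54 := by norm_num
  rw [Zsqrtd.re_add, Zsqrtd.im_add, ← e]
  exact ⟨(abs_add_le _ _).trans (add_le_add hv.1 hw.1),
    (abs_add_le _ _).trans (add_le_add hv.2 hw.2)⟩

private theorem fsub {v w : GaussianInt} (hv : |v.re| ≤ 2 ^ 53 ∧ |v.im| ≤ 2 ^ 53)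
    (hw : |w.re| ≤ 2 ^ 53 ∧ |w.im| ≤ 2 ^ 53) :
    |(v - w).re| ≤ 2 ^ 54 ∧ |(v - w).im| ≤ 2 ^ 54 := by
  have e : (2 : ℤ) ^ 53 + 2 ^ 53 = 2 ^ 54 := by norm_num
  rw [Zsqrtd.re_sub, Zsqrtd.im_sub, ← e]
  exact ⟨(abs_sub _ _).trans (add_le_add hv.1 hw.1),
    (abs_sub _ _).trans (add_le_add hv.2 hw.2)⟩

private theorem st_self {X : Nat} (hX : Good X) : St X (cd X) := ⟨hX, fun _ _ => rfl⟩

/-- deviation times a number -/
theorem devmul_spec {X c n : Nat} {z : GaussianInt} (hX : Good X)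
    (hc : ((c : ℕ) : ZMod NN) = phi z) (hz : |z.re| ≤ n ∧ |z.im| ≤ n) (hn : n ≤ 2 ^ 54)
    (h : okU (r40 (Nat.mul (dev X) c)) = true) :
    St (cut (r40 (Nat.mul (dev X) c))) (fl 40 (fun k => if k = 0 then 0 else z * cd X k)) := by
  have hP : ((Nat.mul (dev X) c : ℕ) : ZMod NN) = V (fun k => if k = 0 then 0 else z * cd X k) := by
    rw [Nat.mul_eq, Nat.cast_mul, val_D hX, hc, mul_comm, ← V_mul]
    apply V_congr
    intro k _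
    by_cases h0 : k = 0
    · rw [if_pos h0, if_pos h0, mul_zero]
    · rw [if_neg h0, if_neg h0]
  refine r40_spec hP (fun k _ => ?_) h
  have h1 := fprod hz hn (f5354 (fcd0 hX k))
  by_cases h0 : k = 0
  · rw [if_pos h0, mul_zero] at h1
    rw [if_pos h0]
    exact h1
  · rw [if_neg h0] at h1
    rw [if_neg h0]
    exact h1

private theorem sq_bd {X : Nat} (hX : Good X) (k : Nat) :
    |(LL (cd X) (cd X) k).re| ≤ 2 ^ 110 ∧ |(LL (cd X) (cd X) k).im| ≤ 2 ^ 110 := by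
  have h := LL_bound (a := cd X) (b := cd X) (m := 2 ^ 53) (n := 2 ^ 53) (by positivity)
    (by positivity) (fun i _ => fcd hX i) (fun i _ => fcd hX i) k
  have e : (4 : ℤ) * (2 ^ 53 * 2 ^ 53) ≤ 2 ^ 110 := by norm_num
  exact ⟨h.1.trans e, h.2.trans e⟩

private theorem sq_V {X : Nat} (hX : Good X) :
    ((Nat.mul (linV X) (linV X) : ℕ) : ZMod NN) = V (LL (cd X) (cd X)) := by
  rw [Nat.mul_eq, Nat.cast_mul, val_L hX, V_lin_mul]

/-- square of the linear part -/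
theorem sq40_spec {X : Nat} (hX : Good X) (h : okU (r40 (Nat.mul (linV X) (linV X))) = true) :
    St (cut (r40 (Nat.mul (linV X) (linV X)))) (fl 40 (LL (cd X) (cd X))) :=
  r40_spec (sq_V hX) (fun k _ => sq_bd hX k) h

theorem sq41_spec {X : Nat} (hX : Good X) (h : okU (r41 (Nat.mul (linV X) (linV X))) = true) :
    St (cut (r41 (Nat.mul (linV X) (linV X)))) (fl 41 (LL (cd X) (cd X))) :=
  r41_spec (sq_V hX) (fun k _ => sq_bd hX k) h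

/-- deviation plus a stored number, times a number (`exp`) -/
theorem expmul_spec {X S c n : Nat} {z : GaussianInt} (hX : Good X) (hS : Good S)
    (hc : ((c : ℕ) : ZMod NN) = phi z) (hz : |z.re| ≤ n ∧ |z.im| ≤ n) (hn : n ≤ 2 ^ 54)
    (h : okU (r40 (Nat.mul (Nat.add (dev X) (Nat.add S kX)) c)) = true) :
    St (cut (r40 (Nat.mul (Nat.add (dev X) (Nat.add S kX)) c)))
      (fl 40 (fun k => z * ((if k = 0 then 0 else cd X k) + cd S k))) := by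
  have hP : ((Nat.mul (Nat.add (dev X) (Nat.add S kX)) c : ℕ) : ZMod NN) =
      V (fun k => z * ((if k = 0 then 0 else cd X k) + cd S k)) := by
    have e : Nat.add (dev X) (Nat.add S kX) = dev X + Nat.add S kX := rfl
    rw [Nat.mul_eq, Nat.cast_mul, e, Nat.cast_add, val_D hX, val_X hS, hc, mul_comm,
      ← V_add, ← V_mul]
  exact r40_spec hP (fun k _ => fprod hz hn (fadd (fcd0 hX k) (fcd hS k))) h

/-- difference of stored numbers, times a number (`inv`) -/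
theorem invmul_spec {X Y c n : Nat} {z : GaussianInt} (hX : Good X) (hY : Good Y)
    (hc : ((c : ℕ) : ZMod NN) = phi z) (hz : |z.re| ≤ n ∧ |z.im| ≤ n) (hn : n ≤ 2 ^ 54)
    (h : okU (r40 (Nat.mul (Nat.sub (Nat.add X NN) Y) c)) = true) :
    St (cut (r40 (Nat.mul (Nat.sub (Nat.add X NN) Y) c)))
      (fl 40 (fun k => z * (cd X k - cd Y k))) := by
  have hP : ((Nat.mul (Nat.sub (Nat.add X NN) Y) c : ℕ) : ZMod NN) =
      V (fun k => z * (cd X k - cd Y k)) := by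
    rw [Nat.mul_eq, Nat.cast_mul, val_sub (st_self hX) (st_self hY), hc, mul_comm, ← V_sub,
      ← V_mul]
  exact r40_spec hP (fun k _ => fprod hz hn (fsub (fcd hX k) (fcd hY k))) h

/-! ### analytic part (units `K = 2^40`) -/

private theorem nd (z : ℂ) (n : ℕ) : ‖z / 2 ^ n‖ = ‖z‖ / 2 ^ n := by
  rw [norm_div, norm_pow]
  norm_num

private theorem sq_diff {lin κ : ℂ} {D G : ℝ} (hlin : ‖lin‖ ≤ G) (hκ : ‖κ‖ ≤ D - G) :
    ‖(lin + κ) ^ 2 - lin ^ 2‖ ≤ D ^ 2 - G ^ 2 := by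
  have hG : 0 ≤ G := (norm_nonneg _).trans hlin
  have hDG : 0 ≤ D - G := (norm_nonneg _).trans hκ
  have e : (lin + κ) ^ 2 - lin ^ 2 = κ * (lin + (lin + κ)) := by ring
  have h1 : ‖lin + (lin + κ)‖ ≤ D + G := by
    have h2 := norm_add_le lin (lin + κ)
    have h3 := norm_add_le lin κ
    linarith
  rw [e, norm_mul]
  calc ‖κ‖ * ‖lin + (lin + κ)‖ ≤ (D - G) * (D + G) := mul_le_mul hκ h1 (norm_nonneg _) hDG
    _ = D ^ 2 - G ^ 2 := by ring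

/-- bound of `‖L^2 - (w lin / K)^2‖` -/
private theorem lsq {w lin L : ℂ} {U G h : ℝ} (hU0 : 0 ≤ U) (hw : ‖w‖ ≤ U) (hlin : ‖lin‖ ≤ G)
    (hUG : U * G ≤ h * 2 ^ 40) (hL : ‖L - w * lin / 2 ^ 40‖ ≤ 8) :
    ‖(w * lin / 2 ^ 40) ^ 2 - L ^ 2‖ ≤ 16 * h + 64 := by
  have hwl : ‖w * lin / 2 ^ 40‖ ≤ h := by
    rw [nd, norm_mul, div_le_iff₀ (by positivity)]
    exact (mul_le_mul hw hlin (norm_nonneg _) hU0).trans hUG
  have hL2 : ‖L‖ ≤ h + 8 := by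
    have e : L = w * lin / 2 ^ 40 + (L - w * lin / 2 ^ 40) := by ring
    rw [e]
    exact (norm_add_le _ _).trans (add_le_add hwl hL)
  have e : (w * lin / 2 ^ 40) ^ 2 - L ^ 2 =
      -((L - w * lin / 2 ^ 40) * (w * lin / 2 ^ 40 + L)) := by ring
  rw [e, norm_neg, norm_mul]
  have h2 : ‖w * lin / 2 ^ 40 + L‖ ≤ 2 * h + 8 := by
    refine (norm_add_le _ _).trans ?_
    linarith
  calc ‖L - w * lin / 2 ^ 40‖ * ‖w * lin / 2 ^ 40 + L‖ ≤ 8 * (2 * h + 8) :=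
        mul_le_mul hL h2 (norm_nonneg _) (by norm_num)
    _ = 16 * h + 64 := by ring

theorem inv_core {c lin quad ρ w y L s t : ℂ} {U D G r h : ℝ} (hc : c ≠ 0)
    (hw : ‖w - 2 ^ 80 / c‖ ≤ 2) (hU : ‖w‖ ≤ U) (hU2 : ‖(2 : ℂ) ^ 80 / c‖ ≤ U) (hU3 : U ≤ 2 ^ 52)
    (hU4 : 2 ≤ U)
    (hlin : ‖lin‖ ≤ G) (hq : ‖lin + quad‖ ≤ D) (hδ : ‖quad + ρ‖ ≤ D - G) (hρ : ‖ρ‖ ≤ r)
    (hD : ‖lin + quad + ρ‖ ≤ D) (hh : U * D / 2 ^ 40 ≤ h) (hh2 : h ≤ 2 ^ 39)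
    (hy : ‖y - w * (lin + quad) / 2 ^ 40‖ ≤ 30) (hL : ‖L - w * lin / 2 ^ 40‖ ≤ 8)
    (hs : ‖s - L ^ 2 / 2 ^ 40‖ ≤ 30) (ht : ‖t - (s - y) * w / 2 ^ 40‖ ≤ 30) :
    c + (lin + quad + ρ) ≠ 0 ∧ ‖2 ^ 80 / (c + (lin + quad + ρ)) - (w + t)‖ ≤
      U ^ 2 * (2 ^ 80 * r + U * (D ^ 2 - G ^ 2)) / 2 ^ 160 +
        U * h ^ 3 / (2 ^ 80 * (2 ^ 40 - h)) + (300 * U / 2 ^ 40 + 80) := by
  obtain ⟨W, hW⟩ : ∃ W : ℂ, W = 2 ^ 80 / c := ⟨_, rfl⟩
  rw [← hW] at hw hU2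
  have hU0 : 0 ≤ U := by linarith
  have hG0 : 0 ≤ G := (norm_nonneg _).trans hlin
  have hD0 : 0 ≤ D := (norm_nonneg _).trans hD
  have hDG : 0 ≤ D - G := (norm_nonneg _).trans hδ
  have hr0 : 0 ≤ r := (norm_nonneg _).trans hρ
  have hUD : U * D ≤ h * 2 ^ 40 := by rwa [div_le_iff₀ (by positivity)] at hh
  have hUG : U * G ≤ h * 2 ^ 40 :=
    le_trans (mul_le_mul_of_nonneg_left (by linarith) hU0) hUD
  have hh0 : 0 ≤ h := le_trans (by positivity) hh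
  have hsq := sq_diff hlin hδ
  obtain ⟨δ, hδ0⟩ : ∃ δ : ℂ, δ = lin + quad + ρ := ⟨_, rfl⟩
  have eδ : lin + (quad + ρ) = δ := by rw [hδ0]; ring
  rw [eδ] at hsq
  rw [← hδ0] at hD ⊢
  obtain ⟨v, hv⟩ : ∃ v : ℂ, v = δ / c := ⟨_, rfl⟩
  have hvW : v = W * δ / 2 ^ 80 := by rw [hv, hW]; field_simp
  have hcv : c + δ = c * (1 + v) := by rw [hv]; field_simp
  have hvn : ‖v‖ ≤ h / 2 ^ 40 := by
    rw [hvW, nd, norm_mul, div_le_iff₀ (by positivity)]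
    refine (mul_le_mul hU2 hD (norm_nonneg _) hU0).trans (hUD.trans (le_of_eq ?_))
    ring
  have hhK : h / 2 ^ 40 ≤ 1 / 2 := by
    rw [div_le_iff₀ (by positivity)]
    linarith
  have hhK0 : 0 ≤ h / 2 ^ 40 := by positivity
  have h1v : 1 - h / 2 ^ 40 ≤ ‖1 + v‖ := by
    have h3 : ‖(1 : ℂ)‖ ≤ ‖1 + v‖ + ‖v‖ := by
      calc ‖(1 : ℂ)‖ = ‖(1 + v) - v‖ := by congr 1; ring
        _ ≤ ‖1 + v‖ + ‖v‖ := norm_sub_le _ _
    rw [norm_one] at h3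
    linarith
  have h1vpos : 0 < ‖1 + v‖ := by linarith
  have h1v0 : 1 + v ≠ 0 := norm_pos_iff.mp h1vpos
  refine ⟨by rw [hcv]; exact mul_ne_zero hc h1v0, ?_⟩
  have hid : 2 ^ 80 / (c + δ) - (w + t) =
      -(w - W) + -(W ^ 2 * ρ / 2 ^ 80) + (w ^ 2 - W ^ 2) * (lin + quad) / 2 ^ 80 +
      W ^ 3 * (δ ^ 2 - lin ^ 2) / 2 ^ 160 + (W ^ 3 - w ^ 3) * lin ^ 2 / 2 ^ 160 +
      ((w * lin / 2 ^ 40) ^ 2 - L ^ 2) * w / 2 ^ 80 + -((s - L ^ 2 / 2 ^ 40) * w / 2 ^ 40) +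
      (y - w * (lin + quad) / 2 ^ 40) * w / 2 ^ 40 + -(t - (s - y) * w / 2 ^ 40) +
      -(W * v ^ 3 * (1 + v)⁻¹) := by
    have e1 : (1 + v)⁻¹ = 1 - v + v ^ 2 - v ^ 3 * (1 + v)⁻¹ := by
      field_simp
      ring
    have e2 : 2 ^ 80 / (c + δ) = W - W * v + W * v ^ 2 - W * v ^ 3 * (1 + v)⁻¹ := by
      have e3 : 2 ^ 80 / (c + δ) = W * (1 + v)⁻¹ := by
        rw [hcv, hW]
        field_simp
      rw [e3]
      calc W * (1 + v)⁻¹ = W * (1 - v + v ^ 2 - v ^ 3 * (1 + v)⁻¹) := by rw [← e1]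
        _ = _ := by ring
    have e4 : W * v = W ^ 2 * δ / 2 ^ 80 := by rw [hvW]; ring
    have e5 : W * v ^ 2 = W ^ 3 * δ ^ 2 / 2 ^ 160 := by rw [hvW]; ring
    rw [e2, e4, e5, hδ0]
    ring
  have b1 : ‖-(w - W)‖ ≤ 2 := by rw [norm_neg]; exact hw
  have b2 : ‖-(W ^ 2 * ρ / 2 ^ 80)‖ ≤ U ^ 2 * r / 2 ^ 80 := by
    rw [norm_neg, nd, norm_mul, norm_pow]
    gcongr
  have b3 : ‖(w ^ 2 - W ^ 2) * (lin + quad) / 2 ^ 80‖ ≤ 2 := by
    have e : w ^ 2 - W ^ 2 = (w - W) * (w + W) := by ring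
    rw [nd, norm_mul, e, norm_mul, div_le_iff₀ (by positivity)]
    have h1 : ‖w + W‖ ≤ 2 * U := (norm_add_le _ _).trans (by linarith)
    calc ‖w - W‖ * ‖w + W‖ * ‖lin + quad‖ ≤ 2 * (2 * U) * D := by gcongr
      _ = 4 * (U * D) := by ring
      _ ≤ 4 * (h * 2 ^ 40) := by gcongr
      _ ≤ 4 * (2 ^ 39 * 2 ^ 40) := by gcongr
      _ = 2 * 2 ^ 80 := by norm_num
  have b4 : ‖W ^ 3 * (δ ^ 2 - lin ^ 2) / 2 ^ 160‖ ≤ U ^ 3 * (D ^ 2 - G ^ 2) / 2 ^ 160 := by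
    rw [nd, norm_mul, norm_pow]
    gcongr
  have b5 : ‖(W ^ 3 - w ^ 3) * lin ^ 2 / 2 ^ 160‖ ≤ 2 := by
    have e : W ^ 3 - w ^ 3 = -((w - W) * (W ^ 2 + W * w + w ^ 2)) := by ring
    rw [nd, norm_mul, e, norm_neg, norm_mul, norm_pow, div_le_iff₀ (by positivity)]
    have h1 : ‖W ^ 2 + W * w + w ^ 2‖ ≤ 3 * U ^ 2 := by
      refine (norm_add_le _ _).trans ?_
      have n1 := norm_add_le (W ^ 2) (W * w)
      have n2 : ‖W ^ 2‖ ≤ U ^ 2 := by rw [norm_pow]; gcongr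
      have n3 : ‖w ^ 2‖ ≤ U ^ 2 := by rw [norm_pow]; gcongr
      have n4 : ‖W * w‖ ≤ U * U := by
        rw [norm_mul]
        gcongr
      linarith
    calc ‖w - W‖ * ‖W ^ 2 + W * w + w ^ 2‖ * ‖lin‖ ^ 2 ≤ 2 * (3 * U ^ 2) * G ^ 2 := by gcongr
      _ = 6 * (U * G) ^ 2 := by ring
      _ ≤ 6 * (h * 2 ^ 40) ^ 2 := by gcongr
      _ ≤ 6 * (2 ^ 39 * 2 ^ 40) ^ 2 := by gcongr
      _ ≤ 2 * 2 ^ 160 := by norm_num
  have b6 : ‖((w * lin / 2 ^ 40) ^ 2 - L ^ 2) * w / 2 ^ 80‖ ≤ 9 * U / 2 ^ 40 := by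
    have h1 := lsq hU0 hU hlin hUG hL
    rw [nd, norm_mul, div_le_div_iff₀ (by positivity) (by positivity)]
    calc ‖(w * lin / 2 ^ 40) ^ 2 - L ^ 2‖ * ‖w‖ * 2 ^ 40 ≤ (16 * h + 64) * U * 2 ^ 40 := by gcongr
      _ ≤ (16 * 2 ^ 39 + 64) * U * 2 ^ 40 := by gcongr
      _ ≤ (9 * 2 ^ 40) * U * 2 ^ 40 := by
          gcongr
          norm_num
      _ = 9 * U * 2 ^ 80 := by ring
  have b7 : ‖-((s - L ^ 2 / 2 ^ 40) * w / 2 ^ 40)‖ ≤ 30 * U / 2 ^ 40 := by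
    rw [norm_neg, nd, norm_mul]
    gcongr
  have b8 : ‖(y - w * (lin + quad) / 2 ^ 40) * w / 2 ^ 40‖ ≤ 30 * U / 2 ^ 40 := by
    rw [nd, norm_mul]
    gcongr
  have b9 : ‖-(t - (s - y) * w / 2 ^ 40)‖ ≤ 30 := by rw [norm_neg]; exact ht
  have hKh : (0 : ℝ) < 2 ^ 40 - h := by
    have : (2 : ℝ) ^ 39 < 2 ^ 40 := by norm_num
    linarith
  have b10 : ‖-(W * v ^ 3 * (1 + v)⁻¹)‖ ≤ U * h ^ 3 / (2 ^ 80 * (2 ^ 40 - h)) := by
    rw [norm_neg, norm_mul, norm_mul, norm_pow, norm_inv]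
    have hp : (0 : ℝ) < 1 - h / 2 ^ 40 := by linarith
    have hi : ‖1 + v‖⁻¹ ≤ 1 / (1 - h / 2 ^ 40) := by
      rw [inv_eq_one_div]
      exact one_div_le_one_div_of_le hp h1v
    calc ‖W‖ * ‖v‖ ^ 3 * ‖1 + v‖⁻¹ ≤ U * (h / 2 ^ 40) ^ 3 * (1 / (1 - h / 2 ^ 40)) := by gcongr
      _ = U * h ^ 3 / (2 ^ 80 * (2 ^ 40 - h)) := by
          have e0 : 1 - h / 2 ^ 40 = (2 ^ 40 - h) / 2 ^ 40 := by field_simp
          rw [e0]
          field_simp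
  rw [hid]
  have hsum := norm_add_le_of_le (norm_add_le_of_le (norm_add_le_of_le (norm_add_le_of_le
    (norm_add_le_of_le (norm_add_le_of_le (norm_add_le_of_le (norm_add_le_of_le (norm_add_le_of_le
    b1 b2) b3) b4) b5) b6) b7) b8) b9) b10
  refine hsum.trans ?_
  have e1 : U ^ 2 * (2 ^ 80 * r + U * (D ^ 2 - G ^ 2)) / 2 ^ 160 =
      U ^ 2 * r / 2 ^ 80 + U ^ 3 * (D ^ 2 - G ^ 2) / 2 ^ 160 := by
    ring
  have e2 : 300 * U / 2 ^ 40 = 300 * (U / 2 ^ 40) := by ring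
  have e3 : 30 * U / 2 ^ 40 = 30 * (U / 2 ^ 40) := by ring
  have e4 : 9 * U / 2 ^ 40 = 9 * (U / 2 ^ 40) := by ring
  have e5 : 0 ≤ U / 2 ^ 40 := by positivity
  rw [e1, e2, e3, e4]
  linarith

/-- remainder of the exponential -/
private theorem exp_rem {δ : ℂ} {x : ℝ} (h : ‖δ‖ ≤ x) (hx : x ≤ 1) :
    ‖Complex.exp δ - (1 + δ + δ ^ 2 / 2)‖ ≤ x ^ 3 * (3 + x) / 18 := by
  have hx0 : 0 ≤ x := (norm_nonneg _).trans h
  have hb := Complex.exp_bound (x := δ) (h.trans hx) (n := 4) (by norm_num)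
  have hs : ∑ m ∈ Finset.range 4, δ ^ m / (Nat.factorial m : ℂ) =
      1 + δ + δ ^ 2 / 2 + δ ^ 3 / 6 := by
    simp [Finset.sum_range_succ, Nat.factorial]
  rw [hs] at hb
  have e1 : Complex.exp δ - (1 + δ + δ ^ 2 / 2) =
      (Complex.exp δ - (1 + δ + δ ^ 2 / 2 + δ ^ 3 / 6)) + δ ^ 3 / 6 := by ring
  rw [e1]
  have h6 : ‖δ ^ 3 / 6‖ ≤ x ^ 3 / 6 := by
    rw [norm_div, norm_pow]
    have : ‖(6 : ℂ)‖ = 6 := by simp
    rw [this]
    gcongr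
  have h4 : ‖Complex.exp δ - (1 + δ + δ ^ 2 / 2 + δ ^ 3 / 6)‖ ≤ x ^ 4 * (5 / 96) := by
    refine hb.trans ?_
    have h5 : ((Nat.succ 4 : ℕ) : ℝ) * (((Nat.factorial 4 : ℕ) : ℝ) * ((4 : ℕ) : ℝ))⁻¹ ≤ 5 / 96 := by
      norm_num [Nat.factorial]
    have h7 : ‖δ‖ ^ 4 ≤ x ^ 4 := by gcongr
    exact mul_le_mul h7 h5 (by positivity) (by positivity)
  refine (norm_add_le_of_le h4 h6).trans ?_
  have h8 : 0 ≤ x ^ 4 := by positivity
  nlinarith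

private theorem exp_bd {δ : ℂ} {x : ℝ} (h : ‖δ‖ ≤ x) (hx : x ≤ 1) :
    ‖Complex.exp δ‖ ≤ 1 + 2 * x := by
  have hx0 : 0 ≤ x := (norm_nonneg _).trans h
  have h1 := exp_rem h hx
  have e1 : Complex.exp δ = (Complex.exp δ - (1 + δ + δ ^ 2 / 2)) + (1 + δ + δ ^ 2 / 2) := by ring
  rw [e1]
  have h2 : ‖δ ^ 2 / 2‖ ≤ x ^ 2 / 2 := by
    rw [norm_div, norm_pow]
    have : ‖(2 : ℂ)‖ = 2 := by simp
    rw [this]
    gcongr
  have h3 : ‖(1 : ℂ)‖ ≤ 1 := by simp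
  refine (norm_add_le_of_le h1 (norm_add_le_of_le (norm_add_le_of_le h3 h) h2)).trans ?_
  have a1 : x ^ 2 ≤ x := by nlinarith
  have a2 : x ^ 3 ≤ x := by nlinarith [mul_nonneg hx0 hx0]
  have a3 : x ^ 3 * (3 + x) ≤ x * 4 := by
    have a4 : 0 ≤ x ^ 3 := by positivity
    nlinarith
  linarith

theorem exp_core {c lin quad ρ e s t : ℂ} {M E2 D G r : ℝ}
    (he : ‖e - Complex.exp (c / 2 ^ 40) * 2 ^ 40‖ ≤ E2) (hM : ‖e‖ ≤ M)
    (hlin : ‖lin‖ ≤ G) (hq : ‖lin + quad‖ ≤ D) (hδ : ‖quad + ρ‖ ≤ D - G) (hρ : ‖ρ‖ ≤ r)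
    (hD : ‖lin + quad + ρ‖ ≤ D) (hD1 : D ≤ 2 ^ 40) (hG : 0 ≤ G)
    (hs : ‖s - lin ^ 2 / 2 ^ 41‖ ≤ 30) (ht : ‖t - (lin + quad + s) * e / 2 ^ 40‖ ≤ 30) :
    ‖Complex.exp ((c + (lin + quad + ρ)) / 2 ^ 40) * 2 ^ 40 - (e + t)‖ ≤
      E2 + E2 * (2 * D) / 2 ^ 40 + M * (r + ((D ^ 2 - G ^ 2) / 2 ^ 41 +
        D ^ 3 * (3 * 2 ^ 40 + D) / (18 * 2 ^ 120) + 30)) / 2 ^ 40 + 30 := by
  have hM0 : 0 ≤ M := (norm_nonneg _).trans hM
  have hE0 : 0 ≤ E2 := (norm_nonneg _).trans he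
  have hD0 : 0 ≤ D := (norm_nonneg _).trans hD
  have hsq := sq_diff hlin hδ
  obtain ⟨δ, hδ0⟩ : ∃ δ : ℂ, δ = lin + quad + ρ := ⟨_, rfl⟩
  have eδ : lin + (quad + ρ) = δ := by rw [hδ0]; ring
  rw [eδ] at hsq
  rw [← hδ0] at hD ⊢
  have hx : ‖δ / 2 ^ 40‖ ≤ D / 2 ^ 40 := by
    rw [nd]
    gcongr
  have hx1 : D / 2 ^ 40 ≤ 1 := by
    rw [div_le_one (by positivity)]
    exact hD1
  have hR := exp_rem hx hx1
  have hB := exp_bd hx hx1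
  obtain ⟨R, hR0⟩ : ∃ R : ℂ, R = Complex.exp (δ / 2 ^ 40) -
    (1 + δ / 2 ^ 40 + (δ / 2 ^ 40) ^ 2 / 2) := ⟨_, rfl⟩
  rw [← hR0] at hR
  have hid : Complex.exp ((c + δ) / 2 ^ 40) * 2 ^ 40 - (e + t) =
      -((e - Complex.exp (c / 2 ^ 40) * 2 ^ 40) * Complex.exp (δ / 2 ^ 40)) +
      e * (ρ + ((δ ^ 2 - lin ^ 2) / 2 ^ 41 + R * 2 ^ 40 + -(s - lin ^ 2 / 2 ^ 41))) / 2 ^ 40 +
      -(t - (lin + quad + s) * e / 2 ^ 40) := by
    rw [add_div, Complex.exp_add, hR0]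
    have e1 : lin + quad = δ - ρ := by rw [hδ0]; ring
    rw [e1]
    ring
  have b1 : ‖-((e - Complex.exp (c / 2 ^ 40) * 2 ^ 40) * Complex.exp (δ / 2 ^ 40))‖ ≤
      E2 * (1 + 2 * (D / 2 ^ 40)) := by
    rw [norm_neg, norm_mul]
    gcongr
  have b2 : ‖e * (ρ + ((δ ^ 2 - lin ^ 2) / 2 ^ 41 + R * 2 ^ 40 +
      -(s - lin ^ 2 / 2 ^ 41))) / 2 ^ 40‖ ≤
      M * (r + ((D ^ 2 - G ^ 2) / 2 ^ 41 + (D / 2 ^ 40) ^ 3 * (3 + D / 2 ^ 40) / 18 * 2 ^ 40 +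
        30)) / 2 ^ 40 := by
    have c1 : ‖(δ ^ 2 - lin ^ 2) / 2 ^ 41‖ ≤ (D ^ 2 - G ^ 2) / 2 ^ 41 := by
      rw [nd]
      gcongr
    have c2 : ‖R * 2 ^ 40‖ ≤ (D / 2 ^ 40) ^ 3 * (3 + D / 2 ^ 40) / 18 * 2 ^ 40 := by
      rw [norm_mul, norm_pow]
      have : ‖(2 : ℂ)‖ = 2 := by simp
      rw [this]
      gcongr
    have c3 : ‖-(s - lin ^ 2 / 2 ^ 41)‖ ≤ 30 := by rw [norm_neg]; exact hs
    have c4 := norm_add_le_of_le hρ (norm_add_le_of_le (norm_add_le_of_le c1 c2) c3)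
    rw [nd, norm_mul]
    gcongr
  have b3 : ‖-(t - (lin + quad + s) * e / 2 ^ 40)‖ ≤ 30 := by rw [norm_neg]; exact ht
  rw [hid]
  refine (norm_add_le_of_le (norm_add_le_of_le b1 b2) b3).trans (le_of_eq ?_)
  have e1 : (D / 2 ^ 40) ^ 3 * (3 + D / 2 ^ 40) / 18 * 2 ^ 40 =
      D ^ 3 * (3 * 2 ^ 40 + D) / (18 * 2 ^ 120) := by
    field_simp
  rw [e1]
  ring

/-- remainder of the logarithm -/
private theorem log_rem {v : ℂ} {x : ℝ} (h : ‖v‖ ≤ x) (hx : x ≤ 1 / 2) :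
    ‖Complex.log (1 + v) - (v - v ^ 2 / 2)‖ ≤ x ^ 3 / (3 * (1 - x)) := by
  have hx0 : 0 ≤ x := (norm_nonneg _).trans h
  have hv1 : ‖v‖ < 1 := lt_of_le_of_lt (h.trans hx) (by norm_num)
  have hb := Complex.norm_log_sub_logTaylor_le 2 hv1
  have hs : Complex.logTaylor (2 + 1) v = v - v ^ 2 / 2 := by
    simp [Complex.logTaylor, Finset.sum_range_succ]
    ring
  rw [hs] at hb
  refine hb.trans ?_
  have h5 : (1 - ‖v‖)⁻¹ ≤ (1 - x)⁻¹ := by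
    apply inv_anti₀
    · linarith
    · linarith
  have h50 : 0 ≤ (1 - ‖v‖)⁻¹ := by
    apply inv_nonneg.mpr
    linarith
  have h6 : ‖v‖ ^ (2 + 1) ≤ x ^ 3 := by gcongr
  calc ‖v‖ ^ (2 + 1) * (1 - ‖v‖)⁻¹ / ((2 : ℕ) + 1)
      ≤ x ^ 3 * (1 - x)⁻¹ / ((2 : ℕ) + 1) := by gcongr
    _ = x ^ 3 / (3 * (1 - x)) := by
        have : 1 - x ≠ 0 := by
          have : 0 < 1 - x := by linarith
          exact this.ne'
        push_cast
        field_simp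
        ring

theorem log_core {c lin quad ρ w y L s : ℂ} {U D G r h : ℝ} (hc : c ≠ 0)
    (hw : ‖w - 2 ^ 80 / c‖ ≤ 2) (hU : ‖w‖ ≤ U) (hU2 : ‖(2 : ℂ) ^ 80 / c‖ ≤ U) (hU3 : U ≤ 2 ^ 52)
    (hU4 : 2 ≤ U)
    (hlin : ‖lin‖ ≤ G) (hq : ‖lin + quad‖ ≤ D) (hδ : ‖quad + ρ‖ ≤ D - G) (hρ : ‖ρ‖ ≤ r)
    (hD : ‖lin + quad + ρ‖ ≤ D) (hh : U * D / 2 ^ 40 ≤ h) (hh2 : h ≤ 2 ^ 39)
    (hy : ‖y - w * (lin + quad) / 2 ^ 40‖ ≤ 30) (hL : ‖L - w * lin / 2 ^ 40‖ ≤ 8)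
    (hs : ‖s - L ^ 2 / 2 ^ 41‖ ≤ 30) :
    ‖(lin + quad + ρ) / c‖ ≤ 1 / 2 ∧ ‖Complex.log (1 + (lin + quad + ρ) / c)‖ ≤ 2 * h / 2 ^ 40 ∧
      ‖Complex.log (1 + (lin + quad + ρ) / c) * 2 ^ 40 - (y - s)‖ ≤
      4 * D / 2 ^ 40 + U * (2 ^ 81 * r + U * (D ^ 2 - G ^ 2)) / 2 ^ 121 +
        h ^ 3 / (3 * 2 ^ 40 * (2 ^ 40 - h)) + 380 := by
  obtain ⟨W, hW⟩ : ∃ W : ℂ, W = 2 ^ 80 / c := ⟨_, rfl⟩
  rw [← hW] at hw hU2
  have hU0 : 0 ≤ U := by linarith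
  have hG0 : 0 ≤ G := (norm_nonneg _).trans hlin
  have hD0 : 0 ≤ D := (norm_nonneg _).trans hD
  have hDG : 0 ≤ D - G := (norm_nonneg _).trans hδ
  have hr0 : 0 ≤ r := (norm_nonneg _).trans hρ
  have hUD : U * D ≤ h * 2 ^ 40 := by rwa [div_le_iff₀ (by positivity)] at hh
  have hUG : U * G ≤ h * 2 ^ 40 :=
    le_trans (mul_le_mul_of_nonneg_left (by linarith) hU0) hUD
  have hh0 : 0 ≤ h := le_trans (by positivity) hh
  have hsq := sq_diff hlin hδ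
  obtain ⟨δ, hδ0⟩ : ∃ δ : ℂ, δ = lin + quad + ρ := ⟨_, rfl⟩
  have eδ : lin + (quad + ρ) = δ := by rw [hδ0]; ring
  rw [eδ] at hsq
  rw [← hδ0] at hD ⊢
  obtain ⟨v, hv⟩ : ∃ v : ℂ, v = δ / c := ⟨_, rfl⟩
  rw [← hv]
  have hvW : v = W * δ / 2 ^ 80 := by rw [hv, hW]; field_simp
  have hvn : ‖v‖ ≤ h / 2 ^ 40 := by
    rw [hvW, nd, norm_mul, div_le_iff₀ (by positivity)]
    refine (mul_le_mul hU2 hD (norm_nonneg _) hU0).trans (hUD.trans (le_of_eq ?_))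
    ring
  have hhK : h / 2 ^ 40 ≤ 1 / 2 := by
    rw [div_le_iff₀ (by positivity)]
    linarith
  have hv2 : ‖v‖ ≤ 1 / 2 := hvn.trans hhK
  refine ⟨hv2, ?_, ?_⟩
  · have h1 := Complex.norm_log_one_add_half_le_self hv2
    have h0 := norm_nonneg v
    have e : 2 * h / 2 ^ 40 = 2 * (h / 2 ^ 40) := by ring
    rw [e]
    linarith
  have hR := log_rem hvn hhK
  obtain ⟨R, hR0⟩ : ∃ R : ℂ, R = Complex.log (1 + v) - (v - v ^ 2 / 2) := ⟨_, rfl⟩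
  rw [← hR0] at hR
  have hid : Complex.log (1 + v) * 2 ^ 40 - (y - s) =
      R * 2 ^ 40 + -((w - W) * (lin + quad) / 2 ^ 40) + W * ρ / 2 ^ 40 +
      -(y - w * (lin + quad) / 2 ^ 40) + -(W ^ 2 * (δ ^ 2 - lin ^ 2) / 2 ^ 121) +
      (w ^ 2 - W ^ 2) * lin ^ 2 / 2 ^ 121 + -(((w * lin / 2 ^ 40) ^ 2 - L ^ 2) / 2 ^ 41) +
      (s - L ^ 2 / 2 ^ 41) := by
    have e1 : Complex.log (1 + v) = R + (v - v ^ 2 / 2) := by rw [hR0]; ring
    rw [e1, hvW, hδ0]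
    ring
  have hKh : (0 : ℝ) < 2 ^ 40 - h := by
    have : (2 : ℝ) ^ 39 < 2 ^ 40 := by norm_num
    linarith
  have b1 : ‖R * 2 ^ 40‖ ≤ h ^ 3 / (3 * 2 ^ 40 * (2 ^ 40 - h)) := by
    rw [norm_mul, norm_pow]
    have : ‖(2 : ℂ)‖ = 2 := by simp
    rw [this]
    calc ‖R‖ * 2 ^ 40 ≤ (h / 2 ^ 40) ^ 3 / (3 * (1 - h / 2 ^ 40)) * 2 ^ 40 := by gcongr
      _ = h ^ 3 / (3 * 2 ^ 40 * (2 ^ 40 - h)) := by
          have e0 : 1 - h / 2 ^ 40 = (2 ^ 40 - h) / 2 ^ 40 := by field_simp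
          rw [e0]
          field_simp
  have b2 : ‖-((w - W) * (lin + quad) / 2 ^ 40)‖ ≤ 2 * D / 2 ^ 40 := by
    rw [norm_neg, nd, norm_mul]
    gcongr
  have b3 : ‖W * ρ / 2 ^ 40‖ ≤ U * r / 2 ^ 40 := by
    rw [nd, norm_mul]
    gcongr
  have b4 : ‖-(y - w * (lin + quad) / 2 ^ 40)‖ ≤ 30 := by rw [norm_neg]; exact hy
  have b5 : ‖-(W ^ 2 * (δ ^ 2 - lin ^ 2) / 2 ^ 121)‖ ≤ U ^ 2 * (D ^ 2 - G ^ 2) / 2 ^ 121 := by
    rw [norm_neg, nd, norm_mul, norm_pow]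
    gcongr
  have b6 : ‖(w ^ 2 - W ^ 2) * lin ^ 2 / 2 ^ 121‖ ≤ D / 2 ^ 40 := by
    have e : w ^ 2 - W ^ 2 = (w - W) * (w + W) := by ring
    rw [nd, norm_mul, e, norm_mul, norm_pow, div_le_div_iff₀ (by positivity) (by positivity)]
    have h1 : ‖w + W‖ ≤ 2 * U := (norm_add_le _ _).trans (by linarith)
    have hGD : G ≤ D := by linarith
    calc ‖w - W‖ * ‖w + W‖ * ‖lin‖ ^ 2 * 2 ^ 40 ≤ 2 * (2 * U) * G ^ 2 * 2 ^ 40 := by gcongr
      _ = 4 * (U * G) * G * 2 ^ 40 := by ring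
      _ ≤ 4 * (h * 2 ^ 40) * D * 2 ^ 40 := by gcongr
      _ ≤ 4 * (2 ^ 39 * 2 ^ 40) * D * 2 ^ 40 := by gcongr
      _ = D * 2 ^ 121 := by ring
  have b7 : ‖-(((w * lin / 2 ^ 40) ^ 2 - L ^ 2) / 2 ^ 41)‖ ≤ 5 := by
    have h1 := lsq hU0 hU hlin hUG hL
    rw [norm_neg, nd, div_le_iff₀ (by positivity)]
    refine h1.trans ?_
    have : 16 * h + 64 ≤ 16 * 2 ^ 39 + 64 := by linarith
    refine this.trans ?_
    norm_num
  rw [hid]
  have hsum := norm_add_le_of_le (norm_add_le_of_le (norm_add_le_of_le (norm_add_le_of_le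
    (norm_add_le_of_le (norm_add_le_of_le (norm_add_le_of_le b1 b2) b3) b4) b5) b6) b7) hs
  refine hsum.trans ?_
  have e1 : U * (2 ^ 81 * r + U * (D ^ 2 - G ^ 2)) / 2 ^ 121 =
      U * r / 2 ^ 40 + U ^ 2 * (D ^ 2 - G ^ 2) / 2 ^ 121 := by
    ring
  have e2 : 4 * D / 2 ^ 40 = 4 * (D / 2 ^ 40) := by ring
  have e3 : 2 * D / 2 ^ 40 = 2 * (D / 2 ^ 40) := by ring
  have e4 : 0 ≤ D / 2 ^ 40 := by positivity
  rw [e1, e2, e3]
  linarith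

/-! ### tools -/

private theorem f_mono_zero (ε : List ℂ) : mono ε 0 = 1 := by simp [mono]

private theorem f_ev_cen (z : GaussianInt) (ε : List ℂ) :
    ev (fun k => if k = 0 then z else 0) ε = toC z := by
  unfold ev
  rw [Finset.sum_eq_single 0]
  · beta_reduce
    rw [if_pos rfl, f_mono_zero, mul_one]
  · intro k _ hk
    beta_reduce
    rw [if_neg hk, map_zero, zero_mul]
  · intro h
    exact absurd (Finset.mem_range.2 (by norm_num)) h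

/-- a number added at the centre -/
private theorem f_ev_add (z : GaussianInt) (a : Nat → GaussianInt) (ε : List ℂ) :
    ev (fun k => if k = 0 then a 0 + z else a k) ε = ev a ε + toC z := by
  rw [← f_ev_cen z ε, ← ev_add]
  refine ev_congr (fun k _ => ?_) ε
  by_cases h : k = 0
  · rw [if_pos h, if_pos h, h]
  · rw [if_neg h, if_neg h, add_zero]

private theorem f_ev_dev (a : Nat → GaussianInt) (ε : List ℂ) :
    ev (fun k => if k = 0 then 0 else a k) ε = evL a ε + evQ a ε := by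
  have h : ev a ε = toC (a 0) + ev (fun k => if k = 0 then 0 else a k) ε := by
    rw [← f_ev_cen, ← ev_add]
    refine ev_congr (fun k _ => ?_) ε
    by_cases h : k = 0
    · rw [if_pos h, if_pos h, h, add_zero]
    · rw [if_neg h, if_neg h, zero_add]
  rw [ev_split] at h
  exact (add_left_cancel h).symm

private theorem f_evL_congr {a b : Nat → GaussianInt} (h : ∀ k, k < 35 → a k = b k) (ε : List ℂ) :
    evL a ε = evL b ε := by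
  unfold evL
  congr 1
  apply List.map_congr_left
  intro k hk
  have h2 : ∀ i ∈ PL, i < 35 := by decide
  rw [h k (h2 k hk)]

private theorem f_evL_mul (z : GaussianInt) (a : Nat → GaussianInt) (ε : List ℂ) :
    evL (fun k => z * a k) ε = toC z * evL a ε := by
  unfold evL
  rw [← List.sum_map_mul_left]
  congr 1
  apply List.map_congr_left
  intro k _
  rw [map_mul]
  ring

private theorem f_norm_list {ε : List ℂ} (hε : Small ε) (a : Nat → GaussianInt) (l : List Nat) :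
    ‖(l.map fun k => toC (a k) * mono ε k).sum‖ ≤ (l.map fun k => ‖toC (a k)‖).sum := by
  induction l with
  | nil => simp
  | cons k l ih =>
    simp only [List.map_cons, List.sum_cons]
    refine (norm_add_le _ _).trans (add_le_add ?_ ih)
    rw [norm_mul]
    exact mul_le_of_le_one_right (norm_nonneg _) (mono_small hε k)

/-- everything about the value -/
private theorem f_data {ε : List ℂ} (hε : Small ε) {x : A} {z : ℂ} (h : MemC ε x z) :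
    ∃ ρ : ℂ, z * 2 ^ 40 = toC (cd x.X 0) + (evL (cd x.X) ε + evQ (cd x.X) ε + ρ) ∧
      ‖ρ‖ ≤ (x.r : ℝ) ∧ ‖evL (cd x.X) ε‖ ≤ (x.G : ℝ) ∧
      ‖evQ (cd x.X) ε + ρ‖ ≤ (x.D : ℝ) - x.G ∧ ‖evL (cd x.X) ε + evQ (cd x.X) ε‖ ≤ (x.D : ℝ) ∧
      ‖evL (cd x.X) ε + evQ (cd x.X) ε + ρ‖ ≤ (x.D : ℝ) ∧ x.G ≤ x.D := by
  obtain ⟨ρ, h1, h2, h3, h4, h5⟩ := h.split hε
  have h6 := f_norm_list hε (cd x.X) PQ
  change ‖evQ (cd x.X) ε‖ ≤ _ at h6
  have h7 := h.dev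
  have h8 : (0 : ℝ) ≤ x.r := Nat.cast_nonneg _
  refine ⟨ρ, ?_, h2, h3, h4, ?_, ?_, ?_⟩
  · rw [h1]
    ring
  · have n1 := norm_add_le (evL (cd x.X) ε) (evQ (cd x.X) ε)
    linarith
  · have e : evL (cd x.X) ε + evQ (cd x.X) ε + ρ = evL (cd x.X) ε + (evQ (cd x.X) ε + ρ) := by ring
    rw [e]
    have n1 := norm_add_le (evL (cd x.X) ε) (evQ (cd x.X) ε + ρ)
    linarith
  · exact_mod_cast h5

private theorem f_bz {c : Nat} : bz c 0 * 2 ^ 40 = toC (zd c) := by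
  rw [bz_zd]
  have h : (2 : ℂ) ^ 40 ≠ 0 := by norm_num
  exact div_mul_cancel₀ _ h

private theorem f_dmag {x : ℕ} (h : One (2 ^ 62) x) : ‖toC (zd x)‖ ≤ (dmag x : ℝ) := by
  have h1 := Pool.Agent.helper31.IB.dmag_spec (Pool.Agent.helper31.IB.clean_mono
    (Pool.Agent.helper31.IB.clean_of_one h) (by norm_num : 2 ^ 62 ≤ 2 ^ 90))
  refine le_trans ?_ h1
  rw [← f_bz, norm_mul]
  have h2 : ‖bz x 0‖ ≤ ∑ j ∈ Finset.range 8, ‖bz x j‖ :=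
    Finset.single_le_sum (f := fun j => ‖bz x j‖) (fun j _ => norm_nonneg _)
      (Finset.mem_range.mpr (by norm_num))
  have h3 : ‖(2 : ℂ) ^ 40‖ = 2 ^ 40 := by
    rw [norm_pow]
    norm_num
  rw [h3]
  exact mul_le_mul_of_nonneg_right h2 (by positivity)

/-- coordinates from the norm -/
private theorem f_coord {z : GaussianInt} {n : Nat} (h : ‖toC z‖ ≤ (n : ℝ)) :
    |z.re| ≤ n ∧ |z.im| ≤ n := by
  constructor
  · have h1 := (Complex.abs_re_le_norm (toC z)).trans h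
    rw [← GaussianInt.intCast_re] at h1
    exact_mod_cast h1
  · have h1 := (Complex.abs_im_le_norm (toC z)).trans h
    rw [← GaussianInt.intCast_im] at h1
    exact_mod_cast h1

private theorem f_shr (N s : ℕ) : (N : ℝ) / 2 ^ s ≤ ((Nat.shiftRight N s : ℕ) : ℝ) + 1 := by
  have h1 : Nat.shiftRight N s = N / 2 ^ s := Nat.shiftRight_eq_div_pow N s
  rw [h1, div_le_iff₀ (by positivity)]
  have h2 : N < 2 ^ s * (N / 2 ^ s + 1) := Nat.lt_mul_div_succ N (by positivity)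
  have h3 : (N : ℝ) < 2 ^ s * (((N / 2 ^ s : ℕ) : ℝ) + 1) := by exact_mod_cast h2
  linarith

private theorem f_div (n d : ℕ) (hd : 0 < d) :
    (n : ℝ) / d ≤ ((Nat.div n d : ℕ) : ℝ) + 1 := by
  have hd' : (0 : ℝ) < d := by exact_mod_cast hd
  rw [div_le_iff₀ hd']
  have h2 : n < d * (n / d + 1) := Nat.lt_mul_div_succ n hd
  have h3 : (n : ℝ) < d * (((n / d : ℕ) : ℝ) + 1) := by exact_mod_cast h2
  have h4 : ((Nat.div n d : ℕ) : ℝ) = ((n / d : ℕ) : ℝ) := rfl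
  rw [h4]
  linarith

private theorem cadd (a b : ℕ) : ((Nat.add a b : ℕ) : ℝ) = (a : ℝ) + b := Nat.cast_add a b

private theorem cmul (a b : ℕ) : ((Nat.mul a b : ℕ) : ℝ) = (a : ℝ) * b := Nat.cast_mul a b

private theorem cshl (a s : ℕ) : ((Nat.shiftLeft a s : ℕ) : ℝ) = (a : ℝ) * 2 ^ s := by
  have e0 : Nat.shiftLeft a s = a * 2 ^ s := Nat.shiftLeft_eq _ _
  rw [e0]
  push_cast
  ring

/-- `D * D - G * G` -/
private theorem csq {D G : ℕ} (h : G ≤ D) :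
    ((Nat.sub (Nat.mul D D) (Nat.mul G G) : ℕ) : ℝ) = (D : ℝ) ^ 2 - (G : ℝ) ^ 2 := by
  have e : Nat.sub (Nat.mul D D) (Nat.mul G G) = D * D - G * G := rfl
  have h1 : G * G ≤ D * D := Nat.mul_le_mul h h
  rw [e, Nat.cast_sub h1]
  push_cast
  ring

private theorem bif_ok {b : Bool} {U r : ℕ}
    (h : (bif b then mU U r true else bad : A).ok = true) : b = true := by
  cases b with
  | true => rfl
  | false => exact h

/-- value of a product with the deviation -/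
private theorem f_dm {ε : List ℂ} (hε : Small ε) {Y X : Nat} {z : GaussianInt}
    (hY : St Y (fl 40 (fun k => if k = 0 then 0 else z * cd X k))) :
    ‖ev (cd Y) ε - toC z * (evL (cd X) ε + evQ (cd X) ε) / 2 ^ 40‖ ≤ 30 ∧
      ‖evL (cd Y) ε - toC z * evL (cd X) ε / 2 ^ 40‖ ≤ 8 := by
  constructor
  · rw [ev_congr hY.eq]
    have h := ev_fl hε 40 (fun k => if k = 0 then 0 else z * cd X k)
    have e : ev (fun k => if k = 0 then 0 else z * cd X k) ε =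
        toC z * (evL (cd X) ε + evQ (cd X) ε) := by
      rw [← f_ev_dev (cd X) ε, ← ev_mul]
      refine ev_congr (fun k _ => ?_) ε
      by_cases h0 : k = 0
      · rw [if_pos h0, if_pos h0, mul_zero]
      · rw [if_neg h0, if_neg h0]
    rw [e] at h
    exact h
  · rw [f_evL_congr hY.eq]
    have h := evL_fl hε 40 (fun k => if k = 0 then 0 else z * cd X k)
    have e : evL (fun k => if k = 0 then 0 else z * cd X k) ε = toC z * evL (cd X) ε := by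
      rw [← f_evL_mul]
      unfold evL
      congr 1
    rw [e] at h
    exact h

/-- value of a square of a linear part -/
private theorem f_sq {ε : List ℂ} (hε : Small ε) {S Y s : Nat}
    (hS : St S (fl s (LL (cd Y) (cd Y)))) :
    ‖ev (cd S) ε - evL (cd Y) ε ^ 2 / 2 ^ s‖ ≤ 30 := by
  rw [ev_congr hS.eq]
  have h := ev_fl hε s (LL (cd Y) (cd Y))
  rw [ev_LL] at h
  rw [pow_two]
  exact h

/-! ### the three functions -/

/-- the common part of `inv` and `log` -/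
private theorem f_inv0 {x : A} {w U h : Nat} (hg : Good x.X) (hw0 : w = (zinv (cen x.X)).1)
    (hn : 1099511627776 ≤ (zinv (cen x.X)).2) (hU0 : U = Nat.add (dmag w) 2)
    (hh0 : h = Nat.add (Nat.shiftRight (Nat.mul U x.D) 40) 1)
    (hU : U ≤ 4503599627370496) (hh : h ≤ 549755813888) :
    toC (cd x.X 0) ≠ 0 ∧ ‖toC (zd w) - 2 ^ 80 / toC (cd x.X 0)‖ ≤ 2 ∧
    ‖toC (zd w)‖ ≤ (U : ℝ) ∧ ‖(2 : ℂ) ^ 80 / toC (cd x.X 0)‖ ≤ (U : ℝ) ∧
    (U : ℝ) ≤ 2 ^ 52 ∧ (2 : ℝ) ≤ (U : ℝ) ∧ (U : ℝ) * x.D / 2 ^ 40 ≤ (h : ℝ) ∧ (h : ℝ) ≤ 2 ^ 39 ∧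
    ((toF w : ℕ) : ZMod NN) = phi (zd w) ∧
    (|(zd w).re| ≤ (4503599627370496 : ℕ) ∧ |(zd w).im| ≤ (4503599627370496 : ℕ)) := by
  obtain ⟨hc1, hc2⟩ := cen_spec hg
  obtain ⟨hw1, hcne, hwn, -⟩ := Pool.Agent.helper31.IB.zinv_spec hc1 hn
  rw [← hw0] at hw1 hwn
  have hb : bz (cen x.X) 0 = toC (cd x.X 0) / 2 ^ 40 := by rw [bz_zd, hc2]
  have hm := f_dmag hw1
  have hUr : (U : ℝ) = dmag w + 2 := by rw [hU0, cadd]; norm_num
  have hc0 : toC (cd x.X 0) ≠ 0 := by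
    intro h0
    rw [hb, h0, zero_div] at hcne
    exact hcne rfl
  have hw2 : ‖toC (zd w) - 2 ^ 80 / toC (cd x.X 0)‖ ≤ 2 := by
    have e : toC (zd w) - 2 ^ 80 / toC (cd x.X 0) = (bz w 0 - (bz (cen x.X) 0)⁻¹) * 2 ^ 40 := by
      rw [← f_bz, hb]
      have h40 : (2 : ℂ) ^ 40 ≠ 0 := by norm_num
      field_simp
    rw [e, norm_mul]
    have h3 : ‖(2 : ℂ) ^ 40‖ = 2 ^ 40 := by
      rw [norm_pow]
      norm_num
    rw [h3, ← le_div_iff₀ (by positivity)]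
    exact hwn
  have hmU : ‖toC (zd w)‖ ≤ (U : ℝ) := by
    rw [hUr]
    linarith
  have hU52 : (U : ℝ) ≤ 2 ^ 52 := by
    have : (U : ℝ) ≤ (4503599627370496 : ℕ) := by exact_mod_cast hU
    refine this.trans ?_
    norm_num
  have hmU2 : ‖toC (zd w)‖ ≤ ((4503599627370496 : ℕ) : ℝ) := by
    refine hmU.trans (hU52.trans ?_)
    norm_num
  refine ⟨hc0, hw2, hmU, ?_, hU52, ?_, ?_, ?_, ?_, ?_⟩
  · have e : (2 : ℂ) ^ 80 / toC (cd x.X 0) = toC (zd w) - (toC (zd w) - 2 ^ 80 / toC (cd x.X 0)) := by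
      ring
    rw [e, hUr]
    exact (norm_sub_le _ _).trans (add_le_add hm hw2)
  · rw [hUr]
    have : (0 : ℝ) ≤ dmag w := Nat.cast_nonneg _
    linarith
  · have h1 := f_shr (Nat.mul U x.D) 40
    rw [cmul] at h1
    rw [hh0, cadd (Nat.shiftRight _ _), Nat.cast_one]
    exact h1
  · have : (h : ℝ) ≤ (549755813888 : ℕ) := by exact_mod_cast hh
    refine this.trans ?_
    norm_num
  · exact toF_spec (by norm_num) hw1
  · exact f_coord hmU2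

private theorem inv_def (x : A) {w n2 U h uf y s t : Nat} (hw : w = (zinv (cen x.X)).1)
    (hn : n2 = (zinv (cen x.X)).2) (hU : U = Nat.add (dmag w) 2)
    (hh : h = Nat.add (Nat.shiftRight (Nat.mul U x.D) 40) 1) (huf : uf = toF w)
    (hy : y = r40 (Nat.mul (dev x.X) uf))
    (hs : s = r40 (Nat.mul (linV (cut y)) (linV (cut y))))
    (ht : t = r40 (Nat.mul (Nat.sub (Nat.add (cut s) NN) (cut y)) uf)) :
    x.inv = bif x.ok && Nat.ble 1099511627776 n2 && Nat.ble U 4503599627370496 &&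
      Nat.ble h 549755813888 && okU y && okU s && okU t then
    mU (Nat.mod (Nat.add (Nat.add (cut t) fT) uf) NN)
      (Nat.add
        (Nat.add
          (Nat.shiftRight (Nat.mul (Nat.mul U U) (Nat.add (Nat.shiftLeft x.r 80)
            (Nat.mul U (Nat.sub (Nat.mul x.D x.D) (Nat.mul x.G x.G))))) 160)
          (Nat.div (Nat.mul U (Nat.mul h (Nat.mul h h)))
            (Nat.shiftLeft (Nat.sub 1099511627776 h) 80)))
        (Nat.add (Nat.shiftRight (Nat.mul 300 U) 40) 100))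
      true
    else bad := by
  rw [ht, hs, hy, huf, hh, hU, hn, hw]
  simp only [A.inv]

private theorem c_sub {h : Nat} (hh : (h : ℝ) ≤ 2 ^ 39) :
    ((Nat.sub 1099511627776 h : ℕ) : ℝ) = 2 ^ 40 - (h : ℝ) := by
  have hle : h ≤ 1099511627776 := by
    have : (h : ℝ) ≤ (1099511627776 : ℕ) := hh.trans (by norm_num)
    exact_mod_cast this
  have e : Nat.sub 1099511627776 h = 1099511627776 - h := rfl
  rw [e, Nat.cast_sub hle]
  norm_num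

private theorem f_spos {k : Nat} (hk : (k : ℝ) ≤ 2 ^ 39) (m : Nat) :
    0 < Nat.shiftLeft (Nat.sub 1099511627776 k) m := by
  have h : (0 : ℝ) < ((Nat.shiftLeft (Nat.sub 1099511627776 k) m : ℕ) : ℝ) := by
    rw [cshl, c_sub hk]
    have h2 : (2 : ℝ) ^ 39 < 2 ^ 40 := by norm_num
    have h0 : (0 : ℝ) < 2 ^ 40 - k := by linarith
    positivity
  exact_mod_cast h

private theorem f_z70 {z : GaussianInt} (hz : |z.re| ≤ (4503599627370496 : ℕ) ∧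
    |z.im| ≤ (4503599627370496 : ℕ)) : |z.re| ≤ 2 ^ 70 ∧ |z.im| ≤ 2 ^ 70 := by
  have e : ((4503599627370496 : ℕ) : ℤ) ≤ 2 ^ 70 := by norm_num
  exact ⟨hz.1.trans e, hz.2.trans e⟩

theorem Mem.inv {ε : List ℂ} (hε : Small ε) {x : A} {u : ℂ} (hx : Mem ε x u)
    (h : x.inv.ok = true) : u ≠ 0 ∧ Mem ε x.inv u⁻¹ := by
  obtain ⟨w, hw⟩ : ∃ w, w = (zinv (cen x.X)).1 := ⟨_, rfl⟩
  obtain ⟨n2, hn2⟩ : ∃ n2, n2 = (zinv (cen x.X)).2 := ⟨_, rfl⟩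
  obtain ⟨U, hU⟩ : ∃ U, U = Nat.add (dmag w) 2 := ⟨_, rfl⟩
  obtain ⟨k, hk⟩ : ∃ k, k = Nat.add (Nat.shiftRight (Nat.mul U x.D) 40) 1 := ⟨_, rfl⟩
  obtain ⟨uf, huf⟩ : ∃ uf, uf = toF w := ⟨_, rfl⟩
  obtain ⟨y, hy⟩ : ∃ y, y = r40 (Nat.mul (dev x.X) uf) := ⟨_, rfl⟩
  obtain ⟨s, hs⟩ : ∃ s, s = r40 (Nat.mul (linV (cut y)) (linV (cut y))) := ⟨_, rfl⟩
  obtain ⟨t, ht⟩ : ∃ t, t = r40 (Nat.mul (Nat.sub (Nat.add (cut s) NN) (cut y)) uf) := ⟨_, rfl⟩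
  have hdef := inv_def x hw hn2 hU hk huf hy hs ht
  rw [hdef] at h ⊢
  have hb := bif_ok h
  rw [hb, cond_true]
  simp only [Bool.and_eq_true, Nat.ble_eq] at hb
  obtain ⟨⟨⟨⟨⟨⟨hxok, hn⟩, hUb⟩, hkb⟩, hoy⟩, hos⟩, hot⟩ := hb
  have hM := hx hxok
  rw [hn2] at hn
  obtain ⟨hc0, hw2, hwU, hcU, hU52, hU2, hUD, hk39, hphi, hz⟩ :=
    f_inv0 hM.good hw hn hU hk hUb hkb
  rw [← huf] at hphi
  have sy : St (cut y) (fl 40 (fun k => if k = 0 then 0 else zd w * cd x.X k)) := by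
    rw [hy] at hoy ⊢
    exact devmul_spec hM.good hphi hz (by norm_num) hoy
  have ss : St (cut s) (fl 40 (LL (cd (cut y)) (cd (cut y)))) := by
    rw [hs] at hos ⊢
    exact sq40_spec sy.good hos
  have st : St (cut t) (fl 40 (fun k => zd w * (cd (cut s) k - cd (cut y) k))) := by
    rw [ht] at hot ⊢
    exact invmul_spec ss.good sy.good hphi hz (by norm_num) hot
  obtain ⟨ρ, hu, hρ, hl, hκ, hlq, hδ, hGD⟩ := f_data hε hM
  obtain ⟨vy, vL⟩ := f_dm hε sy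
  have vs := f_sq hε ss
  have vt : ‖ev (cd (cut t)) ε - (ev (cd (cut s)) ε - ev (cd (cut y)) ε) * toC (zd w) / 2 ^ 40‖ ≤
      30 := by
    have h1 := ev_fl hε 40 (fun k => zd w * (cd (cut s) k - cd (cut y) k))
    rw [ev_mul, ev_sub, mul_comm (toC (zd w))] at h1
    rw [ev_congr st.eq]
    exact h1
  have key := inv_core hc0 hw2 hwU hcU hU52 hU2 hl hlq hκ hρ hδ hUD hk39 vy vL vs vt
  rw [← hu] at key
  have hu0 : u ≠ 0 := by
    intro h0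
    rw [h0, zero_mul] at key
    exact key.1 rfl
  refine ⟨hu0, ?_⟩
  refine mem_mU (a := fun k => if k = 0 then cd (cut t) 0 + zd w else cd (cut t) k) fun _ hok => ?_
  refine ⟨addc_spec (st_self st.good) hphi (f_z70 hz) hok, ?_⟩
  have e0 : u⁻¹ * 2 ^ 40 = 2 ^ 80 / (u * 2 ^ 40) := by
    have h40 : (2 : ℂ) ^ 40 ≠ 0 := by norm_num
    field_simp
  rw [f_ev_add, e0, add_comm (ev (cd (cut t)) ε)]
  refine key.2.trans ?_
  have s1 := f_shr (Nat.mul (Nat.mul U U) (Nat.add (Nat.shiftLeft x.r 80)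
            (Nat.mul U (Nat.sub (Nat.mul x.D x.D) (Nat.mul x.G x.G))))) 160
  have s2 := f_div (Nat.mul U (Nat.mul k (Nat.mul k k))) _ (f_spos hk39 80)
  have s3 := f_shr (Nat.mul 300 U) 40
  simp only [cmul, cadd, cshl, csq hGD] at s1
  simp only [cmul, cshl, c_sub hk39] at s2
  simp only [cmul] at s3
  simp only [cadd]
  have e1 : (U : ℝ) * U * ((x.r : ℝ) * 2 ^ 80 + U * ((x.D : ℝ) ^ 2 - (x.G : ℝ) ^ 2)) / 2 ^ 160 =
      (U : ℝ) ^ 2 * (2 ^ 80 * (x.r : ℝ) + U * ((x.D : ℝ) ^ 2 - (x.G : ℝ) ^ 2)) / 2 ^ 160 := by ring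
  have e2 : (U : ℝ) * ((k : ℝ) * ((k : ℝ) * k)) / ((2 ^ 40 - (k : ℝ)) * 2 ^ 80) =
      (U : ℝ) * (k : ℝ) ^ 3 / (2 ^ 80 * (2 ^ 40 - (k : ℝ))) := by
    rw [mul_comm ((2 : ℝ) ^ 40 - (k : ℝ))]
    ring
  rw [e1] at s1
  rw [e2] at s2
  push_cast at s3 ⊢
  linarith

private theorem exp_def (x : A) {E e2 M s ef t q : Nat} {b3 : Bool}
    (hE : E = (zexp (cen x.X)).1) (he2 : e2 = (zexp (cen x.X)).2.1)
    (hb3 : b3 = (zexp (cen x.X)).2.2) (hM : M = Nat.add (dmag E) e2)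
    (hs : s = r41 (Nat.mul (linV x.X) (linV x.X))) (hef : ef = toF E)
    (ht : t = r40 (Nat.mul (Nat.add (dev x.X) (Nat.add (cut s) kX)) ef))
    (hq : q = Nat.add (Nat.add (Nat.shiftRight (Nat.sub (Nat.mul x.D x.D) (Nat.mul x.G x.G)) 41)
      (Nat.div (Nat.mul (Nat.mul x.D (Nat.mul x.D x.D)) (Nat.add 3298534883328 x.D))
        (Nat.shiftLeft 18 120))) 60) :
    x.exp = bif x.ok && b3 && Nat.ble x.D 1099511627776 && Nat.ble M 4503599627370496 &&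
      okU s && okU t then
    mU (Nat.mod (Nat.add (Nat.add (cut t) fT) ef) NN)
      (Nat.add
        (Nat.add e2 (Nat.shiftRight (Nat.mul e2 (Nat.mul 2 x.D)) 40))
        (Nat.add (Nat.shiftRight (Nat.mul M (Nat.add x.r q)) 40) 100))
      true
    else bad := by
  rw [hq, ht, hef, hs, hM, hb3, he2, hE]
  simp only [A.exp]

theorem Mem.exp {ε : List ℂ} (hε : Small ε) {x : A} {u : ℂ} (hx : Mem ε x u) :
    Mem ε x.exp (Complex.exp u) := by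
  intro hok
  obtain ⟨E, hE⟩ : ∃ E, E = (zexp (cen x.X)).1 := ⟨_, rfl⟩
  obtain ⟨e2, he2⟩ : ∃ e2, e2 = (zexp (cen x.X)).2.1 := ⟨_, rfl⟩
  obtain ⟨b3, hb3⟩ : ∃ b3, b3 = (zexp (cen x.X)).2.2 := ⟨_, rfl⟩
  obtain ⟨M, hM0⟩ : ∃ M, M = Nat.add (dmag E) e2 := ⟨_, rfl⟩
  obtain ⟨s, hs⟩ : ∃ s, s = r41 (Nat.mul (linV x.X) (linV x.X)) := ⟨_, rfl⟩
  obtain ⟨ef, hef⟩ : ∃ ef, ef = toF E := ⟨_, rfl⟩
  obtain ⟨t, ht⟩ : ∃ t, t = r40 (Nat.mul (Nat.add (dev x.X) (Nat.add (cut s) kX)) ef) := ⟨_, rfl⟩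
  obtain ⟨q, hq⟩ : ∃ q, q = Nat.add (Nat.add (Nat.shiftRight (Nat.sub (Nat.mul x.D x.D)
      (Nat.mul x.G x.G)) 41)
      (Nat.div (Nat.mul (Nat.mul x.D (Nat.mul x.D x.D)) (Nat.add 3298534883328 x.D))
        (Nat.shiftLeft 18 120))) 60 := ⟨_, rfl⟩
  have hdef := exp_def x hE he2 hb3 hM0 hs hef ht hq
  rw [hdef] at hok ⊢
  have hb := bif_ok hok
  rw [hb, cond_true] at hok ⊢
  simp only [Bool.and_eq_true, Nat.ble_eq] at hb
  obtain ⟨⟨⟨⟨⟨hxok, hbt⟩, hD1⟩, hMb⟩, hos⟩, hot⟩ := hb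
  have hM := hx hxok
  rw [hb3] at hbt
  obtain ⟨hc1, hc2⟩ := cen_spec hM.good
  obtain ⟨hE1, hE3⟩ := Pool.Agent.helper31.IF.zexp_spec hc1 hbt
  rw [← hE, ← he2] at hE3
  rw [← hE] at hE1
  have hbc : bz (cen x.X) 0 = toC (cd x.X 0) / 2 ^ 40 := by rw [bz_zd, hc2]
  have hm := f_dmag hE1
  have hMr : (M : ℝ) = dmag E + e2 := by rw [hM0, cadd]
  have he20 : (0 : ℝ) ≤ e2 := Nat.cast_nonneg _
  have hEM : ‖toC (zd E)‖ ≤ (M : ℝ) := by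
    rw [hMr]
    linarith
  have hEM2 : ‖toC (zd E)‖ ≤ ((4503599627370496 : ℕ) : ℝ) := by
    refine hEM.trans ?_
    exact_mod_cast hMb
  have hz := f_coord hEM2
  have hphi : ((ef : ℕ) : ZMod NN) = phi (zd E) := by
    rw [hef]
    exact toF_spec (by norm_num) hE1
  have hE4 : ‖toC (zd E) - Complex.exp (toC (cd x.X 0) / 2 ^ 40) * 2 ^ 40‖ ≤ (e2 : ℝ) := by
    have e : toC (zd E) - Complex.exp (toC (cd x.X 0) / 2 ^ 40) * 2 ^ 40 =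
        (bz E 0 - Complex.exp (bz (cen x.X) 0)) * 2 ^ 40 := by
      rw [← f_bz, hbc]
      ring
    rw [e, norm_mul]
    have h3 : ‖(2 : ℂ) ^ 40‖ = 2 ^ 40 := by
      rw [norm_pow]
      norm_num
    rw [h3, ← le_div_iff₀ (by positivity)]
    exact hE3
  have ss : St (cut s) (fl 41 (LL (cd x.X) (cd x.X))) := by
    rw [hs] at hos ⊢
    exact sq41_spec hM.good hos
  have st : St (cut t) (fl 40 (fun k => zd E * ((if k = 0 then 0 else cd x.X k) +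
      cd (cut s) k))) := by
    rw [ht] at hot ⊢
    exact expmul_spec hM.good ss.good hphi hz (by norm_num) hot
  obtain ⟨ρ, hu, hρ, hl, hκ, hlq, hδ, hGD⟩ := f_data hε hM
  have vs := f_sq hε ss
  have vt : ‖ev (cd (cut t)) ε - (evL (cd x.X) ε + evQ (cd x.X) ε + ev (cd (cut s)) ε) *
      toC (zd E) / 2 ^ 40‖ ≤ 30 := by
    have h1 := ev_fl hε 40 (fun k => zd E * ((if k = 0 then 0 else cd x.X k) + cd (cut s) k))
    rw [ev_mul, ev_add, f_ev_dev, mul_comm (toC (zd E))] at h1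
    rw [ev_congr st.eq]
    exact h1
  have hDK : (x.D : ℝ) ≤ 2 ^ 40 := by
    have : (x.D : ℝ) ≤ (1099511627776 : ℕ) := by exact_mod_cast hD1
    refine this.trans ?_
    norm_num
  have key := exp_core hE4 hEM hl hlq hκ hρ hδ hDK (Nat.cast_nonneg _) vs vt
  rw [← hu] at key
  have e0 : u * 2 ^ 40 / 2 ^ 40 = u := by
    have h40 : (2 : ℂ) ^ 40 ≠ 0 := by norm_num
    exact mul_div_cancel_right₀ _ h40
  rw [e0] at key
  have hgoal : Mem ε (mU (Nat.mod (Nat.add (Nat.add (cut t) fT) ef) NN)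
      (Nat.add
        (Nat.add e2 (Nat.shiftRight (Nat.mul e2 (Nat.mul 2 x.D)) 40))
        (Nat.add (Nat.shiftRight (Nat.mul M (Nat.add x.r q)) 40) 100))
      true) (Complex.exp u) := by
    refine mem_mU (a := fun k => if k = 0 then cd (cut t) 0 + zd E else cd (cut t) k)
      fun _ hok => ?_
    refine ⟨addc_spec (st_self st.good) hphi (f_z70 hz) hok, ?_⟩
    rw [f_ev_add, add_comm (ev (cd (cut t)) ε)]
    refine key.trans ?_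
    have s1 := f_shr (Nat.mul e2 (Nat.mul 2 x.D)) 40
    have s2 := f_shr (Nat.mul M (Nat.add x.r q)) 40
    have s3 := f_shr (Nat.sub (Nat.mul x.D x.D) (Nat.mul x.G x.G)) 41
    have s4 := f_div (Nat.mul (Nat.mul x.D (Nat.mul x.D x.D)) (Nat.add 3298534883328 x.D))
        (Nat.shiftLeft 18 120) (by norm_num [Nat.shiftLeft_eq])
    simp only [cmul] at s1
    simp only [cmul, cadd] at s2
    rw [csq hGD] at s3
    simp only [cmul, cadd, cshl] at s4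
    have hqr : (q : ℝ) = ((Nat.shiftRight (Nat.sub (Nat.mul x.D x.D) (Nat.mul x.G x.G)) 41 : ℕ) : ℝ)
        + ((Nat.div (Nat.mul (Nat.mul x.D (Nat.mul x.D x.D)) (Nat.add 3298534883328 x.D))
        (Nat.shiftLeft 18 120) : ℕ) : ℝ) + 60 := by
      rw [hq, cadd, cadd]
      norm_num
    have e4 : (x.D : ℝ) * ((x.D : ℝ) * x.D) * (((3298534883328 : ℕ) : ℝ) + x.D) /
        (((18 : ℕ) : ℝ) * 2 ^ 120) = (x.D : ℝ) ^ 3 * (3 * 2 ^ 40 + x.D) / (18 * 2 ^ 120) := by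
      push_cast
      ring
    rw [e4] at s4
    have s5 : (x.r : ℝ) + (((x.D : ℝ) ^ 2 - (x.G : ℝ) ^ 2) / 2 ^ 41 +
        (x.D : ℝ) ^ 3 * (3 * 2 ^ 40 + x.D) / (18 * 2 ^ 120) + 30) ≤ (x.r : ℝ) + q := by
      rw [hqr]
      linarith
    have s6 : (M : ℝ) * ((x.r : ℝ) + (((x.D : ℝ) ^ 2 - (x.G : ℝ) ^ 2) / 2 ^ 41 +
        (x.D : ℝ) ^ 3 * (3 * 2 ^ 40 + x.D) / (18 * 2 ^ 120) + 30)) / 2 ^ 40 ≤
        (M : ℝ) * ((x.r : ℝ) + q) / 2 ^ 40 :=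
      div_le_div_of_nonneg_right (mul_le_mul_of_nonneg_left s5 (Nat.cast_nonneg _)) (by positivity)
    simp only [cadd]
    push_cast at s1 ⊢
    linarith
  exact hgoal hok

private theorem log_def (x : A) {l l2 w n2 U h im uf y s : Nat} {b3 : Bool}
    (hl : l = (zlog (cen x.X)).1) (hl2 : l2 = (zlog (cen x.X)).2.1)
    (hb3 : b3 = (zlog (cen x.X)).2.2) (hw : w = (zinv (cen x.X)).1)
    (hn : n2 = (zinv (cen x.X)).2) (hU : U = Nat.add (dmag w) 2)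
    (hh : h = Nat.add (Nat.shiftRight (Nat.mul U x.D) 40) 1)
    (him : im = Nat.add (Nat.sub (fd l 1) (fd l 3)) (Nat.sub (fd l 3) (fd l 1)))
    (huf : uf = toF w) (hy : y = r40 (Nat.mul (dev x.X) uf))
    (hs : s = r41 (Nat.mul (linV (cut y)) (linV (cut y)))) :
    x.log = bif x.ok && b3 && Nat.ble 1099511627776 n2 && Nat.ble U 4503599627370496 &&
     Nat.ble h 549755813888 &&
     Nat.ble (Nat.add im (Nat.add l2 (Nat.mul 2 h))) 3452466511216 && okU y && okU s then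
    mU (Nat.mod (Nat.add (Nat.sub (Nat.add (cut y) fD) (cut s)) (toF l)) NN)
      (Nat.add
        (Nat.add (Nat.add l2 (Nat.shiftRight (Nat.mul 4 x.D) 40))
          (Nat.shiftRight (Nat.mul U (Nat.add (Nat.shiftLeft x.r 81)
            (Nat.mul U (Nat.sub (Nat.mul x.D x.D) (Nat.mul x.G x.G))))) 121))
        (Nat.add (Nat.div (Nat.mul h (Nat.mul h h))
            (Nat.mul 3 (Nat.shiftLeft (Nat.sub 1099511627776 h) 40))) 400))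
      true
    else bad := by
  rw [hs, hy, huf, him, hh, hU, hn, hw, hb3, hl2, hl]
  simp only [A.log]

theorem Mem.log {ε : List ℂ} (hε : Small ε) {x : A} {u : ℂ} (hx : Mem ε x u)
    (h : x.log.ok = true) : u ∈ slitPlane ∧ Mem ε x.log (Complex.log u) := by
  obtain ⟨l, hl0⟩ : ∃ l, l = (zlog (cen x.X)).1 := ⟨_, rfl⟩
  obtain ⟨l2, hl2⟩ : ∃ l2, l2 = (zlog (cen x.X)).2.1 := ⟨_, rfl⟩
  obtain ⟨b3, hb3⟩ : ∃ b3, b3 = (zlog (cen x.X)).2.2 := ⟨_, rfl⟩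
  obtain ⟨w, hw⟩ : ∃ w, w = (zinv (cen x.X)).1 := ⟨_, rfl⟩
  obtain ⟨n2, hn2⟩ : ∃ n2, n2 = (zinv (cen x.X)).2 := ⟨_, rfl⟩
  obtain ⟨U, hU⟩ : ∃ U, U = Nat.add (dmag w) 2 := ⟨_, rfl⟩
  obtain ⟨k, hk⟩ : ∃ k, k = Nat.add (Nat.shiftRight (Nat.mul U x.D) 40) 1 := ⟨_, rfl⟩
  obtain ⟨im, him0⟩ : ∃ im, im = Nat.add (Nat.sub (fd l 1) (fd l 3))
    (Nat.sub (fd l 3) (fd l 1)) := ⟨_, rfl⟩
  obtain ⟨uf, huf⟩ : ∃ uf, uf = toF w := ⟨_, rfl⟩
  obtain ⟨y, hy⟩ : ∃ y, y = r40 (Nat.mul (dev x.X) uf) := ⟨_, rfl⟩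
  obtain ⟨s, hs⟩ : ∃ s, s = r41 (Nat.mul (linV (cut y)) (linV (cut y))) := ⟨_, rfl⟩
  have hdef := log_def x hl0 hl2 hb3 hw hn2 hU hk him0 huf hy hs
  rw [hdef] at h ⊢
  have hb := bif_ok h
  rw [hb, cond_true]
  simp only [Bool.and_eq_true, Nat.ble_eq] at hb
  obtain ⟨⟨⟨⟨⟨⟨⟨hxok, hlok⟩, hn⟩, hUb⟩, hkb⟩, hpi⟩, hoy⟩, hos⟩ := hb
  have hM := hx hxok
  rw [hn2] at hn
  rw [hb3] at hlok
  obtain ⟨hc0, hw2, hwU, hcU, hU52, hU2, hUD, hk39, hphi, hz⟩ :=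
    f_inv0 hM.good hw hn hU hk hUb hkb
  rw [← huf] at hphi
  obtain ⟨hc1, hc2⟩ := cen_spec hM.good
  have hbc : bz (cen x.X) 0 = toC (cd x.X 0) / 2 ^ 40 := by rw [bz_zd, hc2]
  obtain ⟨hl1, L, hL, hl⟩ := Pool.Agent.helper31.IF.zlog_spec hc1 hlok
  rw [← hl0] at hl1 hl
  rw [← hl2, norm_sub_rev] at hl
  rw [hbc] at hL
  have sy : St (cut y) (fl 40 (fun k => if k = 0 then 0 else zd w * cd x.X k)) := by
    rw [hy] at hoy ⊢
    exact devmul_spec hM.good hphi hz (by norm_num) hoy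
  have ss : St (cut s) (fl 41 (LL (cd (cut y)) (cd (cut y)))) := by
    rw [hs] at hos ⊢
    exact sq41_spec sy.good hos
  obtain ⟨ρ, hu, hρ, hl', hκ, hlq, hδ, hGD⟩ := f_data hε hM
  obtain ⟨vy, vL⟩ := f_dm hε sy
  have vs := f_sq hε ss
  have key := log_core hc0 hw2 hwU hcU hU52 hU2 hl' hlq hκ hρ hδ hUD hk39 vy vL vs
  have hK : (0 : ℝ) < 2 ^ 40 := by positivity
  have h40 : (2 : ℂ) ^ 40 ≠ 0 := by norm_num
  -- the value is `exp L * (1 + v)`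
  obtain ⟨v, hv⟩ : ∃ v : ℂ, v = (evL (cd x.X) ε + evQ (cd x.X) ε + ρ) / toC (cd x.X 0) := ⟨_, rfl⟩
  rw [← hv] at key
  obtain ⟨hv2, hlog1, hkey⟩ := key
  have huv : u = Complex.exp L * (1 + v) := by
    have e1 : u * 2 ^ 40 = (Complex.exp L * (1 + v)) * 2 ^ 40 := by
      rw [hu, hL, hv]
      field_simp
    exact mul_right_cancel₀ h40 e1
  have hv1 : ‖v‖ < 1 := lt_of_le_of_lt hv2 (by norm_num)
  have h1v0 : 1 + v ≠ 0 := by
    intro h0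
    have : v = -1 := by linear_combination h0
    rw [this] at hv1
    simp at hv1
  have hexp : Complex.exp (L + Complex.log (1 + v)) = u := by
    rw [Complex.exp_add, Complex.exp_log h1v0, huv]
  have himv : (bz l 0).im = ((fd l 1 : ℝ) - fd l 3) / 2 ^ 40 := by
    unfold Pool.Agent.helper31.IB.bz
    simp only [Nat.mul_zero, Nat.zero_add, add_im, mul_im, ofReal_im, ofReal_re, I_im, I_re]
    ring
  have him : |(bz l 0).im| ≤ (im : ℝ) / 2 ^ 40 := by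
    rw [himv, abs_div, abs_of_pos hK, him0, cadd]
    gcongr
    rcases le_total (fd l 1) (fd l 3) with hcd | hcd
    · have e1 : ((Nat.sub (fd l 3) (fd l 1) : ℕ) : ℝ) = fd l 3 - fd l 1 :=
        Nat.cast_sub hcd
      have e2 : (0 : ℝ) ≤ ((Nat.sub (fd l 1) (fd l 3) : ℕ) : ℝ) := Nat.cast_nonneg _
      have e3 : (fd l 1 : ℝ) ≤ fd l 3 := by exact_mod_cast hcd
      rw [e1, abs_of_nonpos (by linarith)]
      linarith
    · have e1 : ((Nat.sub (fd l 1) (fd l 3) : ℕ) : ℝ) = fd l 1 - fd l 3 :=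
        Nat.cast_sub hcd
      have e2 : (0 : ℝ) ≤ ((Nat.sub (fd l 3) (fd l 1) : ℕ) : ℝ) := Nat.cast_nonneg _
      have e3 : (fd l 3 : ℝ) ≤ fd l 1 := by exact_mod_cast hcd
      rw [e1, abs_of_nonneg (by linarith)]
      linarith
  have hpi' : (im : ℝ) + ((l2 : ℝ) + 2 * k) ≤ 3.14 * 2 ^ 40 := by
    have : ((Nat.add im (Nat.add l2 (Nat.mul 2 k)) : ℕ) : ℝ) ≤ (3452466511216 : ℕ) := by
      exact_mod_cast hpi
    simp only [cadd, cmul] at this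
    push_cast at this
    refine this.trans ?_
    norm_num
  have himL : |(L + Complex.log (1 + v)).im| ≤ 3.14 := by
    have e1 : (L + Complex.log (1 + v)).im =
        (bz l 0).im + (L - bz l 0).im + (Complex.log (1 + v)).im := by
      simp
    rw [e1]
    have t1 : |(L - bz l 0).im| ≤ (l2 : ℝ) / 2 ^ 40 := (Complex.abs_im_le_norm _).trans hl
    have t2 : |(Complex.log (1 + v)).im| ≤ 2 * (k : ℝ) / 2 ^ 40 :=
      (Complex.abs_im_le_norm _).trans hlog1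
    have t3 : (im : ℝ) / 2 ^ 40 + (l2 : ℝ) / 2 ^ 40 + 2 * (k : ℝ) / 2 ^ 40 ≤ 3.14 := by
      have : (im : ℝ) / 2 ^ 40 + (l2 : ℝ) / 2 ^ 40 + 2 * (k : ℝ) / 2 ^ 40 =
          ((im : ℝ) + ((l2 : ℝ) + 2 * k)) / 2 ^ 40 := by ring
      rw [this, div_le_iff₀ hK]
      exact hpi'
    calc |(bz l 0).im + (L - bz l 0).im + (Complex.log (1 + v)).im|
        ≤ |(bz l 0).im| + |(L - bz l 0).im| + |(Complex.log (1 + v)).im| := by
          refine (abs_add_le _ _).trans (add_le_add ?_ le_rfl)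
          exact abs_add_le _ _
      _ ≤ 3.14 := by linarith
  have hpi3 : (3.14 : ℝ) < Real.pi := Real.pi_gt_d2
  have himb := abs_le.mp himL
  have hlog : Complex.log u = L + Complex.log (1 + v) := by
    rw [← hexp]
    exact Complex.log_exp (by linarith) (by linarith)
  have hu0 : u ≠ 0 := by
    rw [huv]
    exact mul_ne_zero (Complex.exp_ne_zero _) h1v0
  refine ⟨?_, ?_⟩
  · rw [Complex.mem_slitPlane_iff_arg]
    refine ⟨?_, hu0⟩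
    have : Complex.arg u = (Complex.log u).im := by
      rw [Complex.log_im]
    rw [this, hlog]
    intro hh3
    linarith
  · have hphil : ((toF l : ℕ) : ZMod NN) = phi (zd l) := toF_spec (by norm_num) hl1
    have hzl : |(zd l).re| ≤ 2 ^ 70 ∧ |(zd l).im| ≤ 2 ^ 70 := by
      have h1 := zd_bound hl1
      have e : (((2 : ℕ) ^ 63 : ℕ) : ℤ) ≤ 2 ^ 70 := by norm_num
      exact ⟨h1.1.le.trans e, h1.2.le.trans e⟩
    refine mem_mU (a := fun k => if k = 0 then cd (cut y) 0 - cd (cut s) 0 + zd l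
      else cd (cut y) k - cd (cut s) k) fun _ hok => ?_
    refine ⟨subc_spec (st_self sy.good) (st_self ss.good) hphil hzl hok, ?_⟩
    have e0 : ev (fun k => if k = 0 then cd (cut y) 0 - cd (cut s) 0 + zd l
        else cd (cut y) k - cd (cut s) k) ε = ev (cd (cut y)) ε - ev (cd (cut s)) ε + toC (zd l) := by
      rw [← ev_sub]
      exact f_ev_add (zd l) (fun k => cd (cut y) k - cd (cut s) k) ε
    have e1 : Complex.log u * 2 ^ 40 - (ev (cd (cut y)) ε - ev (cd (cut s)) ε + toC (zd l)) =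
        (L - bz l 0) * 2 ^ 40 +
          (Complex.log (1 + v) * 2 ^ 40 - (ev (cd (cut y)) ε - ev (cd (cut s)) ε)) := by
      rw [hlog, ← f_bz]
      ring
    have h3 : ‖(2 : ℂ) ^ 40‖ = 2 ^ 40 := by
      rw [norm_pow]
      norm_num
    have b1 : ‖(L - bz l 0) * 2 ^ 40‖ ≤ (l2 : ℝ) := by
      rw [norm_mul, h3, ← le_div_iff₀ (by positivity)]
      exact hl
    rw [e0, e1]
    refine (norm_add_le_of_le b1 hkey).trans ?_
    have s1 := f_shr (Nat.mul 4 x.D) 40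
    have s2 := f_shr (Nat.mul U (Nat.add (Nat.shiftLeft x.r 81)
            (Nat.mul U (Nat.sub (Nat.mul x.D x.D) (Nat.mul x.G x.G))))) 121
    have s3 := f_div (Nat.mul k (Nat.mul k k))
      (Nat.mul 3 (Nat.shiftLeft (Nat.sub 1099511627776 k) 40))
      (Nat.mul_pos (by norm_num) (f_spos hk39 40))
    simp only [cmul] at s1
    simp only [cmul, cadd, cshl, csq hGD] at s2
    simp only [cmul, cshl, c_sub hk39] at s3
    simp only [cadd]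
    have e2 : (U : ℝ) * ((x.r : ℝ) * 2 ^ 81 + U * ((x.D : ℝ) ^ 2 - (x.G : ℝ) ^ 2)) / 2 ^ 121 =
        (U : ℝ) * (2 ^ 81 * (x.r : ℝ) + U * ((x.D : ℝ) ^ 2 - (x.G : ℝ) ^ 2)) / 2 ^ 121 := by ring
    have e3 : (k : ℝ) * ((k : ℝ) * k) / (((3 : ℕ) : ℝ) * ((2 ^ 40 - (k : ℝ)) * 2 ^ 40)) =
        (k : ℝ) ^ 3 / (3 * 2 ^ 40 * (2 ^ 40 - (k : ℝ))) := by
      have e4 : ((3 : ℕ) : ℝ) * ((2 ^ 40 - (k : ℝ)) * 2 ^ 40) =
          3 * 2 ^ 40 * (2 ^ 40 - (k : ℝ)) := by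
        push_cast
        ring
      rw [e4]
      ring
    rw [e2] at s2
    rw [e3] at s3
    push_cast at s1 ⊢
    linarith

end Pool.Agent.helper14.QF
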