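import Pool.Agent.helper14.QF.Rep
import Pool.Agent.helper31.IA.Run

/-!
# QF-4: second order models, ring operations and comparisons

All bounds are in units `2^(-40)`: `ev (cd x.X) ε` is `2^40` times the polynomial part.
A product with floors loses at most `√2` units at each of the `21` positions, `30` units together.
-/

namespace Pool.Agent.helper14.QF

open Complex
open Pool.Agent.helper31.IA (Z Small get RealL)
open Pool.Agent.helper31.IB (fd One bz mg ofZ)

noncomputable abbrev toC : GaussianInt →+* ℂ := GaussianInt.toComplex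

/-- monomial of a position -/
noncomputable def mono (ε : List ℂ) (k : Nat) : ℂ :=
  if k = 0 then 1 else
  if k = 1 then get ε 0 else if k = 4 then get ε 1 else if k = 10 then get ε 2 else
  if k = 12 then get ε 3 else if k = 17 then get ε 4 else
  if k = 2 then get ε 0 * get ε 0 else if k = 5 then get ε 0 * get ε 1 else
  if k = 8 then get ε 1 * get ε 1 else if k = 11 then get ε 0 * get ε 2 else
  if k = 14 then get ε 1 * get ε 2 else if k = 20 then get ε 2 * get ε 2 else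
  if k = 13 then get ε 0 * get ε 3 else if k = 16 then get ε 1 * get ε 3 else
  if k = 22 then get ε 2 * get ε 3 else if k = 24 then get ε 3 * get ε 3 else
  if k = 18 then get ε 0 * get ε 4 else if k = 21 then get ε 1 * get ε 4 else
  if k = 27 then get ε 2 * get ε 4 else if k = 29 then get ε 3 * get ε 4 else
  if k = 34 then get ε 4 * get ε 4 else 0

/-- value of the polynomial with the coefficients `a` -/
noncomputable def ev (a : Nat → GaussianInt) (ε : List ℂ) : ℂ :=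
  ∑ k ∈ Finset.range 35, toC (a k) * mono ε k

/-- linear and quadratic part -/
noncomputable def evL (a : Nat → GaussianInt) (ε : List ℂ) : ℂ :=
  (PL.map fun k => toC (a k) * mono ε k).sum

noncomputable def evQ (a : Nat → GaussianInt) (ε : List ℂ) : ℂ :=
  (PQ.map fun k => toC (a k) * mono ε k).sum

theorem get_small {ε : List ℂ} (hε : Small ε) (i : Nat) : ‖get ε i‖ ≤ 1 := by
  induction ε generalizing i with
  | nil =>
    show ‖(0 : ℂ)‖ ≤ 1
    simp
  | cons a t ih =>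
    cases i with
    | zero => exact hε a (List.mem_cons_self ..)
    | succ n => exact ih (fun z hz => hε z (List.mem_cons_of_mem _ hz)) n

private theorem ite_small {p : Prop} [Decidable p] {x y : ℂ} (h1 : ‖x‖ ≤ 1) (h2 : ‖y‖ ≤ 1) :
    ‖if p then x else y‖ ≤ 1 := by
  split_ifs
  · exact h1
  · exact h2

theorem mono_small {ε : List ℂ} (hε : Small ε) (k : Nat) : ‖mono ε k‖ ≤ 1 := by
  have h : ∀ a b : Nat, ‖get ε a * get ε b‖ ≤ 1 := by
    intro a b
    rw [norm_mul]
    exact mul_le_one₀ (get_small hε a) (norm_nonneg _) (get_small hε b)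
  unfold mono
  have h1 : ‖(1 : ℂ)‖ ≤ 1 := by simp
  have h0 : ‖(0 : ℂ)‖ ≤ 1 := by simp
  refine ite_small h1 (ite_small (get_small hε _) (ite_small (get_small hε _)
    (ite_small (get_small hε _) (ite_small (get_small hε _) (ite_small (get_small hε _) ?_)))))
  refine ite_small (h _ _) (ite_small (h _ _) (ite_small (h _ _) (ite_small (h _ _)
    (ite_small (h _ _) (ite_small (h _ _) (ite_small (h _ _) (ite_small (h _ _)
    (ite_small (h _ _) (ite_small (h _ _) (ite_small (h _ _) (ite_small (h _ _)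
    (ite_small (h _ _) (ite_small (h _ _) (ite_small (h _ _) h0))))))))))))))

private theorem mem_PL {i : Nat} (hi : i ∈ PL) : i = 1 ∨ i = 4 ∨ i = 10 ∨ i = 12 ∨ i = 17 := by
  simpa [PL] using hi

/-- products of two linear monomials -/
theorem mono_add (ε : List ℂ) {i j : Nat} (hi : i ∈ PL) (hj : j ∈ PL) :
    mono ε (i + j) = mono ε i * mono ε j := by
  rcases mem_PL hi with rfl | rfl | rfl | rfl | rfl <;>
    rcases mem_PL hj with rfl | rfl | rfl | rfl | rfl <;>
    (norm_num [mono]; try ring)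

private theorem mono_zero (ε : List ℂ) : mono ε 0 = 1 := by simp [mono]

theorem ev_split (a : Nat → GaussianInt) (ε : List ℂ) :
    ev a ε = toC (a 0) + (evL a ε + evQ a ε) := by
  have hz : ∀ k, k ≠ 0 → k ∉ PL → k ∉ PQ → mono ε k = 0 := by
    intro k h0 h1 h2
    simp only [PL, PQ, List.mem_cons, List.not_mem_nil, or_false, not_or] at h1 h2
    unfold mono
    simp [h0, h1, h2]
  have e3 := hz 3 (by decide) (by decide) (by decide)
  have e6 := hz 6 (by decide) (by decide) (by decide)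
  have e7 := hz 7 (by decide) (by decide) (by decide)
  have e9 := hz 9 (by decide) (by decide) (by decide)
  have e15 := hz 15 (by decide) (by decide) (by decide)
  have e19 := hz 19 (by decide) (by decide) (by decide)
  have e23 := hz 23 (by decide) (by decide) (by decide)
  have e25 := hz 25 (by decide) (by decide) (by decide)
  have e26 := hz 26 (by decide) (by decide) (by decide)
  have e28 := hz 28 (by decide) (by decide) (by decide)
  have e30 := hz 30 (by decide) (by decide) (by decide)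
  have e31 := hz 31 (by decide) (by decide) (by decide)
  have e32 := hz 32 (by decide) (by decide) (by decide)
  have e33 := hz 33 (by decide) (by decide) (by decide)
  unfold ev evL evQ PL PQ
  simp only [Finset.sum_range_succ, Finset.sum_range_zero, List.map_cons, List.map_nil,
    List.sum_cons, List.sum_nil, e3, e6, e7, e9, e15, e19, e23, e25, e26, e28, e30, e31, e32, e33,
    mono_zero]
  ring

theorem ev_congr {a b : Nat → GaussianInt} (h : ∀ k, k < 35 → a k = b k) (ε : List ℂ) :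
    ev a ε = ev b ε := by
  unfold ev
  refine Finset.sum_congr rfl fun k hk => ?_
  rw [h k (Finset.mem_range.1 hk)]

theorem ev_add (a b : Nat → GaussianInt) (ε : List ℂ) :
    ev (fun k => a k + b k) ε = ev a ε + ev b ε := by
  unfold ev
  rw [← Finset.sum_add_distrib]
  refine Finset.sum_congr rfl fun k _ => ?_
  rw [map_add]
  ring

theorem ev_sub (a b : Nat → GaussianInt) (ε : List ℂ) :
    ev (fun k => a k - b k) ε = ev a ε - ev b ε := by
  unfold ev
  rw [← Finset.sum_sub_distrib]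
  refine Finset.sum_congr rfl fun k _ => ?_
  rw [map_sub]
  ring

theorem ev_mul (z : GaussianInt) (a : Nat → GaussianInt) (ε : List ℂ) :
    ev (fun k => z * a k) ε = toC z * ev a ε := by
  unfold ev
  rw [Finset.mul_sum]
  refine Finset.sum_congr rfl fun k _ => ?_
  rw [map_mul]
  ring

private theorem ev_list (l : List Nat) (F : Nat → Nat → GaussianInt) (ε : List ℂ) :
    ev (fun k => (l.map fun i => F i k).sum) ε = (l.map fun i => ev (F i) ε).sum := by
  induction l with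
  | nil => simp [ev]
  | cons i l ih =>
    simp only [List.map_cons, List.sum_cons]
    rw [ev_add, ih]

private theorem ev_single (z : GaussianInt) {p : Nat} (hp : p < 35) (ε : List ℂ) :
    ev (fun k => if p = k then z else 0) ε = toC z * mono ε p := by
  unfold ev
  rw [Finset.sum_eq_single p]
  · simp only [if_true]
  · intro k _ hk
    simp only [if_neg (Ne.symm hk), map_zero, zero_mul]
  · intro h
    exact absurd (Finset.mem_range.2 hp) h

private theorem PL_lt17 {i : Nat} (hi : i ∈ PL) : 1 ≤ i ∧ i ≤ 17 := by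
  rcases mem_PL hi with rfl | rfl | rfl | rfl | rfl <;> decide

theorem ev_LL (a b : Nat → GaussianInt) (ε : List ℂ) : ev (LL a b) ε = evL a ε * evL b ε := by
  have e : ev (LL a b) ε = (PL.map fun i => (PL.map fun j =>
      ev (fun k => if i + j = k then a i * b j else 0) ε).sum).sum := by
    unfold LL
    rw [ev_list]
    congr 1
    apply List.map_congr_left
    intro i _
    rw [ev_list]
  have e2 : evL a ε * evL b ε = (PL.map fun i => (PL.map fun j =>
      (toC (a i) * mono ε i) * (toC (b j) * mono ε j)).sum).sum := by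
    unfold evL
    rw [← List.sum_map_mul_right]
    congr 1
    apply List.map_congr_left
    intro i _
    rw [List.sum_map_mul_left]
  rw [e, e2]
  congr 1
  apply List.map_congr_left
  intro i hi
  congr 1
  apply List.map_congr_left
  intro j hj
  have h1 := PL_lt17 hi
  have h2 := PL_lt17 hj
  rw [ev_single _ (by omega), mono_add ε hi hj, map_mul]
  ring

/-- floors -/
def fl (s : Nat) (a : Nat → GaussianInt) (k : Nat) : GaussianInt :=
  ⟨(a k).re / 2 ^ s, (a k).im / 2 ^ s⟩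

private theorem norm_toC_sq (z : GaussianInt) : ‖toC z‖ ^ 2 = (z.re : ℝ) ^ 2 + (z.im : ℝ) ^ 2 := by
  rw [← Complex.normSq_eq_norm_sq, Complex.normSq_apply, GaussianInt.intCast_re,
    GaussianInt.intCast_im]
  ring

private theorem floor_err (x : ℤ) (s : Nat) : |((x / 2 ^ s : ℤ) : ℝ) - (x : ℝ) / 2 ^ s| ≤ 1 := by
  have h1 : (0 : ℤ) < 2 ^ s := by positivity
  have h2 := Int.mul_ediv_add_emod x (2 ^ s)
  have h3 := Int.emod_nonneg x (ne_of_gt h1)
  have h4 := Int.emod_lt_of_pos x h1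
  have h5 : (x : ℝ) = (2 : ℝ) ^ s * ((x / 2 ^ s : ℤ) : ℝ) + ((x % 2 ^ s : ℤ) : ℝ) := by
    exact_mod_cast h2.symm
  have h6 : (0 : ℝ) ≤ ((x % 2 ^ s : ℤ) : ℝ) := by exact_mod_cast h3
  have h7 : ((x % 2 ^ s : ℤ) : ℝ) ≤ 2 ^ s := by exact_mod_cast h4.le
  have h8 : (0 : ℝ) < 2 ^ s := by positivity
  have e : ((x / 2 ^ s : ℤ) : ℝ) - (x : ℝ) / 2 ^ s = -(((x % 2 ^ s : ℤ) : ℝ) / 2 ^ s) := by
    conv_lhs => rw [h5]
    field_simp
    ring
  rw [e, abs_neg, abs_of_nonneg (by positivity), div_le_one h8]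
  exact h7

private theorem fl_err (s : Nat) (a : Nat → GaussianInt) (k : Nat) :
    ‖toC (fl s a k) - toC (a k) / 2 ^ s‖ ≤ 71 / 50 := by
  have h1 := floor_err (a k).re s
  have h2 := floor_err (a k).im s
  have e : ‖toC (fl s a k) - toC (a k) / 2 ^ s‖ ^ 2 =
      ((((a k).re / 2 ^ s : ℤ) : ℝ) - ((a k).re : ℝ) / 2 ^ s) ^ 2 +
      ((((a k).im / 2 ^ s : ℤ) : ℝ) - ((a k).im : ℝ) / 2 ^ s) ^ 2 := by
    have e1 : (toC (fl s a k) - toC (a k) / 2 ^ s).re =
        ((((a k).re / 2 ^ s : ℤ) : ℝ) - ((a k).re : ℝ) / 2 ^ s) := by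
      have h : (2 : ℂ) ^ s = ((2 ^ s : ℝ) : ℂ) := by push_cast; rfl
      rw [Complex.sub_re, h, Complex.div_ofReal_re, ← GaussianInt.intCast_re,
        ← GaussianInt.intCast_re]
      rfl
    have e2 : (toC (fl s a k) - toC (a k) / 2 ^ s).im =
        ((((a k).im / 2 ^ s : ℤ) : ℝ) - ((a k).im : ℝ) / 2 ^ s) := by
      have h : (2 : ℂ) ^ s = ((2 ^ s : ℝ) : ℂ) := by push_cast; rfl
      rw [Complex.sub_im, h, Complex.div_ofReal_im, ← GaussianInt.intCast_im,
        ← GaussianInt.intCast_im]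
      rfl
    rw [← Complex.normSq_eq_norm_sq, Complex.normSq_apply, e1, e2]
    ring
  have h3 := (sq_le_one_iff_abs_le_one _).2 h1
  have h4 := (sq_le_one_iff_abs_le_one _).2 h2
  apply le_of_sq_le_sq _ (by norm_num)
  rw [e]
  linarith


private theorem term_err {ε : List ℂ} (hε : Small ε) (s : Nat) (a : Nat → GaussianInt) (k : Nat) :
    ‖toC (fl s a k) * mono ε k - toC (a k) * mono ε k / 2 ^ s‖ ≤ 71 / 50 := by
  have e : toC (fl s a k) * mono ε k - toC (a k) * mono ε k / 2 ^ s =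
      (toC (fl s a k) - toC (a k) / 2 ^ s) * mono ε k := by ring
  rw [e, norm_mul]
  exact (mul_le_of_le_one_right (norm_nonneg _) (mono_small hε k)).trans (fl_err s a k)

private theorem list_err {ε : List ℂ} (hε : Small ε) (s : Nat) (a : Nat → GaussianInt)
    (l : List Nat) :
    ‖(l.map fun k => toC (fl s a k) * mono ε k).sum -
      (l.map fun k => toC (a k) * mono ε k).sum / 2 ^ s‖ ≤ (l.length : ℝ) * (71 / 50) := by
  induction l with
  | nil => simp
  | cons k l ih =>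
    simp only [List.map_cons, List.sum_cons, List.length_cons]
    have e : toC (fl s a k) * mono ε k + (l.map fun k => toC (fl s a k) * mono ε k).sum -
        (toC (a k) * mono ε k + (l.map fun k => toC (a k) * mono ε k).sum) / 2 ^ s =
        (toC (fl s a k) * mono ε k - toC (a k) * mono ε k / 2 ^ s) +
        ((l.map fun k => toC (fl s a k) * mono ε k).sum -
          (l.map fun k => toC (a k) * mono ε k).sum / 2 ^ s) := by ring
    rw [e]
    refine (norm_add_le _ _).trans ?_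
    have h1 := term_err hε s a k
    push_cast
    linarith

theorem ev_fl {ε : List ℂ} (hε : Small ε) (s : Nat) (a : Nat → GaussianInt) :
    ‖ev (fl s a) ε - ev a ε / 2 ^ s‖ ≤ 30 := by
  rw [ev_split, ev_split]
  have h0 := fl_err s a 0
  have h1 := list_err hε s a PL
  have h2 := list_err hε s a PQ
  have l1 : (PL.length : ℝ) = 5 := by simp [PL]
  have l2 : (PQ.length : ℝ) = 15 := by simp [PQ]
  rw [l1] at h1
  rw [l2] at h2
  have e : toC (fl s a 0) + (evL (fl s a) ε + evQ (fl s a) ε) -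
      (toC (a 0) + (evL a ε + evQ a ε)) / 2 ^ s =
      (toC (fl s a 0) - toC (a 0) / 2 ^ s) + ((evL (fl s a) ε - evL a ε / 2 ^ s) +
        (evQ (fl s a) ε - evQ a ε / 2 ^ s)) := by ring
  rw [e]
  have n1 := norm_add_le (toC (fl s a 0) - toC (a 0) / 2 ^ s) ((evL (fl s a) ε - evL a ε / 2 ^ s) +
        (evQ (fl s a) ε - evQ a ε / 2 ^ s))
  have n2 := norm_add_le (evL (fl s a) ε - evL a ε / 2 ^ s) (evQ (fl s a) ε - evQ a ε / 2 ^ s)
  change ‖evL (fl s a) ε - evL a ε / 2 ^ s‖ ≤ _ at h1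
  change ‖evQ (fl s a) ε - evQ a ε / 2 ^ s‖ ≤ _ at h2
  linarith

/-- the linear part alone: five positions -/
theorem evL_fl {ε : List ℂ} (hε : Small ε) (s : Nat) (a : Nat → GaussianInt) :
    ‖evL (fl s a) ε - evL a ε / 2 ^ s‖ ≤ 8 := by
  have h1 := list_err hε s a PL
  have l1 : (PL.length : ℝ) = 5 := by simp [PL]
  rw [l1] at h1
  change ‖evL (fl s a) ε - evL a ε / 2 ^ s‖ ≤ _ at h1
  linarith

structure MemC (ε : List ℂ) (x : A) (z : ℂ) : Prop where
  good : Good x.X
  cenb : ‖toC (cd x.X 0)‖ ≤ (x.m : ℝ)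
  linb : (PL.map fun k => ‖toC (cd x.X k)‖).sum ≤ (x.G : ℝ)
  dev : (x.G : ℝ) + (PQ.map fun k => ‖toC (cd x.X k)‖).sum + x.r ≤ (x.D : ℝ)
  mem : ‖z * 2 ^ 40 - ev (cd x.X) ε‖ ≤ (x.r : ℝ)

def Mem (ε : List ℂ) (x : A) (z : ℂ) : Prop := x.ok = true → MemC ε x z

private theorem norm_list {ε : List ℂ} (hε : Small ε) (a : Nat → GaussianInt) (l : List Nat) :
    ‖(l.map fun k => toC (a k) * mono ε k).sum‖ ≤ (l.map fun k => ‖toC (a k)‖).sum := by
  induction l with
  | nil => simp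
  | cons k l ih =>
    simp only [List.map_cons, List.sum_cons]
    refine (norm_add_le _ _).trans (add_le_add ?_ ih)
    rw [norm_mul]
    exact mul_le_of_le_one_right (norm_nonneg _) (mono_small hε k)

private theorem sum_norm_nonneg (a : Nat → GaussianInt) (l : List Nat) :
    0 ≤ (l.map fun k => ‖toC (a k)‖).sum := by
  apply List.sum_nonneg
  intro x hx
  obtain ⟨k, -, rfl⟩ := List.mem_map.1 hx
  exact norm_nonneg _

/-- `2^40 z = c + (lin + κ)`, `κ = quad + ρ` -/
theorem MemC.split {ε : List ℂ} (hε : Small ε) {x : A} {z : ℂ} (h : MemC ε x z) :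
    ∃ ρ : ℂ, z * 2 ^ 40 = toC (cd x.X 0) + (evL (cd x.X) ε + (evQ (cd x.X) ε + ρ)) ∧
      ‖ρ‖ ≤ (x.r : ℝ) ∧ ‖evL (cd x.X) ε‖ ≤ (x.G : ℝ) ∧
      ‖evQ (cd x.X) ε + ρ‖ ≤ (x.D : ℝ) - x.G ∧ (x.G : ℝ) ≤ x.D := by
  have h1 := norm_list hε (cd x.X) PL
  have h2 := norm_list hε (cd x.X) PQ
  change ‖evL (cd x.X) ε‖ ≤ _ at h1
  change ‖evQ (cd x.X) ε‖ ≤ _ at h2
  have h3 := h.dev
  have h4 := h.mem
  have h5 := h.linb
  have h6 := sum_norm_nonneg (cd x.X) PQ
  have h7 : (0 : ℝ) ≤ x.r := Nat.cast_nonneg _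
  refine ⟨z * 2 ^ 40 - ev (cd x.X) ε, ?_, h4, h1.trans h5, ?_, ?_⟩
  · rw [ev_split]
    ring
  · have n1 := norm_add_le (evQ (cd x.X) ε) (z * 2 ^ 40 - ev (cd x.X) ε)
    linarith
  · linarith

private theorem norm_cd (X k : Nat) :
    ‖toC (cd X k)‖ = Real.sqrt ((sd X k : ℝ) ^ 2 + (sd X (k + 35) : ℝ) ^ 2) := by
  rw [← Real.sqrt_sq (norm_nonneg (toC (cd X k))), norm_toC_sq]
  rfl

private theorem norm_cd_le {X : Nat} (hX : Good X) {k : Nat} (hk : k < 35) :
    ‖toC (cd X k)‖ ≤ (dg (magX X) k : ℝ) + 3 := by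
  rw [norm_cd]
  exact ((magX_spec hX k).1 hk).2

private theorem norm_cd_list {X : Nat} (hX : Good X) (l : List Nat) (hl : ∀ i ∈ l, i < 35) :
    (l.map fun k => ‖toC (cd X k)‖).sum ≤ (((l.map (dg (magX X))).sum : Nat) : ℝ) +
      3 * (l.length : ℝ) := by
  induction l with
  | nil => simp
  | cons k l ih =>
    simp only [List.map_cons, List.sum_cons, List.length_cons]
    have h1 := norm_cd_le hX (hl k (List.mem_cons_self ..))
    have h2 := ih fun i hi => hl i (List.mem_cons_of_mem _ hi)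
    push_cast
    push_cast at h2
    linarith

private theorem PL_nodup : PL.Nodup := by decide
private theorem PQ_nodup : PQ.Nodup := by decide
private theorem PL_lt35 : ∀ i ∈ PL, i < 35 := by decide
private theorem PQ_lt35 : ∀ i ∈ PQ, i < 35 := by decide

private theorem full_eq : full = 2 ^ 116 - 1 := rfl

private theorem land_full_dg (y : Nat) : Nat.land y full = dg y 0 := by
  rw [full_eq, land_mask, dg_zero]

private theorem mdl_X (X r : Nat) (b : Bool) : (mdl X r b).X = X := rfl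
private theorem mdl_m (X r : Nat) (b : Bool) :
    (mdl X r b).m = Nat.add (Nat.land (magX X) full) 3 := rfl
private theorem mdl_G (X r : Nat) (b : Bool) :
    (mdl X r b).G = Nat.add (Nat.mod (Nat.land (magX X) mLM) full) 15 := rfl
private theorem mdl_D (X r : Nat) (b : Bool) :
    (mdl X r b).D = Nat.add (Nat.add (Nat.add (Nat.mod (Nat.land (magX X) mLM) full) 15)
      (Nat.add (Nat.mod (Nat.land (magX X) mQM) full) 45)) r := rfl
private theorem mdl_r (X r : Nat) (b : Bool) : (mdl X r b).r = r := rfl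
private theorem mdl_okk (X r : Nat) (b : Bool) :
    (mdl X r b).ok = (b && Nat.ble r 9007199254740992) := rfl

theorem mU_ok {U r : Nat} {b : Bool} (h : (mU U r b).ok = true) : b = true ∧ okU U = true := by
  unfold mU at h
  rw [mdl_okk, Bool.and_eq_true, Bool.and_eq_true] at h
  exact h.1

/-- the constructor: the range of the digits is checked (`okU_spec`), `m`, `G`, `D` are computed
(`magX_spec`, `mask_sum`) -/
theorem mem_mU {ε : List ℂ} {U r : Nat} {b : Bool} {z : ℂ} {a : Nat → GaussianInt}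
    (h : b = true → okU U = true → St (cut U) a ∧ ‖z * 2 ^ 40 - ev a ε‖ ≤ (r : ℝ)) :
    Mem ε (mU U r b) z := by
  intro hok
  obtain ⟨hb, hU⟩ := mU_ok hok
  obtain ⟨hst, hz⟩ := h hb hU
  have hg := hst.good
  have hL := mask_sum (y := magX (cut U)) (M := mLM) (l := PL) PL_nodup PL_lt35 dg_mLM
    (fun i hi => ((magX_spec hg i).1 (PL_lt35 i hi)).1)
  have hQ := mask_sum (y := magX (cut U)) (M := mQM) (l := PQ) PQ_nodup PQ_lt35 dg_mQM
    (fun i hi => ((magX_spec hg i).1 (PQ_lt35 i hi)).1)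
  have nL := norm_cd_list hg PL PL_lt35
  have nQ := norm_cd_list hg PQ PQ_lt35
  have l1 : (PL.length : ℝ) = 5 := by simp [PL]
  have l2 : (PQ.length : ℝ) = 15 := by simp [PQ]
  rw [l1] at nL
  rw [l2] at nQ
  unfold mU
  refine ⟨?_, ?_, ?_, ?_, ?_⟩
  · rw [mdl_X]
    exact hg
  · rw [mdl_X, mdl_m, land_full_dg, Nat.add_eq]
    have h1 := norm_cd_le hg (k := 0) (by norm_num)
    push_cast
    exact h1
  · rw [mdl_X, mdl_G, hL, Nat.add_eq]
    push_cast
    push_cast at nL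
    linarith
  · rw [mdl_X, mdl_G, mdl_D, mdl_r, hL, hQ]
    simp only [Nat.add_eq]
    push_cast
    push_cast at nL nQ
    linarith
  · rw [mdl_X, mdl_r, ev_congr hst.eq]
    exact hz


private theorem bz_val {c : Nat} : bz c 0 * 2 ^ 40 = toC (zd c) := by
  rw [bz_zd]
  have h : (2 : ℂ) ^ 40 ≠ 0 := by norm_num
  exact div_mul_cancel₀ _ h

private theorem ofZ_spec {z : Z} (h : Nat.ble (Nat.add (Nat.add z.a z.b) (Nat.add z.c z.d))
    4503599627370496 = true) : One (2 ^ 53) (ofZ z) ∧ bz (ofZ z) 0 = z.val := by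
  have h1 : z.a + z.b + (z.c + z.d) ≤ 4503599627370496 := Nat.le_of_ble_eq_true h
  have h2 := Pool.Agent.helper31.IB.pack_spec (n := 2 ^ 53) (a := z.a) (b := z.b) (c := z.c)
    (d := z.d) (by norm_num) (by omega) (by omega) (by omega) (by omega)
  have h3 := Pool.Agent.helper31.IB.one_nrm (by norm_num) h2.1
  exact ⟨h3.1, h3.2.trans h2.2.1⟩

private theorem ofZ_zd {z : Z} (h : Nat.ble (Nat.add (Nat.add z.a z.b) (Nat.add z.c z.d))
    4503599627370496 = true) : toC (zd (ofZ z)) = z.val * 2 ^ 40 := by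
  rw [← bz_val, (ofZ_spec h).2]

private theorem ev_cen (z : GaussianInt) (ε : List ℂ) :
    ev (fun k => if k = 0 then z else 0) ε = toC z := by
  have h := ev_single z (p := 0) (by norm_num) ε
  rw [mono_zero, mul_one] at h
  rw [← h]
  refine ev_congr (fun k _ => ?_) ε
  by_cases h0 : k = 0
  · rw [if_pos h0, if_pos h0.symm]
  · rw [if_neg h0, if_neg (Ne.symm h0)]

theorem Mem.const (ε : List ℂ) (z : Z) : Mem ε (A.const z) z.val := by
  unfold A.const
  refine mem_mU (a := fun k => if k = 0 then zd (ofZ z) else 0) fun hb hU => ?_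
  obtain ⟨h1, h2⟩ := ofZ_spec hb
  have h3 := toF_spec (n := 2 ^ 53) (by norm_num) h1
  have h4 := zd_bound h1
  refine ⟨const_spec h3 ?_ hU, ?_⟩
  · constructor
    · refine h4.1.le.trans ?_
      norm_num
    · refine h4.2.le.trans ?_
      norm_num
  · rw [ev_cen, ofZ_zd hb, sub_self, norm_zero]
    norm_num

private theorem cd_eq {X k : Nat} {z : GaussianInt} (h1 : sd X k = z.re)
    (h2 : sd X (k + 35) = z.im) : cd X k = z := by
  unfold cd
  rw [h1, h2]

private theorem cd_re (X k : Nat) : (cd X k).re = sd X k := rfl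
private theorem cd_im (X k : Nat) : (cd X k).im = sd X (k + 35) := rfl

theorem Mem.add {ε : List ℂ} {x y : A} {u v : ℂ} (hx : Mem ε x u) (hy : Mem ε y v) :
    Mem ε (x.add y) (u + v) := by
  unfold A.add
  refine mem_mU (a := fun k => cd x.X k + cd y.X k) fun hb hU => ?_
  rw [Bool.and_eq_true] at hb
  have hx' := hx hb.1
  have hy' := hy hb.2
  have h := okU_spec (add_spec hx'.good hy'.good) hU
  refine ⟨⟨h.1, fun k hk => cd_eq ?_ ?_⟩, ?_⟩
  · rw [h.2 k (by omega), Zsqrtd.re_add, cd_re, cd_re]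
  · rw [h.2 (k + 35) (by omega), Zsqrtd.im_add, cd_im, cd_im]
  · rw [ev_add, Nat.add_eq]
    have e : (u + v) * 2 ^ 40 - (ev (cd x.X) ε + ev (cd y.X) ε) =
        (u * 2 ^ 40 - ev (cd x.X) ε) + (v * 2 ^ 40 - ev (cd y.X) ε) := by ring
    rw [e]
    push_cast
    exact (norm_add_le _ _).trans (add_le_add hx'.mem hy'.mem)

theorem Mem.sub {ε : List ℂ} {x y : A} {u v : ℂ} (hx : Mem ε x u) (hy : Mem ε y v) :
    Mem ε (x.sub y) (u - v) := by
  unfold A.sub
  refine mem_mU (a := fun k => cd x.X k - cd y.X k) fun hb hU => ?_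
  rw [Bool.and_eq_true] at hb
  have hx' := hx hb.1
  have hy' := hy hb.2
  have h := okU_spec (sub_spec hx'.good hy'.good) hU
  refine ⟨⟨h.1, fun k hk => cd_eq ?_ ?_⟩, ?_⟩
  · rw [h.2 k (by omega), Zsqrtd.re_sub, cd_re, cd_re]
  · rw [h.2 (k + 35) (by omega), Zsqrtd.im_sub, cd_im, cd_im]
  · rw [ev_sub, Nat.add_eq]
    have e : (u - v) * 2 ^ 40 - (ev (cd x.X) ε - ev (cd y.X) ε) =
        (u * 2 ^ 40 - ev (cd x.X) ε) - (v * 2 ^ 40 - ev (cd y.X) ε) := by ring
    rw [e]
    push_cast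
    exact (norm_sub_le _ _).trans (add_le_add hx'.mem hy'.mem)

theorem Mem.neg {ε : List ℂ} {x : A} {u : ℂ} (hx : Mem ε x u) : Mem ε x.neg (-u) := by
  unfold A.neg
  refine mem_mU (a := fun k => (-1) * cd x.X k) fun hb hU => ?_
  have hx' := hx hb
  have h := okU_spec (neg_spec hx'.good) hU
  refine ⟨⟨h.1, fun k hk => cd_eq ?_ ?_⟩, ?_⟩
  · rw [h.2 k (by omega), neg_one_mul, Zsqrtd.re_neg, cd_re]
  · rw [h.2 (k + 35) (by omega), neg_one_mul, Zsqrtd.im_neg, cd_im]
  · rw [ev_mul, map_neg, map_one]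
    have e : -u * 2 ^ 40 - -1 * ev (cd x.X) ε = -(u * 2 ^ 40 - ev (cd x.X) ε) := by ring
    rw [e, norm_neg]
    exact hx'.mem

/-! ### products -/

/-- digits of a product -/
def mulc (a b : Nat → GaussianInt) (k : Nat) : GaussianInt :=
  if k = 0 then a 0 * b 0 else a 0 * b k + b 0 * a k + LL a b k

/-- `P` of `A.mul` -/
def mulP (X Y : Nat) : Nat :=
  let a := Nat.land X mA
  let b := Nat.land Y mA
  Nat.add (Nat.mul (Nat.add a kA) (Nat.add b kA))
    (Nat.add (Nat.mul (Nat.add (Nat.land a mC) kC) (Nat.add (Nat.sub Y b) kQ))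
      (Nat.mul (Nat.add (Nat.land b mC) kC) (Nat.add (Nat.sub X a) kQ)))

private theorem LL_zero (a b : Nat → GaussianInt) : LL a b 0 = 0 := by
  unfold LL
  apply List.sum_eq_zero
  intro x hx
  obtain ⟨i, hi, rfl⟩ := List.mem_map.1 hx
  apply List.sum_eq_zero
  intro y hy
  obtain ⟨j, hj, rfl⟩ := List.mem_map.1 hy
  have h1 := PL_lt17 hi
  rw [if_neg (by omega)]

/-- splitting of `mulc` into four sums -/
private theorem mulc_eq (a b : Nat → GaussianInt) (k : Nat) : mulc a b k =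
    (((if k = 0 then a 0 * b 0 else 0) + a 0 * (if k = 0 then 0 else b k)) +
      b 0 * (if k = 0 then 0 else a k)) + LL a b k := by
  unfold mulc
  by_cases h : k = 0
  · rw [if_pos h, if_pos h, if_pos h, if_pos h, h, LL_zero]
    ring
  · rw [if_neg h, if_neg h, if_neg h, if_neg h]
    ring

private theorem dev_eq (a : Nat → GaussianInt) (k : Nat) : (if k = 0 then 0 else a k) =
    lin a k + (if k = 0 ∨ k ∈ PL then 0 else a k) := by
  unfold lin
  by_cases h : k = 0
  · rw [if_pos h, if_neg, if_pos (Or.inl h), add_zero]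
    rw [h]
    decide
  · rw [if_neg h]
    by_cases h2 : k ∈ PL
    · rw [if_pos h2, if_pos (Or.inr h2), add_zero]
    · rw [if_neg h2, if_neg (not_or.2 ⟨h, h2⟩), zero_add]

private theorem V_devv (a : Nat → GaussianInt) : V (fun k => if k = 0 then 0 else a k) =
    V (lin a) + V (fun k => if k = 0 ∨ k ∈ PL then 0 else a k) := by
  rw [← V_add]
  exact V_congr fun k _ => dev_eq a k

private theorem V_aff (a : Nat → GaussianInt) : V (fun k => if k = 0 ∨ k ∈ PL then a k else 0) =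
    phi (a 0) + V (lin a) := by
  rw [← V_cen, ← V_add]
  refine V_congr fun k _ => ?_
  unfold lin
  by_cases h : k = 0
  · have h2 : (0 : Nat) ∉ PL := by decide
    rw [h, if_pos (Or.inl rfl), if_pos rfl, if_neg h2, add_zero]
  · rw [if_neg h, zero_add]
    by_cases h2 : k ∈ PL
    · rw [if_pos h2, if_pos (Or.inr h2)]
    · rw [if_neg h2, if_neg (not_or.2 ⟨h, h2⟩)]

private theorem V_mulc (a b : Nat → GaussianInt) : V (mulc a b) =
    (phi (a 0) + V (lin a)) * (phi (b 0) + V (lin b)) +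
      (phi (a 0) * V (fun k => if k = 0 ∨ k ∈ PL then 0 else b k) +
        phi (b 0) * V (fun k => if k = 0 ∨ k ∈ PL then 0 else a k)) := by
  have e : V (mulc a b) = ((phi (a 0 * b 0) + phi (a 0) * V (fun k => if k = 0 then 0 else b k)) +
      phi (b 0) * V (fun k => if k = 0 then 0 else a k)) + V (LL a b) := by
    rw [← V_cen, ← V_mul, ← V_mul, ← V_add, ← V_add, ← V_add]
    exact V_congr fun k _ => mulc_eq a b k
  rw [e, V_devv, V_devv, ← V_lin_mul, map_mul]
  ring

private theorem ev_dev (a : Nat → GaussianInt) (ε : List ℂ) :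
    ev (fun k => if k = 0 then 0 else a k) ε = ev a ε - toC (a 0) := by
  have h : ev a ε = toC (a 0) + ev (fun k => if k = 0 then 0 else a k) ε := by
    rw [← ev_cen, ← ev_add]
    refine ev_congr (fun k _ => ?_) ε
    by_cases h : k = 0
    · rw [if_pos h, if_pos h, h, add_zero]
    · rw [if_neg h, if_neg h, zero_add]
  rw [h]
  ring

theorem ev_mulc (a b : Nat → GaussianInt) (ε : List ℂ) :
    ev (mulc a b) ε = toC (a 0) * ev b ε + toC (b 0) * (ev a ε - toC (a 0)) +
      evL a ε * evL b ε := by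
  have e : ev (mulc a b) ε = ((toC (a 0 * b 0) +
      toC (a 0) * ev (fun k => if k = 0 then 0 else b k) ε) +
      toC (b 0) * ev (fun k => if k = 0 then 0 else a k) ε) + ev (LL a b) ε := by
    rw [← ev_cen, ← ev_mul, ← ev_mul, ← ev_add, ← ev_add, ← ev_add]
    exact ev_congr (fun k _ => mulc_eq a b k) ε
  rw [e, ev_dev, ev_dev, ev_LL, map_mul]
  ring

private theorem mul_small {z w : GaussianInt} (hz : |z.re| ≤ 2 ^ 53 ∧ |z.im| ≤ 2 ^ 53)
    (hw : |w.re| ≤ 2 ^ 53 ∧ |w.im| ≤ 2 ^ 53) :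
    |(z * w).re| ≤ 2 ^ 107 ∧ |(z * w).im| ≤ 2 ^ 107 := by
  have m : ∀ s t : ℤ, |s| ≤ 2 ^ 53 → |t| ≤ 2 ^ 53 → |s * t| ≤ 2 ^ 106 := by
    intro s t hs ht
    rw [abs_mul]
    refine (mul_le_mul hs ht (abs_nonneg _) (by positivity)).trans (le_of_eq (by norm_num))
  have h1 := abs_le.1 (m _ _ hz.1 hw.1)
  have h2 := abs_le.1 (m _ _ hz.2 hw.2)
  have h3 := abs_le.1 (m _ _ hz.1 hw.2)
  have h4 := abs_le.1 (m _ _ hz.2 hw.1)
  have e : (2 : ℤ) ^ 107 = 2 ^ 106 + 2 ^ 106 := by norm_num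
  constructor
  · rw [Zsqrtd.re_mul, abs_le, e]
    constructor <;> linarith [h1.1, h1.2, h2.1, h2.2]
  · rw [Zsqrtd.im_mul, abs_le, e]
    constructor <;> linarith [h3.1, h3.2, h4.1, h4.2]

private theorem cd_bound {X : Nat} (hX : Good X) (k : Nat) :
    |(cd X k).re| ≤ 2 ^ 53 ∧ |(cd X k).im| ≤ 2 ^ 53 := by
  rw [cd_re, cd_im, abs_le, abs_le]
  have h1 := sd_bound hX k
  have h2 := sd_bound hX (k + 35)
  exact ⟨⟨h1.1, h1.2.le⟩, ⟨h2.1, h2.2.le⟩⟩

theorem mulP_spec {X Y : Nat} (hX : Good X) (hY : Good Y) :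
    ((mulP X Y : ℕ) : ZMod NN) = V (mulc (cd X) (cd Y)) ∧
      ∀ k, |(mulc (cd X) (cd Y) k).re| ≤ 2 ^ 110 ∧ |(mulc (cd X) (cd Y) k).im| ≤ 2 ^ 110 := by
  constructor
  · have e : mulP X Y = (Nat.add (Nat.land X mA) kA) * (Nat.add (Nat.land Y mA) kA) +
        ((Nat.add (Nat.land (Nat.land X mA) mC) kC) * (Nat.add (Nat.sub Y (Nat.land Y mA)) kQ) +
        (Nat.add (Nat.land (Nat.land Y mA) mC) kC) * (Nat.add (Nat.sub X (Nat.land X mA)) kQ)) := by
      unfold mulP
      simp only [Nat.mul_eq]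
      rfl
    rw [e, Nat.cast_add, Nat.cast_add, Nat.cast_mul, Nat.cast_mul, Nat.cast_mul, val_A hX, val_A hY,
      val_C hX, val_C hY, val_Q hX, val_Q hY, V_mulc, V_aff, V_aff]
  · intro k
    have h1 := mul_small (cd_bound hX 0) (cd_bound hY 0)
    have h2 := mul_small (cd_bound hX 0) (cd_bound hY k)
    have h3 := mul_small (cd_bound hY 0) (cd_bound hX k)
    have h4 := LL_bound (a := cd X) (b := cd Y) (m := 2 ^ 53) (n := 2 ^ 53) (by positivity)
      (by positivity) (fun i _ => cd_bound hX i) (fun i _ => cd_bound hY i) k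
    have e1 : (4 : ℤ) * (2 ^ 53 * 2 ^ 53) = 2 ^ 108 := by norm_num
    have e2 : (2 : ℤ) ^ 110 = 2 ^ 107 + 2 ^ 107 + 2 ^ 108 + 2 ^ 109 := by norm_num
    have e3 : (0 : ℤ) < 2 ^ 107 := by positivity
    have e4 : (0 : ℤ) < 2 ^ 108 := by positivity
    have e5 : (0 : ℤ) < 2 ^ 109 := by positivity
    rw [e1] at h4
    unfold mulc
    rw [e2]
    by_cases h : k = 0
    · rw [if_pos h]
      constructor
      · linarith [h1.1]
      · linarith [h1.2]
    · rw [if_neg h]
      simp only [Zsqrtd.re_add, Zsqrtd.im_add]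
      constructor
      · have n1 := abs_add_le ((cd X 0 * cd Y k).re + (cd Y 0 * cd X k).re) (LL (cd X) (cd Y) k).re
        have n2 := abs_add_le (cd X 0 * cd Y k).re (cd Y 0 * cd X k).re
        linarith [h2.1, h3.1, h4.1]
      · have n1 := abs_add_le ((cd X 0 * cd Y k).im + (cd Y 0 * cd X k).im) (LL (cd X) (cd Y) k).im
        have n2 := abs_add_le (cd X 0 * cd Y k).im (cd Y 0 * cd X k).im
        linarith [h2.2, h3.2, h4.2]


private theorem shr40 (N : Nat) : (N : ℝ) / 2 ^ 40 ≤ ((Nat.shiftRight N 40 : Nat) : ℝ) + 1 := by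
  have h1 : Nat.shiftRight N 40 = N / 2 ^ 40 := Nat.shiftRight_eq_div_pow N 40
  rw [h1, div_le_iff₀ (by positivity)]
  have h2 : N < (N / 2 ^ 40 + 1) * 2 ^ 40 := by
    have h3 := Nat.div_add_mod N (2 ^ 40)
    have h4 := Nat.mod_lt N (show 0 < 2 ^ 40 by norm_num)
    omega
  have h3 : (N : ℝ) < ((N / 2 ^ 40 + 1) * 2 ^ 40 : Nat) := by exact_mod_cast h2
  push_cast at h3 ⊢
  linarith

/-- the estimate in `Mem.mul` -/
private theorem mul_core {u v c1 c2 L1 L2 K1 K2 ρ1 ρ2 e : ℂ} {m1 m2 r1 r2 D1 D2 G1 G2 : ℝ}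
    (hu : u * 2 ^ 40 = c1 + (L1 + (K1 + ρ1))) (hv : v * 2 ^ 40 = c2 + (L2 + (K2 + ρ2)))
    (hρ1 : ‖ρ1‖ ≤ r1) (hρ2 : ‖ρ2‖ ≤ r2) (hl1 : ‖L1‖ ≤ G1) (hl2 : ‖L2‖ ≤ G2)
    (hk1 : ‖K1 + ρ1‖ ≤ D1 - G1) (hk2 : ‖K2 + ρ2‖ ≤ D2 - G2)
    (hm1 : ‖c1‖ ≤ m1) (hm2 : ‖c2‖ ≤ m2)
    (he : ‖e - (c1 * (c2 + (L2 + K2)) + c2 * (c1 + (L1 + K1) - c1) + L1 * L2) / 2 ^ 40‖ ≤ 30) :
    ‖u * v * 2 ^ 40 - e‖ ≤ (m1 * r2 + m2 * r1 + (D1 * D2 - G1 * G2)) / 2 ^ 40 + 30 := by
  have g1 : 0 ≤ G1 := (norm_nonneg _).trans hl1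
  have g2 : 0 ≤ G2 := (norm_nonneg _).trans hl2
  have q1 : 0 ≤ D1 - G1 := (norm_nonneg _).trans hk1
  have q2 : 0 ≤ D2 - G2 := (norm_nonneg _).trans hk2
  have s1 : 0 ≤ m1 := (norm_nonneg _).trans hm1
  have s2 : 0 ≤ m2 := (norm_nonneg _).trans hm2
  have p1 : ‖c1 * ρ2‖ ≤ m1 * r2 := by
    rw [norm_mul]
    exact mul_le_mul hm1 hρ2 (norm_nonneg _) s1
  have p2 : ‖c2 * ρ1‖ ≤ m2 * r1 := by
    rw [norm_mul]
    exact mul_le_mul hm2 hρ1 (norm_nonneg _) s2
  have p3 : ‖L1 * (K2 + ρ2)‖ ≤ G1 * (D2 - G2) := by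
    rw [norm_mul]
    exact mul_le_mul hl1 hk2 (norm_nonneg _) g1
  have p4 : ‖(K1 + ρ1) * L2‖ ≤ (D1 - G1) * G2 := by
    rw [norm_mul]
    exact mul_le_mul hk1 hl2 (norm_nonneg _) q1
  have p5 : ‖(K1 + ρ1) * (K2 + ρ2)‖ ≤ (D1 - G1) * (D2 - G2) := by
    rw [norm_mul]
    exact mul_le_mul hk1 hk2 (norm_nonneg _) q1
  set M : ℂ := (c1 * ρ2 + c2 * ρ1) + (L1 * (K2 + ρ2) + (K1 + ρ1) * L2 +
    (K1 + ρ1) * (K2 + ρ2)) with hM
  have n0 : ‖M‖ ≤ m1 * r2 + m2 * r1 + (D1 * D2 - G1 * G2) := by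
    have n4 := norm_add_le (c1 * ρ2 + c2 * ρ1) (L1 * (K2 + ρ2) + (K1 + ρ1) * L2 +
      (K1 + ρ1) * (K2 + ρ2))
    have n5 := norm_add_le (c1 * ρ2) (c2 * ρ1)
    have n6 := norm_add_le (L1 * (K2 + ρ2) + (K1 + ρ1) * L2) ((K1 + ρ1) * (K2 + ρ2))
    have n7 := norm_add_le (L1 * (K2 + ρ2)) ((K1 + ρ1) * L2)
    have n8 : G1 * (D2 - G2) + (D1 - G1) * G2 + (D1 - G1) * (D2 - G2) = D1 * D2 - G1 * G2 := by
      ring
    rw [← hM] at n4
    linarith
  have e1 : u * v * 2 ^ 40 = (u * 2 ^ 40) * (v * 2 ^ 40) / 2 ^ 40 := by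
    field_simp
  have e2 : u * v * 2 ^ 40 - e = M / 2 ^ 40 -
      (e - (c1 * (c2 + (L2 + K2)) + c2 * (c1 + (L1 + K1) - c1) + L1 * L2) / 2 ^ 40) := by
    rw [e1, hu, hv, hM]
    ring
  rw [e2]
  refine (norm_sub_le _ _).trans (add_le_add ?_ he)
  have e3 : ‖M / 2 ^ 40‖ = ‖M‖ / 2 ^ 40 := by
    rw [norm_div, norm_pow]
    norm_num
  rw [e3]
  exact div_le_div_of_nonneg_right n0 (by positivity)

/-- with `δ = lin + κ`:
`(c1 + δ1)(c2 + δ2) = c1 c2 + c2 (lin1 + quad1) + c1 (lin2 + quad2) + lin1 lin2 + c2 ρ1 + c1 ρ2 +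
(δ1 δ2 - lin1 lin2)`, `‖δ1 δ2 - lin1 lin2‖ ≤ D1 D2 - G1 G2` -/
theorem Mem.mul {ε : List ℂ} (hε : Small ε) {x y : A} {u v : ℂ} (hx : Mem ε x u)
    (hy : Mem ε y v) : Mem ε (x.mul y) (u * v) := by
  have e0 : x.mul y = mU (r40 (mulP x.X y.X))
      (Nat.add (Nat.shiftRight
       (Nat.add (Nat.add (Nat.mul x.m y.r) (Nat.mul y.m x.r))
         (Nat.sub (Nat.mul x.D y.D) (Nat.mul x.G y.G))) 40) 50)
      (x.ok && y.ok) := rfl
  rw [e0]
  refine mem_mU (a := fl 40 (mulc (cd x.X) (cd y.X))) fun hb hU => ?_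
  rw [Bool.and_eq_true] at hb
  have hx' := hx hb.1
  have hy' := hy hb.2
  obtain ⟨hP, hbd⟩ := mulP_spec hx'.good hy'.good
  refine ⟨r40_spec hP (fun k _ => hbd k) hU, ?_⟩
  obtain ⟨ρ1, hu, hρ1, hl1, hk1, hG1⟩ := hx'.split hε
  obtain ⟨ρ2, hv, hρ2, hl2, hk2, hG2⟩ := hy'.split hε
  have hfl := ev_fl hε 40 (mulc (cd x.X) (cd y.X))
  rw [ev_mulc, ev_split (cd x.X), ev_split (cd y.X)] at hfl
  have h := mul_core hu hv hρ1 hρ2 hl1 hl2 hk1 hk2 hx'.cenb hy'.cenb hfl
  refine h.trans ?_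
  generalize hN : Nat.add (Nat.add (Nat.mul x.m y.r) (Nat.mul y.m x.r))
         (Nat.sub (Nat.mul x.D y.D) (Nat.mul x.G y.G)) = N
  have hNr : (N : ℝ) = (x.m : ℝ) * y.r + (y.m : ℝ) * x.r +
      ((x.D : ℝ) * y.D - (x.G : ℝ) * y.G) := by
    have h1 : x.G * y.G ≤ x.D * y.D := by
      have a1 : x.G ≤ x.D := by exact_mod_cast hG1
      have a2 : y.G ≤ y.D := by exact_mod_cast hG2
      exact Nat.mul_le_mul a1 a2
    have h2 : N = x.m * y.r + y.m * x.r + (x.D * y.D - x.G * y.G) := hN.symm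
    rw [h2]
    push_cast [Nat.cast_sub h1]
    ring
  rw [← hNr]
  have h40 := shr40 N
  rw [Nat.add_eq]
  push_cast
  linarith

private theorem norm_pow40 (z : ℂ) : ‖z / 2 ^ 40‖ = ‖z‖ / 2 ^ 40 := by
  rw [norm_div, norm_pow]
  norm_num

private theorem mul_bd {z w : GaussianInt} {m n : ℤ} (hm : 0 ≤ m)
    (hz : |z.re| ≤ m ∧ |z.im| ≤ m) (hw : |w.re| ≤ n ∧ |w.im| ≤ n) :
    |(z * w).re| ≤ 2 * (m * n) ∧ |(z * w).im| ≤ 2 * (m * n) := by
  have mm : ∀ s t : ℤ, |s| ≤ m → |t| ≤ n → |s * t| ≤ m * n := by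
    intro s t hs ht
    rw [abs_mul]
    exact mul_le_mul hs ht (abs_nonneg _) hm
  have h1 := abs_le.1 (mm _ _ hz.1 hw.1)
  have h2 := abs_le.1 (mm _ _ hz.2 hw.2)
  have h3 := abs_le.1 (mm _ _ hz.1 hw.2)
  have h4 := abs_le.1 (mm _ _ hz.2 hw.1)
  constructor
  · rw [Zsqrtd.re_mul, abs_le]
    constructor <;> linarith [h1.1, h1.2, h2.1, h2.2]
  · rw [Zsqrtd.im_mul, abs_le]
    constructor <;> linarith [h3.1, h3.2, h4.1, h4.2]

theorem Mem.scale {ε : List ℂ} (hε : Small ε) (z : Z) {x : A} {u : ℂ} (hx : Mem ε x u) :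
    Mem ε (x.scale z) (z.val * u) := by
  have e0 : x.scale z = mU (r40 (Nat.mul (Nat.add x.X kX) (toF (ofZ z))))
      (Nat.add (Nat.shiftRight (Nat.mul (mg (ofZ z)) x.r) 40) 50)
      (x.ok && Nat.ble (Nat.add (Nat.add z.a z.b) (Nat.add z.c z.d)) 4503599627370496) := rfl
  rw [e0]
  refine mem_mU (a := fl 40 (fun k => zd (ofZ z) * cd x.X k)) fun hb hU => ?_
  rw [Bool.and_eq_true] at hb
  have hx' := hx hb.1
  obtain ⟨h1, h2⟩ := ofZ_spec hb.2
  have h3 := toF_spec (n := 2 ^ 53) (by norm_num) h1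
  have h4 := zd_bound h1
  have hP : ((Nat.mul (Nat.add x.X kX) (toF (ofZ z)) : ℕ) : ZMod NN) =
      V (fun k => zd (ofZ z) * cd x.X k) := by
    rw [Nat.mul_eq, Nat.cast_mul, val_X hx'.good, h3, V_mul, mul_comm]
  have hz53 : |(zd (ofZ z)).re| ≤ 2 ^ 53 ∧ |(zd (ofZ z)).im| ≤ 2 ^ 53 := by
    have e1 : (((2 : ℕ) ^ 53 : ℕ) : ℤ) = 2 ^ 53 := by norm_num
    rw [e1] at h4
    exact ⟨h4.1.le, h4.2.le⟩
  refine ⟨r40_spec hP (fun k _ => ?_) hU, ?_⟩
  · have h5 := mul_small hz53 (cd_bound hx'.good k)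
    have e2 : (2 : ℤ) ^ 107 ≤ 2 ^ 110 := by norm_num
    exact ⟨h5.1.trans e2, h5.2.trans e2⟩
  · have hfl := ev_fl hε 40 (fun k => zd (ofZ z) * cd x.X k)
    rw [ev_mul, ofZ_zd hb.2] at hfl
    have hmg : ‖z.val‖ ≤ (mg (ofZ z) : ℝ) / 2 ^ 40 := by
      rw [← h2]
      exact Pool.Agent.helper31.IB.norm_le_mg (by norm_num) h1
    have e : z.val * u * 2 ^ 40 - ev (fl 40 (fun k => zd (ofZ z) * cd x.X k)) ε =
        z.val * (u * 2 ^ 40 - ev (cd x.X) ε) -
          (ev (fl 40 (fun k => zd (ofZ z) * cd x.X k)) ε -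
            z.val * 2 ^ 40 * ev (cd x.X) ε / 2 ^ 40) := by
      ring
    rw [e]
    have n1 : ‖z.val * (u * 2 ^ 40 - ev (cd x.X) ε)‖ ≤ (mg (ofZ z) : ℝ) / 2 ^ 40 * x.r := by
      rw [norm_mul]
      exact mul_le_mul hmg hx'.mem (norm_nonneg _) (by positivity)
    refine (norm_sub_le _ _).trans ((add_le_add n1 hfl).trans ?_)
    have h40 := shr40 (Nat.mul (mg (ofZ z)) x.r)
    have e2 : ((Nat.mul (mg (ofZ z)) x.r : Nat) : ℝ) = (mg (ofZ z) : ℝ) * x.r := by
      rw [Nat.mul_eq]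
      push_cast
      ring
    rw [e2] at h40
    have e3 : (mg (ofZ z) : ℝ) / 2 ^ 40 * x.r = (mg (ofZ z) : ℝ) * x.r / 2 ^ 40 := by ring
    rw [e3, Nat.add_eq]
    push_cast
    linarith

/-! ### comparisons -/

private theorem mul_im0 {a b : ℂ} (ha : a.im = 0) (hb : b.im = 0) : (a * b).im = 0 := by
  rw [Complex.mul_im, ha, hb]
  simp

private theorem mono_real {nr : Nat} {ε : List ℂ} (hr : RealL nr ε) (hnr : nr ≤ 5) {b : Nat}
    (hmem : b ∈ rm nr) : (mono ε b).im = 0 := by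
  interval_cases nr
  · simp [rm] at hmem
  · have h0 := hr 0 (by norm_num)
    simp only [rm, List.mem_cons, List.not_mem_nil, or_false] at hmem
    rcases hmem with rfl | rfl
    · simpa [mono] using h0
    · simpa [mono] using mul_im0 h0 h0
  · have h0 := hr 0 (by norm_num)
    have h1 := hr 1 (by norm_num)
    simp only [rm, List.mem_cons, List.not_mem_nil, or_false] at hmem
    rcases hmem with rfl | rfl | rfl | rfl | rfl
    · simpa [mono] using h0
    · simpa [mono] using h1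
    · simpa [mono] using mul_im0 h0 h0
    · simpa [mono] using mul_im0 h0 h1
    · simpa [mono] using mul_im0 h1 h1
  · have h0 := hr 0 (by norm_num)
    have h1 := hr 1 (by norm_num)
    have h2 := hr 2 (by norm_num)
    simp only [rm, List.mem_cons, List.not_mem_nil, or_false] at hmem
    rcases hmem with rfl | rfl | rfl | rfl | rfl | rfl | rfl | rfl | rfl
    · simpa [mono] using h0
    · simpa [mono] using h1
    · simpa [mono] using h2
    · simpa [mono] using mul_im0 h0 h0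
    · simpa [mono] using mul_im0 h0 h1
    · simpa [mono] using mul_im0 h1 h1
    · simpa [mono] using mul_im0 h0 h2
    · simpa [mono] using mul_im0 h1 h2
    · simpa [mono] using mul_im0 h2 h2
  · have h0 := hr 0 (by norm_num)
    have h1 := hr 1 (by norm_num)
    have h2 := hr 2 (by norm_num)
    have h3 := hr 3 (by norm_num)
    simp only [rm, List.mem_cons, List.not_mem_nil, or_false] at hmem
    rcases hmem with rfl | rfl | rfl | rfl | rfl | rfl | rfl | rfl | rfl | rfl | rfl | rfl | rfl | rfl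
    · simpa [mono] using h0
    · simpa [mono] using h1
    · simpa [mono] using h2
    · simpa [mono] using h3
    · simpa [mono] using mul_im0 h0 h0
    · simpa [mono] using mul_im0 h0 h1
    · simpa [mono] using mul_im0 h1 h1
    · simpa [mono] using mul_im0 h0 h2
    · simpa [mono] using mul_im0 h1 h2
    · simpa [mono] using mul_im0 h2 h2
    · simpa [mono] using mul_im0 h0 h3
    · simpa [mono] using mul_im0 h1 h3
    · simpa [mono] using mul_im0 h2 h3
    · simpa [mono] using mul_im0 h3 h3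
  · have h0 := hr 0 (by norm_num)
    have h1 := hr 1 (by norm_num)
    have h2 := hr 2 (by norm_num)
    have h3 := hr 3 (by norm_num)
    have h4 := hr 4 (by norm_num)
    simp only [rm, List.mem_cons, List.not_mem_nil, or_false] at hmem
    rcases hmem with rfl | rfl | rfl | rfl | rfl | rfl | rfl | rfl | rfl | rfl | rfl | rfl | rfl |
      rfl | rfl | rfl | rfl | rfl | rfl | rfl
    · simpa [mono] using h0
    · simpa [mono] using h1
    · simpa [mono] using h2
    · simpa [mono] using h3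
    · simpa [mono] using h4
    · simpa [mono] using mul_im0 h0 h0
    · simpa [mono] using mul_im0 h0 h1
    · simpa [mono] using mul_im0 h1 h1
    · simpa [mono] using mul_im0 h0 h2
    · simpa [mono] using mul_im0 h1 h2
    · simpa [mono] using mul_im0 h2 h2
    · simpa [mono] using mul_im0 h0 h3
    · simpa [mono] using mul_im0 h1 h3
    · simpa [mono] using mul_im0 h2 h3
    · simpa [mono] using mul_im0 h3 h3
    · simpa [mono] using mul_im0 h0 h4
    · simpa [mono] using mul_im0 h1 h4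
    · simpa [mono] using mul_im0 h2 h4
    · simpa [mono] using mul_im0 h3 h4
    · simpa [mono] using mul_im0 h4 h4

/-- the complementary positions -/
private def lc (n : Nat) : List Nat := (PL ++ PQ).filter fun i => decide (i ∉ rm n)

private theorem mem_lc {n i : Nat} : i ∈ lc n ↔ (i ∈ PL ∨ i ∈ PQ) ∧ i ∉ rm n := by
  unfold lc
  rw [List.mem_filter, List.mem_append, decide_eq_true_eq]

private theorem rm_props {n : Nat} (hn : n ≤ 5) : (rm n).Nodup ∧ (∀ i ∈ rm n, i < 35) ∧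
    (lc n).Nodup ∧ (∀ i ∈ lc n, i < 35) ∧ (rm n ++ lc n).Perm (PL ++ PQ) ∧
    (rm n).length + 3 * (lc n).length ≤ 60 := by
  interval_cases n <;> refine ⟨by decide, by decide, by decide, by decide, by decide, by decide⟩

private theorem re_list (a : Nat → GaussianInt) (ε : List ℂ) (l : List Nat) :
    ((l.map fun k => toC (a k) * mono ε k).sum).re =
      (l.map fun k => (toC (a k) * mono ε k).re).sum := by
  induction l with
  | nil => simp
  | cons k l ih =>
    simp only [List.map_cons, List.sum_cons, Complex.add_re]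
    rw [ih]

private theorem list_low (g : Nat → ℝ) (d : Nat → Nat) (c : ℝ) (l : List Nat)
    (h : ∀ k ∈ l, -((d k : ℝ) + c) ≤ g k) :
    -((((l.map d).sum : Nat) : ℝ) + c * (l.length : ℝ)) ≤ (l.map g).sum := by
  induction l with
  | nil => simp
  | cons k l ih =>
    simp only [List.map_cons, List.sum_cons, List.length_cons]
    have h1 := h k (List.mem_cons_self ..)
    have h2 := ih fun i hi => h i (List.mem_cons_of_mem _ hi)
    push_cast
    push_cast at h2
    linarith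

/-- a monomial at a position in `rm nr` is real: the coefficient contributes at most `|Re|`; the other
coefficients contribute at most their absolute value. -/
theorem isPos_sound {nr : Nat} {ε : List ℂ} (hε : Small ε) (hr : RealL nr ε) {x : A} {u : ℂ}
    (hx : Mem ε x u) (h : x.isPos nr = true) : 0 < u.re := by
  unfold A.isPos at h
  simp only [Bool.and_eq_true] at h
  obtain ⟨⟨hok, hnr⟩, hle⟩ := h
  have hnr5 : nr ≤ 5 := Nat.le_of_ble_eq_true hnr
  have hle2 := Nat.le_of_ble_eq_true hle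
  have hx' := hx hok
  have hg := hx'.good
  obtain ⟨p1, p2, p3, p4, p5, p6⟩ := rm_props hnr5
  have hR := mask_sum (y := absX x.X) (M := Nat.mul (psel (rm nr)) full) (l := rm nr) p1 p2
    dg_real (fun i hi => lt_of_le_of_lt ((absX_spec hg i).1 (by have := p2 i hi; omega)).1
      (by norm_num))
  have hC := mask_sum (y := magX x.X) (M := Nat.mul (Nat.sub (Nat.add pL pQ) (psel (rm nr))) full)
    (l := lc nr) p3 p4 (fun i => by
      rw [dg_cplx i]
      by_cases hi : i ∈ lc nr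
      · rw [if_pos hi, if_pos (mem_lc.1 hi)]
      · rw [if_neg hi, if_neg (fun h => hi (mem_lc.2 h))])
    (fun i hi => ((magX_spec hg i).1 (p4 i hi)).1)
  rw [hR, hC, land_full_dg] at hle2
  simp only [Nat.add_eq] at hle2
  obtain ⟨ρ, hu, hρ, -, -, -⟩ := hx'.split hε
  set g : Nat → ℝ := fun k => (toC (cd x.X k) * mono ε k).re with hgd
  have b1 : ∀ k ∈ rm nr, -((dg (absX x.X) k : ℝ) + 1) ≤ g k := by
    intro k hk
    have h1 := ((absX_spec hg k).1 (by have := p2 k hk; omega)).2.1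
    have h2 : |(sd x.X k : ℝ)| ≤ (dg (absX x.X) k : ℝ) + 1 := by exact_mod_cast h1
    have h3 : g k = (sd x.X k : ℝ) * (mono ε k).re := by
      rw [hgd]
      simp only
      rw [Complex.mul_re, mono_real hr hnr5 hk, mul_zero, sub_zero, ← GaussianInt.intCast_re]
      rfl
    have h4 : |(mono ε k).re| ≤ 1 := (Complex.abs_re_le_norm _).trans (mono_small hε _)
    have h5 : |g k| ≤ (dg (absX x.X) k : ℝ) + 1 := by
      rw [h3, abs_mul]
      exact (mul_le_of_le_one_right (abs_nonneg _) h4).trans h2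
    exact (abs_le.1 h5).1
  have b2 : ∀ k ∈ lc nr, -((dg (magX x.X) k : ℝ) + 3) ≤ g k := by
    intro k hk
    have h1 := norm_cd_le hg (p4 k hk)
    have h5 : |g k| ≤ (dg (magX x.X) k : ℝ) + 3 := by
      refine (Complex.abs_re_le_norm _).trans ?_
      rw [norm_mul]
      exact (mul_le_of_le_one_right (norm_nonneg _) (mono_small hε _)).trans h1
    exact (abs_le.1 h5).1
  have s1 := list_low g (dg (absX x.X)) 1 (rm nr) b1
  have s2 := list_low g (dg (magX x.X)) 3 (lc nr) b2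
  have s3 : (evL (cd x.X) ε).re + (evQ (cd x.X) ε).re =
      ((rm nr).map g).sum + ((lc nr).map g).sum := by
    have t1 : (evL (cd x.X) ε).re = (PL.map g).sum := re_list _ _ _
    have t2 : (evQ (cd x.X) ε).re = (PQ.map g).sum := re_list _ _ _
    rw [t1, t2, ← List.sum_append, ← List.map_append, ← List.sum_append, ← List.map_append]
    exact ((p5.map g).sum_eq).symm
  have h6 : (((rm nr).length : ℝ) + 3 * ((lc nr).length : ℝ)) ≤ 60 := by exact_mod_cast p6
  have h7 : (toC (cd x.X 0)).re = (dg x.X 0 : ℝ) - 2 ^ 53 := by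
    rw [← GaussianInt.intCast_re]
    have e : (cd x.X 0).re = (dg x.X 0 : ℤ) - 2 ^ 53 := rfl
    rw [e]
    push_cast
    ring
  have h8 := (abs_le.1 ((Complex.abs_re_le_norm ρ).trans hρ)).1
  have h9 : (9007199254740992 : ℝ) + (((rm nr).map (dg (absX x.X))).sum : Nat) +
      ((((lc nr).map (dg (magX x.X))).sum : Nat) + ((x.r : ℝ) + 100)) ≤ (dg x.X 0 : ℝ) := by
    exact_mod_cast hle2
  have h10 : (u * 2 ^ 40).re = u.re * 2 ^ 40 := by
    have e : (2 : ℂ) ^ 40 = ((2 ^ 40 : ℝ) : ℂ) := by push_cast; rfl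
    rw [e, Complex.re_mul_ofReal]
  have h11 : 0 < u.re * 2 ^ 40 := by
    rw [← h10, hu]
    simp only [Complex.add_re]
    rw [h7]
    have h12 : (9007199254740992 : ℝ) = 2 ^ 53 := by norm_num
    rw [h12] at h9
    linarith
  exact pos_of_mul_pos_left h11 (by positivity)

theorem isLt_sound {ε : List ℂ} (hε : Small ε) {x : A} {u : ℂ} (hx : Mem ε x u) {B : Nat}
    (h : x.isLt B = true) : ‖u‖ < (B : ℝ) / 2 ^ 40 := by
  unfold A.isLt at h
  simp only [Bool.and_eq_true] at h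
  obtain ⟨⟨hok, hDB⟩, hle⟩ := h
  have hDB2 : x.D + 1 ≤ B := Nat.le_of_ble_eq_true hDB
  have hle2 := Nat.le_of_ble_eq_true hle
  have hx' := hx hok
  obtain ⟨ρ, hu, -, hl, hk, -⟩ := hx'.split hε
  obtain ⟨hone, hzd⟩ := cen_spec hx'.good
  have hc : ‖toC (cd x.X 0)‖ < (B : ℝ) - x.D := by
    have hp : ∀ a b : Nat, (((a : ℤ) - b : ℤ) : ℝ) ^ 2 ≤ ((a + b : Nat) : ℝ) ^ 2 := by
      intro a b
      push_cast
      have ha : (0 : ℝ) ≤ a := Nat.cast_nonneg _
      have hb : (0 : ℝ) ≤ b := Nat.cast_nonneg _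
      nlinarith [mul_nonneg ha hb]
    have h1 : (((fd (cen x.X) 0 + fd (cen x.X) 2 : Nat) : ℝ)) ^ 2 +
        (((fd (cen x.X) 1 + fd (cen x.X) 3 : Nat) : ℝ)) ^ 2 + 1 ≤ ((B : ℝ) - x.D) ^ 2 := by
      have h2 : (fd (cen x.X) 0 + fd (cen x.X) 2) ^ 2 + (fd (cen x.X) 1 + fd (cen x.X) 3) ^ 2 + 1 ≤
        (B - x.D) ^ 2 := by
        rw [sq, sq, sq]
        exact hle2
      have h3 : ((B - x.D : Nat) : ℝ) = (B : ℝ) - x.D := Nat.cast_sub (by omega)
      rw [← h3]
      exact_mod_cast h2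
    have h5 : (0 : ℝ) ≤ (B : ℝ) - x.D := by
      have : (x.D : ℝ) + 1 ≤ B := by exact_mod_cast hDB2
      linarith
    apply lt_of_pow_lt_pow_left₀ 2 h5
    rw [← hzd, norm_toC_sq]
    have a1 := hp (fd (cen x.X) 0) (fd (cen x.X) 2)
    have a2 := hp (fd (cen x.X) 1) (fd (cen x.X) 3)
    have e1 : (zd (cen x.X)).re = (fd (cen x.X) 0 : ℤ) - fd (cen x.X) 2 := rfl
    have e2 : (zd (cen x.X)).im = (fd (cen x.X) 1 : ℤ) - fd (cen x.X) 3 := rfl
    rw [e1, e2]
    linarith
  rw [lt_div_iff₀ (by positivity)]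
  have e : ‖u‖ * 2 ^ 40 = ‖u * 2 ^ 40‖ := by
    rw [norm_mul, norm_pow]
    norm_num
  rw [e, hu]
  have n1 := norm_add_le (toC (cd x.X 0)) (evL (cd x.X) ε + (evQ (cd x.X) ε + ρ))
  have n2 := norm_add_le (evL (cd x.X) ε) (evQ (cd x.X) ε + ρ)
  linarith

/-! ### variables -/

private theorem mono_pos (ε : List ℂ) {j : Nat} (hj : j < 5) : mono ε (pos j) = get ε j := by
  interval_cases j <;> simp [mono, pos]

private theorem pos_lt {j : Nat} (hj : j < 5) : 0 < pos j ∧ pos j < 35 := by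
  interval_cases j <;> simp [pos]

private theorem toC_nat (n : Nat) : toC ⟨n, 0⟩ = (n : ℂ) := by
  rw [GaussianInt.toComplex_def']
  simp

/-- one real variable: noise symbol `j` has the value `(t - c)/h` (`0` if `h = 0`) -/
theorem mem_var {c h j : Nat} (hj : j < 5) {ε : List ℂ} {t : ℝ}
    (ht : (t : ℂ) = (((c : ℝ) / 2 ^ 40 : ℝ) : ℂ) + (((h : ℝ) / 2 ^ 40 : ℝ) : ℂ) * get ε j) :
    Mem ε (mU (Nat.add fD (Nat.add c (Nat.shiftLeft h (Nat.mul 116 (pos j))))) 0
      (Nat.ble c 9007199254740991 && Nat.ble h 9007199254740991)) (t : ℂ) := by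
  refine mem_mU (a := fun k => if k = 0 then ⟨c, 0⟩ else if k = pos j then ⟨h, 0⟩ else 0)
    fun hb hU => ?_
  rw [Bool.and_eq_true] at hb
  refine ⟨var_spec (Nat.le_of_ble_eq_true hb.1) (Nat.le_of_ble_eq_true hb.2) hj hU, ?_⟩
  have hp := pos_lt hj
  have e : ev (fun k => if k = 0 then (⟨c, 0⟩ : GaussianInt) else if k = pos j then ⟨h, 0⟩ else 0) ε =
      (c : ℂ) + (h : ℂ) * get ε j := by
    have e1 : ev (fun k => if k = 0 then (⟨c, 0⟩ : GaussianInt) else if k = pos j then ⟨h, 0⟩ else 0) ε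
        = ev (fun k => if k = 0 then (⟨c, 0⟩ : GaussianInt) else 0) ε +
          ev (fun k => if pos j = k then (⟨h, 0⟩ : GaussianInt) else 0) ε := by
      rw [← ev_add]
      refine ev_congr (fun k _ => ?_) ε
      by_cases h0 : k = 0
      · rw [if_pos h0, if_pos h0, if_neg (by omega), add_zero]
      · rw [if_neg h0, if_neg h0, zero_add]
        by_cases h1 : k = pos j
        · rw [if_pos h1, if_pos h1.symm]
        · rw [if_neg h1, if_neg (Ne.symm h1)]
    rw [e1, ev_cen, ev_single _ hp.2, mono_pos ε hj, toC_nat, toC_nat]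
  rw [e, ht]
  push_cast
  have e2 : ((c : ℂ) / 2 ^ 40 + (h : ℂ) / 2 ^ 40 * get ε j) * 2 ^ 40 - ((c : ℂ) + (h : ℂ) * get ε j) =
      0 := by
    field_simp
    ring
  rw [e2, norm_zero]

theorem mem_disc {j : Nat} (hj : j < 5) (ε : List ℂ) :
    Mem ε (mU (Nat.add fD (Nat.shiftLeft 1099511627776 (Nat.mul 116 (pos j)))) 0 true)
      (get ε j) := by
  refine mem_mU (a := fun k => if k = pos j then ⟨1099511627776, 0⟩ else 0) fun _ hU => ?_
  refine ⟨disc_spec hj hU, ?_⟩
  have hp := pos_lt hj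
  have e : ev (fun k => if k = pos j then (⟨1099511627776, 0⟩ : GaussianInt) else 0) ε =
      2 ^ 40 * get ε j := by
    have e1 : ev (fun k => if k = pos j then (⟨1099511627776, 0⟩ : GaussianInt) else 0) ε
        = ev (fun k => if pos j = k then (⟨((1099511627776 : Nat) : ℤ), 0⟩ : GaussianInt) else 0) ε := by
      refine ev_congr (fun k _ => ?_) ε
      by_cases h1 : k = pos j
      · rw [if_pos h1, if_pos h1.symm]
        rfl
      · rw [if_neg h1, if_neg (Ne.symm h1)]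
    rw [e1, ev_single _ hp.2, mono_pos ε hj, toC_nat]
    norm_num
  rw [e, mul_comm, sub_self, norm_zero]
  norm_num

end Pool.Agent.helper14.QF
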