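import Pool.Agent.helper14.QF.Cst
import Pool.Agent.helper31.IB.ZFun

/-!
# QF-3: values modulo `NN = 2^8120 + 1`

`phi : ℤ[i] → ZMod NN`, `i ↦ 2^4060`; `V a = Σ_{k < 35} phi (a k) * 2^(116 k)`.  Everything is an
identity in the ring `ZMod NN`; the digits are recovered with `dec_spec` (if the digits `a k` are small,
the remainder modulo `NN` of `V a + c * ones` has the digits `a k + c`).
-/

namespace Pool.Agent.helper14.QF

open Complex
open Pool.Agent.helper31.IA (Z)
open Pool.Agent.helper31.IB (fd One bz mg ofZ)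

set_option exponentiation.threshold 9000

/-! ### the ring -/

private theorem NN_eq : NN = 2 ^ 8120 + 1 := by
  unfold NN
  rfl

private theorem NN_cast : ((NN : ℕ) : ZMod NN) = 0 := ZMod.natCast_self NN

theorem two_pow_half : (2 : ZMod NN) ^ 8120 = -1 := by
  have h : ((2 ^ 8120 + 1 : ℕ) : ZMod NN) = 0 := by
    rw [← NN_eq]
    exact NN_cast
  simp only [Nat.cast_add, Nat.cast_pow, Nat.cast_one, Nat.cast_ofNat] at h
  exact eq_neg_of_add_eq_zero_left h

theorem sq_J : (2 : ZMod NN) ^ 4060 * (2 : ZMod NN) ^ 4060 = ((-1 : ℤ) : ZMod NN) := by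
  have e : 4060 + 4060 = 8120 := rfl
  rw [← pow_add, e, two_pow_half, Int.cast_neg, Int.cast_one]

noncomputable def phi : GaussianInt →+* ZMod NN := Zsqrtd.lift ⟨2 ^ 4060, sq_J⟩

theorem phi_apply (z : GaussianInt) : phi z = (z.re : ZMod NN) + (z.im : ZMod NN) * 2 ^ 4060 := by
  rfl

/-- value of a vector of digits -/
noncomputable def V (a : Nat → GaussianInt) : ZMod NN :=
  ∑ k ∈ Finset.range 35, phi (a k) * 2 ^ (116 * k)

theorem V_congr {a b : Nat → GaussianInt} (h : ∀ k, k < 35 → a k = b k) : V a = V b := by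
  unfold V
  apply Finset.sum_congr rfl
  intro k hk
  rw [h k (Finset.mem_range.1 hk)]

theorem V_add (a b : Nat → GaussianInt) : V (fun k => a k + b k) = V a + V b := by
  unfold V
  rw [← Finset.sum_add_distrib]
  apply Finset.sum_congr rfl
  intro k _
  rw [map_add, add_mul]

theorem V_sub (a b : Nat → GaussianInt) : V (fun k => a k - b k) = V a - V b := by
  unfold V
  rw [← Finset.sum_sub_distrib]
  apply Finset.sum_congr rfl
  intro k _
  rw [map_sub, sub_mul]

theorem V_mul (z : GaussianInt) (a : Nat → GaussianInt) : V (fun k => z * a k) = phi z * V a := by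
  unfold V
  rw [Finset.mul_sum]
  apply Finset.sum_congr rfl
  intro k _
  rw [map_mul, mul_assoc]

theorem V_zero : V (fun _ => 0) = 0 := by
  unfold V
  apply Finset.sum_eq_zero
  intro k _
  rw [map_zero, zero_mul]

/-- one digit -/
private theorem V_one {m : Nat} (hm : m < 35) (z : GaussianInt) :
    V (fun k => if m = k then z else 0) = phi z * 2 ^ (116 * m) := by
  unfold V
  rw [Finset.sum_eq_single m]
  · beta_reduce
    rw [if_pos rfl]
  · intro k _ hk
    beta_reduce
    rw [if_neg (fun h => hk h.symm), map_zero, zero_mul]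
  · intro h
    exact absurd (Finset.mem_range.2 hm) h

/-- only the centre -/
theorem V_cen (z : GaussianInt) : V (fun k => if k = 0 then z else 0) = phi z := by
  have h := V_one (m := 0) (by norm_num) z
  rw [Nat.mul_zero, pow_zero, mul_one] at h
  rw [← h]
  apply V_congr
  intro k _
  simp only [eq_comm]

/-- product of two linear parts -/
def LL (a b : Nat → GaussianInt) (k : Nat) : GaussianInt :=
  (PL.map fun i => (PL.map fun j => if i + j = k then a i * b j else 0).sum).sum

/-- the linear part -/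
def lin (a : Nat → GaussianInt) (k : Nat) : GaussianInt := if k ∈ PL then a k else 0

private theorem V_list (l : List Nat) (f : Nat → Nat → GaussianInt) :
    V (fun k => (l.map fun i => f i k).sum) = (l.map fun i => V (f i)).sum := by
  induction l with
  | nil => simp only [List.map_nil, List.sum_nil, V_zero]
  | cons i l ih =>
    simp only [List.map_cons, List.sum_cons]
    rw [V_add, ih]

private theorem V_lin (a : Nat → GaussianInt) :
    V (lin a) = (PL.map fun i => phi (a i) * 2 ^ (116 * i)).sum := by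
  have h1 : V (lin a) = V (fun k => (PL.map fun i => if i = k then a i else 0).sum) := by
    apply V_congr
    intro k hk
    unfold lin
    simp only [PL, List.map_cons, List.map_nil, List.sum_cons, List.sum_nil, List.mem_cons,
      List.not_mem_nil, or_false]
    by_cases h1 : k = 1
    · subst h1; norm_num
    by_cases h2 : k = 4
    · subst h2; norm_num
    by_cases h3 : k = 10
    · subst h3; norm_num
    by_cases h4 : k = 12
    · subst h4; norm_num
    by_cases h5 : k = 17
    · subst h5; norm_num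
    rw [if_neg (by omega), if_neg (by omega), if_neg (by omega), if_neg (by omega),
      if_neg (by omega), if_neg (by omega)]
    rfl
  rw [h1, V_list]
  congr 1
  apply List.map_congr_left
  intro i hi
  apply V_one
  simp only [PL, List.mem_cons, List.not_mem_nil, or_false] at hi
  omega

theorem V_lin_mul (a b : Nat → GaussianInt) : V (lin a) * V (lin b) = V (LL a b) := by
  have h1 : V (LL a b) = (PL.map fun i => (PL.map fun j =>
      phi (a i * b j) * 2 ^ (116 * (i + j))).sum).sum := by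
    have e : LL a b = fun k => (PL.map fun i => (fun i k => (PL.map fun j =>
        if i + j = k then a i * b j else 0).sum) i k).sum := rfl
    rw [e, V_list]
    congr 1
    apply List.map_congr_left
    intro i hi
    rw [V_list]
    congr 1
    apply List.map_congr_left
    intro j hj
    apply V_one
    simp only [PL, List.mem_cons, List.not_mem_nil, or_false] at hi hj
    omega
  rw [h1, V_lin, V_lin, ← List.sum_map_mul_right]
  congr 1
  apply List.map_congr_left
  intro i _
  rw [← List.sum_map_mul_left]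
  congr 1
  apply List.map_congr_left
  intro j _
  rw [map_mul, Nat.mul_add, pow_add]
  ring

private def cnt (k : Nat) : Nat :=
  (PL.map fun i => (PL.map fun j => if i + j = k then 1 else 0).sum).sum

private theorem cnt_le (k : Nat) : cnt k ≤ 2 := by
  by_cases h : k < 35
  · have : ∀ k < 35, cnt k ≤ 2 := by decide
    exact this k h
  · have h0 : cnt k = (PL.map fun _ => (PL.map fun _ => 0).sum).sum := by
      unfold cnt
      congr 1
      apply List.map_congr_left
      intro i hi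
      congr 1
      apply List.map_congr_left
      intro j hj
      simp only [PL, List.mem_cons, List.not_mem_nil, or_false] at hi hj
      rw [if_neg (by omega)]
    rw [h0]
    decide

private theorem list_abs (l : List Nat) (f : Nat → ℤ) (g : Nat → ℤ) (h : ∀ i ∈ l, |f i| ≤ g i) :
    |(l.map f).sum| ≤ (l.map g).sum := by
  induction l with
  | nil => simp
  | cons i l ih =>
    simp only [List.map_cons, List.sum_cons]
    have h1 := h i (by simp)
    have h2 := ih (fun j hj => h j (by simp [hj]))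
    exact le_trans (abs_add_le _ _) (add_le_add h1 h2)

private theorem re_sum (l : List Nat) (f : Nat → GaussianInt) :
    ((l.map f).sum).re = (l.map fun i => (f i).re).sum := by
  induction l with
  | nil => rfl
  | cons i l ih =>
    simp only [List.map_cons, List.sum_cons, Zsqrtd.re_add, ih]

private theorem im_sum (l : List Nat) (f : Nat → GaussianInt) :
    ((l.map f).sum).im = (l.map fun i => (f i).im).sum := by
  induction l with
  | nil => rfl
  | cons i l ih =>
    simp only [List.map_cons, List.sum_cons, Zsqrtd.im_add, ih]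

private theorem mul_bound {m n x y u v : ℤ} (hm : 0 ≤ m) (hx : |x| ≤ m) (hy : |y| ≤ m)
    (hu : |u| ≤ n) (hv : |v| ≤ n) : |x * u + -1 * y * v| ≤ 2 * (m * n) ∧
      |x * v + y * u| ≤ 2 * (m * n) := by
  have h1 : |x * u| ≤ m * n := by
    rw [abs_mul]
    exact mul_le_mul hx hu (abs_nonneg _) hm
  have h2 : |y * v| ≤ m * n := by
    rw [abs_mul]
    exact mul_le_mul hy hv (abs_nonneg _) hm
  have h3 : |x * v| ≤ m * n := by
    rw [abs_mul]
    exact mul_le_mul hx hv (abs_nonneg _) hm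
  have h4 : |y * u| ≤ m * n := by
    rw [abs_mul]
    exact mul_le_mul hy hu (abs_nonneg _) hm
  rw [abs_le] at *
  rw [abs_le]
  refine ⟨⟨?_, ?_⟩, ⟨?_, ?_⟩⟩ <;> linarith

/-- at most two products contribute -/
theorem LL_bound {a b : Nat → GaussianInt} {m n : ℤ} (hm : 0 ≤ m) (hn : 0 ≤ n)
    (ha : ∀ k ∈ PL, |(a k).re| ≤ m ∧ |(a k).im| ≤ m)
    (hb : ∀ k ∈ PL, |(b k).re| ≤ n ∧ |(b k).im| ≤ n) (k : Nat) :
    |(LL a b k).re| ≤ 4 * (m * n) ∧ |(LL a b k).im| ≤ 4 * (m * n) := by
  have hmn : 0 ≤ m * n := mul_nonneg hm hn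
  have hc : (PL.map fun i => (PL.map fun j => if i + j = k then 2 * (m * n) else 0).sum).sum ≤
      4 * (m * n) := by
    have e : (PL.map fun i => (PL.map fun j => if i + j = k then 2 * (m * n) else 0).sum).sum =
        (cnt k : ℤ) * (2 * (m * n)) := by
      unfold cnt
      simp only [PL, List.map_cons, List.map_nil, List.sum_cons, List.sum_nil]
      push_cast
      simp only [add_mul, ite_mul, one_mul, zero_mul]
    rw [e]
    have h := cnt_le k
    have h2 : (cnt k : ℤ) ≤ 2 := by exact_mod_cast h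
    nlinarith
  constructor
  · refine le_trans ?_ hc
    unfold LL
    rw [re_sum]
    apply list_abs
    intro i hi
    rw [re_sum]
    apply list_abs
    intro j hj
    split_ifs
    · rw [Zsqrtd.re_mul]
      exact (mul_bound hm (ha i hi).1 (ha i hi).2 (hb j hj).1 (hb j hj).2).1
    · simp
  · refine le_trans ?_ hc
    unfold LL
    rw [im_sum]
    apply list_abs
    intro i hi
    rw [im_sum]
    apply list_abs
    intro j hj
    split_ifs
    · rw [Zsqrtd.im_mul]
      exact (mul_bound hm (ha i hi).1 (ha i hi).2 (hb j hj).1 (hb j hj).2).2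
    · simp


/-! ### value forms -/

/-- the signed complex digits of a stored number -/
def cd (X k : Nat) : GaussianInt := ⟨sd X k, sd X (k + 35)⟩

/-- a number as the value of its digits -/
private theorem cast_V {X : Nat} (hX : X < 2 ^ 8120) :
    (X : ZMod NN) = V (fun k => ⟨(dg X k : ℤ), (dg X (k + 35) : ℤ)⟩) := by
  have h1 : X < 2 ^ (116 * 70) := hX
  have h2 : (X : ZMod NN) = ∑ j ∈ Finset.range 70, (dg X j : ZMod NN) * 2 ^ (116 * j) := by
    have h3 := congrArg (Nat.cast : ℕ → ZMod NN) (eq_sum h1)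
    rw [h3, Nat.cast_sum]
    apply Finset.sum_congr rfl
    intro j _
    simp only [Nat.cast_mul, Nat.cast_pow, Nat.cast_ofNat]
  have e : (70 : ℕ) = 35 + 35 := rfl
  rw [h2, e, Finset.sum_range_add]
  unfold V
  rw [← Finset.sum_add_distrib]
  apply Finset.sum_congr rfl
  intro k _
  rw [phi_apply, add_mul]
  have e2 : 116 * (35 + k) = 4060 + 116 * k := by ring
  simp only [Int.cast_natCast]
  rw [e2, pow_add, Nat.add_comm 35 k]
  ring

private theorem lt_pow_of_dg {X : Nat} (h : ∀ i, 70 ≤ i → dg X i = 0) : X < 2 ^ 8120 :=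
  lt_of_dg (n := 70) h

private theorem lt_NN {X : Nat} (h : X < 2 ^ 8120) : X < NN := by
  rw [NN_eq]
  exact Nat.lt_succ_of_lt h

/-- `NN - O c` for a number `O` with digits `0`, `1` -/
private theorem cast_sub_one {O c : Nat} (hO : ∀ i, dg O i ≤ if i < 70 then 1 else 0)
    (hc : c < 2 ^ 116) : ((Nat.sub NN (Nat.mul O c) : ℕ) : ZMod NN) = -((O : ZMod NN) * c) := by
  have h1 : ∀ i, dg (O * c) i = dg O i * c := by
    apply dg_mul_one
    intro i
    have h := hO i
    split_ifs at h with h2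
    · have h3 : dg O i * c ≤ 1 * c := Nat.mul_le_mul_right _ h
      omega
    · have h3 : dg O i * c ≤ 0 * c := Nat.mul_le_mul_right _ h
      have : (0 : ℕ) < 2 ^ 116 := by positivity
      omega
  have h2 : O * c < 2 ^ 8120 := by
    apply lt_pow_of_dg
    intro i hi
    rw [h1]
    have h := hO i
    rw [if_neg (by omega)] at h
    rw [Nat.le_zero.1 h, Nat.zero_mul]
  have h3 : Nat.sub NN (Nat.mul O c) = NN - O * c := rfl
  rw [h3, Nat.cast_sub (lt_NN h2).le, NN_cast, zero_sub, Nat.cast_mul]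

/-- general value form -/
private theorem val_gen {Y O K : Nat} {e : Nat → GaussianInt} (hY : Y < 2 ^ 8120)
    (hO : ∀ i, dg O i ≤ if i < 70 then 1 else 0)
    (hK : K = Nat.sub NN (Nat.mul O 9007199254740992))
    (he : ∀ k, k < 35 → e k =
      ⟨(dg Y k : ℤ) - 2 ^ 53 * dg O k, (dg Y (k + 35) : ℤ) - 2 ^ 53 * dg O (k + 35)⟩) :
    ((Nat.add Y K : ℕ) : ZMod NN) = V e := by
  have hO2 : O < 2 ^ 8120 := by
    apply lt_pow_of_dg
    intro i hi
    have h := hO i
    rw [if_neg (by omega)] at h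
    exact Nat.le_zero.1 h
  have h1 : Nat.add Y K = Y + K := rfl
  have h4 : (9007199254740992 : ℕ) = 2 ^ 53 := by norm_num
  rw [h1, Nat.cast_add, hK, cast_sub_one hO (by norm_num), cast_V hY, cast_V hO2, h4, mul_comm,
    ← sub_eq_add_neg]
  have h5 : ((2 ^ 53 : ℕ) : ZMod NN) = phi (2 ^ 53 : ℤ) := by
    rw [phi_apply]
    simp
  rw [h5, ← V_mul, ← V_sub]
  apply V_congr
  intro k hk
  rw [he k hk]
  apply Zsqrtd.ext
  · simp
  · simp


private theorem val_mask {X Y O K : Nat} {p q : Nat → Prop} [DecidablePred p] [DecidablePred q]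
    (hX : Good X) (hY : ∀ i, dg Y i = if p i then dg X i else 0)
    (hO : ∀ i, dg O i = if p i ∧ i < 70 then 1 else 0)
    (hK : K = Nat.sub NN (Nat.mul O 9007199254740992))
    (hq : ∀ k, k < 35 → (p k ↔ q k) ∧ (p (k + 35) ↔ q k)) :
    ((Nat.add Y K : ℕ) : ZMod NN) = V (fun k => if q k then cd X k else 0) := by
  have hY2 : Y < 2 ^ 8120 := by
    apply lt_pow_of_dg
    intro i hi
    rw [hY]
    split_ifs
    · exact dg_of_lt (n := 70) hX.1 hi
    · rfl
  apply val_gen hY2 _ hK
  · intro k hk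
    obtain ⟨h1, h2⟩ := hq k hk
    rw [hY, hY, hO, hO]
    by_cases h : q k
    · rw [if_pos h, if_pos (h1.2 h), if_pos (h2.2 h), if_pos ⟨h1.2 h, by omega⟩,
        if_pos ⟨h2.2 h, by omega⟩]
      unfold cd sd
      norm_num
    · rw [if_neg h, if_neg (fun h3 => h (h1.1 h3)), if_neg (fun h3 => h (h2.1 h3)),
        if_neg (fun h3 => h (h1.1 h3.1)), if_neg (fun h3 => h (h2.1 h3.1))]
      norm_num
      rfl
  · intro i
    rw [hO]
    by_cases h : i < 70
    · rw [if_pos h]
      split_ifs <;> omega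
    · rw [if_neg h, if_neg (fun h3 => h h3.2)]

private theorem dg_mask {X M : Nat} {p : Nat → Prop} [DecidablePred p]
    (hM : ∀ i, dg M i = if p i then 2 ^ 116 - 1 else 0) (i : Nat) :
    dg (Nat.land X M) i = if p i then dg X i else 0 := by
  rw [dg_land, hM]
  split_ifs
  · exact land_full (dg_lt X i)
  · exact land_zero_right _

private theorem dg_add_CL (i : Nat) : dg (Nat.add oC oL) i =
    if (i = 0 ∨ i = 35) ∨ (i ∈ PL ∨ (35 ≤ i ∧ i - 35 ∈ PL)) then 1 else 0 := by
  have h0 : Nat.add oC oL = oC + oL := rfl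
  have h1 : ∀ i, dg oC i + dg oL i < 2 ^ 116 := by
    intro i
    rw [dg_oC, dg_oL]
    split_ifs <;> norm_num
  rw [h0, dg_add h1, dg_oC, dg_oL]
  simp only [PL, List.mem_cons, List.not_mem_nil, or_false]
  split_ifs <;> omega

private theorem dg_sub_ones {O : Nat} {p : Nat → Prop} [DecidablePred p]
    (hO : ∀ i, dg O i = if p i then 1 else 0) (hp : ∀ i, p i → i < 70) (i : Nat) :
    dg (Nat.sub ones O) i = if ¬ p i ∧ i < 70 then 1 else 0 := by
  have h0 : Nat.sub ones O = ones - O := rfl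
  have h1 : ∀ i, dg O i ≤ dg ones i := by
    intro i
    rw [dg_ones, hO]
    by_cases h : p i
    · rw [if_pos h, if_pos (hp i h)]
    · rw [if_neg h]
      exact Nat.zero_le _
  rw [h0, dg_sub h1, dg_ones, hO]
  by_cases h : p i
  · rw [if_pos h, if_pos (hp i h), if_neg (fun h2 => h2.1 h)]
  · rw [if_neg h, Nat.sub_zero]
    by_cases h2 : i < 70
    · rw [if_pos h2, if_pos ⟨h, h2⟩]
    · rw [if_neg h2, if_neg (fun h3 => h2 h3.2)]

theorem val_X {X : Nat} (hX : Good X) : ((Nat.add X kX : ℕ) : ZMod NN) = V (cd X) := by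
  have h := val_mask (X := X) (Y := X) (O := ones) (K := kX) (p := fun _ => True)
    (q := fun _ => True) hX (fun i => by simp) (fun i => by rw [dg_ones]; simp)
    (by unfold kX; rfl) (fun k _ => by simp)
  rw [h]
  apply V_congr
  intro k _
  simp

theorem val_A {X : Nat} (hX : Good X) : ((Nat.add (Nat.land X mA) kA : ℕ) : ZMod NN) =
    V (fun k => if k = 0 ∨ k ∈ PL then cd X k else 0) := by
  refine val_mask (O := Nat.add oC oL) hX (dg_mask dg_mA) (fun i => ?_) (by unfold kA; rfl)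
    (fun k hk => ?_)
  · rw [dg_add_CL]
    simp only [PL, List.mem_cons, List.not_mem_nil, or_false]
    split_ifs <;> omega
  · simp only [PL, List.mem_cons, List.not_mem_nil, or_false]
    omega

theorem val_C {X : Nat} (hX : Good X) :
    ((Nat.add (Nat.land (Nat.land X mA) mC) kC : ℕ) : ZMod NN) = phi (cd X 0) := by
  have h := val_mask (X := X) (Y := Nat.land (Nat.land X mA) mC) (O := oC) (K := kC)
    (p := fun i => i = 0 ∨ i = 35) (q := fun k => k = 0) hX (fun i => ?_) (fun i => ?_)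
    (by unfold kC; rfl) (fun k hk => ?_)
  · rw [h]
    have e : V (fun k => if k = 0 then cd X k else 0) = V (fun k => if k = 0 then cd X 0 else 0) := by
      apply V_congr
      intro k _
      split_ifs with h1
      · rw [h1]
      · rfl
    rw [e, V_cen]
  · rw [dg_mask dg_mC, dg_mask dg_mA]
    by_cases h1 : i = 0 ∨ i = 35
    · rw [if_pos h1, if_pos h1, if_pos (Or.inl h1)]
    · rw [if_neg h1, if_neg h1]
  · rw [dg_oC]
    split_ifs <;> omega
  · omega

theorem val_L {X : Nat} (hX : Good X) : ((linV X : ℕ) : ZMod NN) = V (lin (cd X)) := by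
  have h := val_mask (X := X) (Y := Nat.land X mL) (O := oL) (K := kL)
    (p := fun i => i ∈ PL ∨ (35 ≤ i ∧ i - 35 ∈ PL)) (q := fun k => k ∈ PL) hX (dg_mask dg_mL)
    (fun i => ?_) (by unfold kL; rfl) (fun k hk => ?_)
  · exact h
  · rw [dg_oL]
    simp only [PL, List.mem_cons, List.not_mem_nil, or_false]
    split_ifs <;> omega
  · simp only [PL, List.mem_cons, List.not_mem_nil, or_false]
    omega

private theorem dg_sub_mask {X M : Nat} {p : Nat → Prop} [DecidablePred p]
    (hM : ∀ i, dg M i = if p i then 2 ^ 116 - 1 else 0) (i : Nat) :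
    dg (Nat.sub X (Nat.land X M)) i = if ¬ p i then dg X i else 0 := by
  have h0 : Nat.sub X (Nat.land X M) = X - Nat.land X M := rfl
  have h1 : ∀ i, dg (Nat.land X M) i ≤ dg X i := by
    intro i
    rw [dg_mask hM]
    split_ifs
    · exact le_rfl
    · exact Nat.zero_le _
  rw [h0, dg_sub h1, dg_mask hM]
  by_cases h : p i
  · rw [if_pos h, if_neg (not_not.2 h), Nat.sub_self]
  · rw [if_neg h, if_pos h, Nat.sub_zero]

theorem val_Q {X : Nat} (hX : Good X) :
    ((Nat.add (Nat.sub X (Nat.land X mA)) kQ : ℕ) : ZMod NN) =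
      V (fun k => if k = 0 ∨ k ∈ PL then 0 else cd X k) := by
  have h := val_mask (X := X) (Y := Nat.sub X (Nat.land X mA)) (O := Nat.sub ones (Nat.add oC oL))
    (K := kQ) (p := fun i => ¬ ((i = 0 ∨ i = 35) ∨ (i ∈ PL ∨ (35 ≤ i ∧ i - 35 ∈ PL))))
    (q := fun k => ¬ (k = 0 ∨ k ∈ PL)) hX (dg_sub_mask dg_mA)
    (dg_sub_ones dg_add_CL (fun i hi => ?_)) (by unfold kQ; rfl) (fun k hk => ?_)
  · rw [h]
    apply V_congr
    intro k _
    by_cases h1 : k = 0 ∨ k ∈ PL
    · rw [if_pos h1, if_neg (not_not.2 h1)]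
    · rw [if_neg h1, if_pos h1]
  · simp only [PL, List.mem_cons, List.not_mem_nil, or_false] at hi
    omega
  · simp only [PL, List.mem_cons, List.not_mem_nil, or_false]
    omega

theorem val_D {X : Nat} (hX : Good X) :
    ((dev X : ℕ) : ZMod NN) = V (fun k => if k = 0 then 0 else cd X k) := by
  have h := val_mask (X := X) (Y := Nat.sub X (Nat.land X mC)) (O := Nat.sub ones oC)
    (K := kD) (p := fun i => ¬ (i = 0 ∨ i = 35))
    (q := fun k => ¬ (k = 0)) hX (dg_sub_mask dg_mC)
    (dg_sub_ones dg_oC (fun i hi => ?_)) (by unfold kD; rfl) (fun k hk => ?_)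
  · have e : dev X = Nat.add (Nat.sub X (Nat.land X mC)) kD := rfl
    rw [e, h]
    apply V_congr
    intro k _
    by_cases h1 : k = 0
    · rw [if_pos h1, if_neg (not_not.2 h1)]
    · rw [if_neg h1, if_pos h1]
  · omega
  · omega

/-! ### the centre and numbers of `IB` -/

/-- signed coordinates of a number of `IB` -/
def zd (c : Nat) : GaussianInt := ⟨(fd c 0 : ℤ) - fd c 2, (fd c 1 : ℤ) - fd c 3⟩

theorem bz_zd (c : Nat) : bz c 0 = GaussianInt.toComplex (zd c) / 2 ^ 40 := by
  rw [GaussianInt.toComplex_def]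
  unfold bz zd
  simp only [Nat.mul_zero, Nat.zero_add]
  push_cast
  ring

theorem cen_spec {X : Nat} (hX : Good X) : One (2 ^ 62) (cen X) ∧ zd (cen X) = cd X 0 := by
  have ha : Nat.land X full = dg X 0 := by
    have h : full = 2 ^ 116 - 1 := rfl
    rw [h, land_mask, dg_zero]
  have hb : Nat.land (Nat.shiftRight X 4060) full = dg X 35 := by
    have h : full = 2 ^ 116 - 1 := rfl
    have h2 : 4060 = 116 * 35 := rfl
    rw [h, land_mask, ← dg_zero, h2, dg_shr]
  have h1 := hX.2 0
  have h2 := hX.2 35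
  have e : cen X = Pool.Agent.helper31.IB.pack (Nat.sub (dg X 0) 9007199254740992) (Nat.sub 9007199254740992 (dg X 0))
    (Nat.sub (dg X 35) 9007199254740992) (Nat.sub 9007199254740992 (dg X 35)) := by
    unfold cen
    rw [ha, hb]
  have s : ∀ x y : Nat, Nat.sub x y = x - y := fun _ _ => rfl
  have h := Pool.Agent.helper31.IB.pack_spec (n := 2 ^ 62) (a := dg X 0 - 9007199254740992)
    (b := 9007199254740992 - dg X 0) (c := dg X 35 - 9007199254740992)
    (d := 9007199254740992 - dg X 35) (by norm_num) (by omega) (by omega) (by omega) (by omega)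
  rw [e, s, s, s, s]
  refine ⟨h.1, ?_⟩
  unfold zd cd sd
  rw [h.2.2.1, h.2.2.2.1, h.2.2.2.2.1, h.2.2.2.2.2]
  apply Zsqrtd.ext
  · show ((dg X 0 - 9007199254740992 : ℕ) : ℤ) - ((9007199254740992 - dg X 0 : ℕ) : ℤ) =
      (dg X 0 : ℤ) - 2 ^ 53
    omega
  · show ((dg X 35 - 9007199254740992 : ℕ) : ℤ) - ((9007199254740992 - dg X 35 : ℕ) : ℤ) =
      (dg X (0 + 35) : ℤ) - 2 ^ 53
    rw [Nat.zero_add]
    omega

theorem toF_spec {n c : Nat} (hn : n ≤ 2 ^ 70) (hc : One n c) :
    ((toF c : ℕ) : ZMod NN) = phi (zd c) := by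
  have f0 := (hc 0).1
  have f1 := (hc 1).1
  have f2 := (hc 2).1
  have f3 := (hc 3).1
  have sl : ∀ x : Nat, Nat.shiftLeft x 4060 = x * 2 ^ 4060 := fun x => Nat.shiftLeft_eq x 4060
  have e : toF c = (fd c 0 + fd c 1 * 2 ^ 4060 + NN) - (fd c 2 + fd c 3 * 2 ^ 4060) := by
    unfold toF
    rw [sl, sl]
    rfl
  have hle : fd c 2 + fd c 3 * 2 ^ 4060 ≤ fd c 0 + fd c 1 * 2 ^ 4060 + NN := by
    have h1 : fd c 2 + fd c 3 * 2 ^ 4060 ≤ 2 ^ 8120 := by
      have h2 : fd c 3 * 2 ^ 4060 ≤ 2 ^ 70 * 2 ^ 4060 := Nat.mul_le_mul_right _ (by omega)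
      have h3 : fd c 2 ≤ 2 ^ 70 := by omega
      have h4 : (2 : ℕ) ^ 70 * 2 ^ 4060 = 2 ^ 4130 := by
        rw [← pow_add]
      have h5 : (2 : ℕ) ^ 70 ≤ 2 ^ 4130 := Nat.pow_le_pow_right (by norm_num) (by norm_num)
      have h6 : (2 : ℕ) ^ 4130 + 2 ^ 4130 = 2 ^ 4131 := by
        rw [← two_mul, ← pow_succ']
      have h7 : (2 : ℕ) ^ 4131 ≤ 2 ^ 8120 := Nat.pow_le_pow_right (by norm_num) (by norm_num)
      rw [h4] at h2
      exact le_trans (Nat.add_le_add (le_trans h3 h5) h2) (le_trans (le_of_eq h6) h7)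
    have h2 : 2 ^ 8120 ≤ NN := by
      rw [NN_eq]
      exact Nat.le_succ _
    exact le_trans h1 (le_trans h2 (Nat.le_add_left _ _))
  rw [e, Nat.cast_sub hle]
  simp only [Nat.cast_add, Nat.cast_mul, Nat.cast_pow, Nat.cast_ofNat, NN_cast, add_zero]
  rw [phi_apply]
  unfold zd
  simp only [Int.cast_sub, Int.cast_natCast]
  ring

theorem zd_bound {n c : Nat} (hc : One n c) :
    |(zd c).re| < n ∧ |(zd c).im| < n := by
  have f0 := (hc 0).1
  have f1 := (hc 1).1
  have f2 := (hc 2).1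
  have f3 := (hc 3).1
  unfold zd
  constructor
  · show |(fd c 0 : ℤ) - fd c 2| < n
    rw [abs_lt]
    omega
  · show |(fd c 1 : ℤ) - fd c 3| < n
    rw [abs_lt]
    omega


/-! ### decoding -/

private theorem mk_lt (d : Nat → Nat) (h : ∀ i, i < 70 → d i < 2 ^ 116) :
    ∑ j ∈ Finset.range 70, d j * 2 ^ (116 * j) < 2 ^ 8120 := by
  apply lt_pow_of_dg
  intro i hi
  rw [dg_mk d 70 h, if_neg (by omega)]

private theorem ones_mul_V (c : Nat) : ((ones * c : ℕ) : ZMod NN) = V (fun _ => ⟨(c : ℤ), (c : ℤ)⟩) := by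
  have h : ones < 2 ^ 8120 := by
    apply lt_pow_of_dg
    intro i hi
    rw [dg_ones, if_neg (by omega)]
  have h5 : ((c : ℕ) : ZMod NN) = phi (c : ℤ) := by
    rw [phi_apply]
    simp
  rw [Nat.cast_mul, cast_V h, h5, mul_comm, ← V_mul]
  apply V_congr
  intro k hk
  rw [dg_ones, dg_ones, if_pos (by omega), if_pos (by omega)]
  apply Zsqrtd.ext
  · simp
  · simp

private theorem dec_core {Q c : Nat} {a : Nat → GaussianInt}
    (hQ : (Q : ZMod NN) = V a + ((ones * c : ℕ) : ZMod NN))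
    (ha : ∀ k, k < 35 → -(c : ℤ) ≤ (a k).re ∧ (a k).re + c < 2 ^ 116 ∧
      -(c : ℤ) ≤ (a k).im ∧ (a k).im + c < 2 ^ 116) :
    Nat.mod Q NN < 2 ^ 8120 ∧ ∀ k, k < 35 →
      ((dg (Nat.mod Q NN) k : ℕ) : ℤ) = (a k).re + c ∧
      ((dg (Nat.mod Q NN) (k + 35) : ℕ) : ℤ) = (a k).im + c := by
  set d : Nat → Nat := fun i => if i < 35 then ((a i).re + c).toNat else ((a (i - 35)).im + c).toNat
    with hd
  have hd1 : ∀ k, k < 35 → ((d k : ℕ) : ℤ) = (a k).re + c := by
    intro k hk
    have h := ha k hk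
    rw [hd]
    beta_reduce
    rw [if_pos hk]
    omega
  have hd2 : ∀ k, k < 35 → ((d (k + 35) : ℕ) : ℤ) = (a k).im + c := by
    intro k hk
    have h := ha k hk
    rw [hd]
    beta_reduce
    rw [if_neg (by omega), Nat.add_sub_cancel]
    omega
  have hd3 : ∀ i, i < 70 → d i < 2 ^ 116 := by
    intro i hi
    by_cases h35 : i < 35
    · have h := ha i h35
      have h2 := hd1 i h35
      omega
    · obtain ⟨k, rfl⟩ : ∃ k, i = k + 35 := ⟨i - 35, by omega⟩
      have h := ha k (by omega)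
      have h2 := hd2 k (by omega)
      omega
  have hlt := mk_lt d hd3
  have hdg := dg_mk d 70 hd3
  generalize ∑ j ∈ Finset.range 70, d j * 2 ^ (116 * j) = W at hlt hdg
  have hW : (W : ZMod NN) = (Q : ZMod NN) := by
    rw [hQ, ones_mul_V, ← V_add, cast_V hlt]
    apply V_congr
    intro k hk
    rw [hdg, hdg, if_pos (by omega), if_pos (by omega), hd1 k hk, hd2 k hk]
    rfl
  have hmod : Nat.mod Q NN = W := by
    have h1 := (ZMod.natCast_eq_natCast_iff' W Q NN).1 hW
    have h2 : W % NN = W := Nat.mod_eq_of_lt (lt_NN hlt)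
    rw [h2] at h1
    exact h1.symm
  rw [hmod]
  refine ⟨hlt, fun k hk => ?_⟩
  rw [hdg, hdg, if_pos (by omega), if_pos (by omega)]
  exact ⟨hd1 k hk, hd2 k hk⟩

/-- uniqueness of the digits -/
theorem dec_spec {P c : Nat} {a : Nat → GaussianInt} (hP : (P : ZMod NN) = V a)
    (ha : ∀ k, k < 35 → -(c : ℤ) ≤ (a k).re ∧ (a k).re + c < 2 ^ 116 ∧
      -(c : ℤ) ≤ (a k).im ∧ (a k).im + c < 2 ^ 116) :
    Nat.mod (Nat.add P (Nat.mul ones c)) NN < 2 ^ 8120 ∧ ∀ k, k < 35 →
      ((dg (Nat.mod (Nat.add P (Nat.mul ones c)) NN) k : ℕ) : ℤ) = (a k).re + c ∧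
      ((dg (Nat.mod (Nat.add P (Nat.mul ones c)) NN) (k + 35) : ℕ) : ℤ) = (a k).im + c := by
  apply dec_core _ ha
  have e : Nat.add P (Nat.mul ones c) = P + ones * c := rfl
  rw [e, Nat.cast_add, hP]

/-- stored form of a vector of digits -/
structure St (X : Nat) (a : Nat → GaussianInt) : Prop where
  good : Good X
  eq : ∀ k, k < 35 → cd X k = a k

/-- the stored form from the digits modulo `2^72` -/
private theorem st_of {U : Nat} {a : Nat → GaussianInt}
    (h1 : ∀ k, k < 35 → ((dg U k % 2 ^ 72 : ℕ) : ℤ) = (a k).re + 2 ^ 71 + 2 ^ 53 ∧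
      ((dg U (k + 35) % 2 ^ 72 : ℕ) : ℤ) = (a k).im + 2 ^ 71 + 2 ^ 53) (h : okU U = true) :
    St (cut U) a := by
  have h2 : Dg72 U (fun i => if i < 35 then (a i).re else (a (i - 35)).im) := by
    intro i hi
    beta_reduce
    by_cases h35 : i < 35
    · rw [if_pos h35]
      exact (h1 i h35).1
    · obtain ⟨k, rfl⟩ : ∃ k, i = k + 35 := ⟨i - 35, by omega⟩
      rw [if_neg h35, Nat.add_sub_cancel]
      exact (h1 k (by omega)).2
  obtain ⟨h3, h4⟩ := okU_spec h2 h
  refine ⟨h3, fun k hk => ?_⟩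
  have h5 := h4 k (by omega)
  have h6 := h4 (k + 35) (by omega)
  beta_reduce at h5 h6
  rw [if_pos hk] at h5
  rw [if_neg (by omega), Nat.add_sub_cancel] at h6
  unfold cd
  rw [h5, h6]

private theorem shr_digit {Q s i : Nat} {x : ℤ} (hs : s = 40 ∨ s = 41) (hx : |x| ≤ 2 ^ 110)
    (h : ((dg Q i : ℕ) : ℤ) = x + ((2 ^ 71 + 2 ^ 53) * 2 ^ s : ℕ)) :
    ((dg (Nat.shiftRight Q s) i % 2 ^ 72 : ℕ) : ℤ) = x / 2 ^ s + 2 ^ 71 + 2 ^ 53 := by
  rw [dg_shr_gen (by omega)]
  generalize dg Q (i + 1) % 2 ^ s = r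
  generalize dg Q i = y at h
  rw [abs_le] at hx
  rcases hs with rfl | rfl <;> norm_num at h hx ⊢ <;> omega

private theorem rs_spec {P s : Nat} {a : Nat → GaussianInt} (hs : s = 40 ∨ s = 41)
    (hP : (P : ZMod NN) = V a)
    (ha : ∀ k, k < 35 → |(a k).re| ≤ 2 ^ 110 ∧ |(a k).im| ≤ 2 ^ 110)
    (h : okU (Nat.shiftRight (Nat.mod (Nat.add P (Nat.mul ones ((2 ^ 71 + 2 ^ 53) * 2 ^ s))) NN) s)
      = true) :
    St (cut (Nat.shiftRight (Nat.mod (Nat.add P (Nat.mul ones ((2 ^ 71 + 2 ^ 53) * 2 ^ s))) NN) s))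
      (fun k => ⟨(a k).re / 2 ^ s, (a k).im / 2 ^ s⟩) := by
  have h1 := dec_spec (c := (2 ^ 71 + 2 ^ 53) * 2 ^ s) hP (fun k hk => by
    have h2 := ha k hk
    rw [abs_le, abs_le] at h2
    rcases hs with rfl | rfl <;> norm_num at h2 ⊢ <;> omega)
  apply st_of _ h
  intro k hk
  have h2 := ha k hk
  have h3 := h1.2 k hk
  exact ⟨shr_digit hs h2.1 h3.1, shr_digit hs h2.2 h3.2⟩

theorem r40_spec {P : Nat} {a : Nat → GaussianInt} (hP : (P : ZMod NN) = V a)
    (ha : ∀ k, k < 35 → |(a k).re| ≤ 2 ^ 110 ∧ |(a k).im| ≤ 2 ^ 110) (h : okU (r40 P) = true) :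
    St (cut (r40 P)) (fun k => ⟨(a k).re / 2 ^ 40, (a k).im / 2 ^ 40⟩) := by
  have e : f40 = Nat.mul ones ((2 ^ 71 + 2 ^ 53) * 2 ^ 40) := by
    unfold f40
    rfl
  unfold r40 at h ⊢
  rw [e] at h ⊢
  exact rs_spec (Or.inl rfl) hP ha h

theorem r41_spec {P : Nat} {a : Nat → GaussianInt} (hP : (P : ZMod NN) = V a)
    (ha : ∀ k, k < 35 → |(a k).re| ≤ 2 ^ 110 ∧ |(a k).im| ≤ 2 ^ 110) (h : okU (r41 P) = true) :
    St (cut (r41 P)) (fun k => ⟨(a k).re / 2 ^ 41, (a k).im / 2 ^ 41⟩) := by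
  have e : f41 = Nat.mul ones ((2 ^ 71 + 2 ^ 53) * 2 ^ 41) := by
    unfold f41
    rfl
  unfold r41 at h ⊢
  rw [e] at h ⊢
  exact rs_spec (Or.inr rfl) hP ha h

private theorem cast_good {X : Nat} (hX : Good X) :
    (X : ZMod NN) = V (cd X) + ((ones * 2 ^ 53 : ℕ) : ZMod NN) := by
  rw [cast_V hX.1, ones_mul_V, ← V_add]
  apply V_congr
  intro k _
  apply Zsqrtd.ext
  · simp [cd, sd]
  · simp [cd, sd]

private theorem st_mod {Q : Nat} {a : Nat → GaussianInt}
    (hQ : (Q : ZMod NN) = V a + ((ones * (2 ^ 71 + 2 ^ 53) : ℕ) : ZMod NN))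
    (ha : ∀ k, k < 35 → |(a k).re| ≤ 2 ^ 70 + 2 ^ 55 ∧ |(a k).im| ≤ 2 ^ 70 + 2 ^ 55)
    (h : okU (Nat.mod Q NN) = true) : St (cut (Nat.mod Q NN)) a := by
  have h1 := dec_core hQ (fun k hk => by
    have h2 := ha k hk
    rw [abs_le, abs_le] at h2
    norm_num at h2 ⊢
    omega)
  apply st_of _ h
  intro k hk
  have h2 := ha k hk
  have h3 := h1.2 k hk
  rw [abs_le, abs_le] at h2
  norm_num at h2 h3 ⊢
  omega

/-- stored number plus a number of `IB` in the centre (used for `exp`, `inv`) -/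
theorem addc_spec {X P : Nat} {a : Nat → GaussianInt} {z : GaussianInt} (hX : St X a)
    (hP : (P : ZMod NN) = phi z) (hz : |z.re| ≤ 2 ^ 70 ∧ |z.im| ≤ 2 ^ 70)
    (h : okU (Nat.mod (Nat.add (Nat.add X fT) P) NN) = true) :
    St (cut (Nat.mod (Nat.add (Nat.add X fT) P) NN)) (fun k => if k = 0 then a 0 + z else a k) := by
  apply st_mod _ _ h
  · have e : Nat.add (Nat.add X fT) P = X + ones * 2 ^ 71 + P := by
      have e2 : fT = Nat.mul ones (Nat.pow 2 71) := by
        unfold fT
        rfl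
      rw [e2]
      rfl
    have h2 : V (fun k => if k = 0 then a 0 + z else a k) = V (cd X) + phi z := by
      rw [← V_cen z, ← V_add]
      apply V_congr
      intro k hk
      rw [hX.eq k hk]
      by_cases hk0 : k = 0
      · rw [if_pos hk0, if_pos hk0, hk0]
      · rw [if_neg hk0, if_neg hk0, add_zero]
    rw [e, h2]
    have h3 : ((X + ones * 2 ^ 71 + P : ℕ) : ZMod NN) = (X : ZMod NN) + ((ones * 2 ^ 71 : ℕ) : ZMod NN) +
        (P : ZMod NN) := by
      rw [Nat.cast_add, Nat.cast_add]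
    have h4 : ((ones * (2 ^ 71 + 2 ^ 53) : ℕ) : ZMod NN) = ((ones * 2 ^ 71 : ℕ) : ZMod NN) +
        ((ones * 2 ^ 53 : ℕ) : ZMod NN) := by
      rw [Nat.mul_add, Nat.cast_add]
    rw [h3, h4, cast_good hX.good, hP]
    ring
  · intro k hk
    have hb : ∀ j, j < 35 → |(a j).re| ≤ 2 ^ 53 ∧ |(a j).im| ≤ 2 ^ 53 := by
      intro j hj
      rw [← hX.eq j hj]
      have h1 := sd_bound hX.good j
      have h2 := sd_bound hX.good (j + 35)
      constructor
      · show |sd X j| ≤ 2 ^ 53
        rw [abs_le]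
        exact ⟨h1.1, h1.2.le⟩
      · show |sd X (j + 35)| ≤ 2 ^ 53
        rw [abs_le]
        exact ⟨h2.1, h2.2.le⟩
    have h0 := hb 0 (by norm_num)
    have hk2 := hb k hk
    by_cases hk0 : k = 0
    · rw [if_pos hk0]
      rw [abs_le, abs_le] at h0 hz
      have e1 : (a 0 + z).re = (a 0).re + z.re := Zsqrtd.re_add _ _
      have e2 : (a 0 + z).im = (a 0).im + z.im := Zsqrtd.im_add _ _
      rw [e1, e2, abs_le, abs_le]
      norm_num at h0 hz ⊢
      omega
    · rw [if_neg hk0]
      exact ⟨le_trans hk2.1 (by norm_num), le_trans hk2.2 (by norm_num)⟩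


private theorem st_bound {X : Nat} {a : Nat → GaussianInt} (hX : St X a) {j : Nat} (hj : j < 35) :
    |(a j).re| ≤ 2 ^ 53 ∧ |(a j).im| ≤ 2 ^ 53 := by
  rw [← hX.eq j hj]
  have h1 := sd_bound hX.good j
  have h2 := sd_bound hX.good (j + 35)
  constructor
  · show |sd X j| ≤ 2 ^ 53
    rw [abs_le]
    exact ⟨h1.1, h1.2.le⟩
  · show |sd X (j + 35)| ≤ 2 ^ 53
    rw [abs_le]
    exact ⟨h2.1, h2.2.le⟩

private theorem fD_eq : fD = Nat.mul ones (2 ^ 71 + 2 ^ 53) := by
  unfold fD
  rfl

private theorem le_fD {X Y : Nat} (hY : Good Y) : Y ≤ Nat.add X fD := by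
  have h : Y ≤ fD := by
    apply le_of_dg
    intro i
    rw [fD_eq, dg_ones_mul (by norm_num)]
    split_ifs with hi
    · have h1 := hY.2 i
      omega
    · exact le_of_eq (dg_of_lt (n := 70) hY.1 (by omega))
  exact le_trans h (Nat.le_add_left _ _)

/-- the same for a difference (used for `log`) -/
theorem subc_spec {X Y P : Nat} {a b : Nat → GaussianInt} {z : GaussianInt} (hX : St X a)
    (hY : St Y b) (hP : (P : ZMod NN) = phi z) (hz : |z.re| ≤ 2 ^ 70 ∧ |z.im| ≤ 2 ^ 70)
    (h : okU (Nat.mod (Nat.add (Nat.sub (Nat.add X fD) Y) P) NN) = true) :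
    St (cut (Nat.mod (Nat.add (Nat.sub (Nat.add X fD) Y) P) NN))
      (fun k => if k = 0 then a 0 - b 0 + z else a k - b k) := by
  apply st_mod _ _ h
  · have e : Nat.add (Nat.sub (Nat.add X fD) Y) P = Nat.add X fD - Y + P := rfl
    have e2 : Nat.add X fD = X + ones * (2 ^ 71 + 2 ^ 53) := by
      rw [fD_eq]
      rfl
    have h2 : V (fun k => if k = 0 then a 0 - b 0 + z else a k - b k) =
        V (cd X) - V (cd Y) + phi z := by
      rw [← V_cen z, ← V_sub, ← V_add]
      apply V_congr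
      intro k hk
      rw [hX.eq k hk, hY.eq k hk]
      by_cases hk0 : k = 0
      · rw [if_pos hk0, if_pos hk0, hk0]
      · rw [if_neg hk0, if_neg hk0, add_zero]
    rw [e, h2, Nat.cast_add, Nat.cast_sub (le_fD hY.good), e2, Nat.cast_add, cast_good hX.good,
      cast_good hY.good, hP]
    ring
  · intro k hk
    have h0 := st_bound hX (j := 0) (by norm_num)
    have h0' := st_bound hY (j := 0) (by norm_num)
    have hk2 := st_bound hX hk
    have hk2' := st_bound hY hk
    by_cases hk0 : k = 0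
    · rw [if_pos hk0]
      rw [abs_le, abs_le] at h0 h0' hz
      have e1 : (a 0 - b 0 + z).re = (a 0).re - (b 0).re + z.re := by
        rw [Zsqrtd.re_add, Zsqrtd.re_sub]
      have e2 : (a 0 - b 0 + z).im = (a 0).im - (b 0).im + z.im := by
        rw [Zsqrtd.im_add, Zsqrtd.im_sub]
      rw [e1, e2, abs_le, abs_le]
      norm_num at h0 h0' hz ⊢
      omega
    · rw [if_neg hk0]
      rw [abs_le, abs_le] at hk2 hk2'
      rw [Zsqrtd.re_sub, Zsqrtd.im_sub, abs_le, abs_le]
      norm_num at hk2 hk2' ⊢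
      omega

/-- a constant -/
theorem const_spec {P : Nat} {z : GaussianInt} (hP : (P : ZMod NN) = phi z)
    (hz : |z.re| ≤ 2 ^ 70 ∧ |z.im| ≤ 2 ^ 70) (h : okU (Nat.mod (Nat.add P fD) NN) = true) :
    St (cut (Nat.mod (Nat.add P fD) NN)) (fun k => if k = 0 then z else 0) := by
  apply st_mod _ _ h
  · have e : Nat.add P fD = P + ones * (2 ^ 71 + 2 ^ 53) := by
      rw [fD_eq]
      rfl
    rw [V_cen, e, Nat.cast_add, hP]
  · intro k hk
    by_cases hk0 : k = 0
    · rw [if_pos hk0]
      exact ⟨le_trans hz.1 (by norm_num), le_trans hz.2 (by norm_num)⟩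
    · rw [if_neg hk0]
      norm_num

/-- `a - b` for `t = r40 ((s + NN - y) u)` in `inv` -/
theorem val_sub {X Y : Nat} {a b : Nat → GaussianInt} (hX : St X a) (hY : St Y b) :
    ((Nat.sub (Nat.add X NN) Y : ℕ) : ZMod NN) = V a - V b := by
  have e : Nat.sub (Nat.add X NN) Y = X + NN - Y := rfl
  have h : Y ≤ X + NN := le_trans (lt_NN hY.good.1).le (Nat.le_add_left _ _)
  rw [e, Nat.cast_sub h, Nat.cast_add, NN_cast, cast_good hX.good, cast_good hY.good, add_zero,
    V_congr hX.eq, V_congr hY.eq]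
  ring

private theorem dg_small {a : Nat} (ha : a < 2 ^ 116) (i : Nat) :
    dg a i = if i = 0 then a else 0 := by
  split_ifs with h
  · rw [h, dg_zero, Nat.mod_eq_of_lt ha]
  · exact dg_of_lt (n := 1) ha (by omega)

private theorem dg_small_shl {a : Nat} (ha : a < 2 ^ 116) (k i : Nat) :
    dg (Nat.shiftLeft a (Nat.mul 116 k)) i = if i = k then a else 0 := by
  have e : Nat.mul 116 k = 116 * k := rfl
  rw [e, dg_shl, dg_small ha]
  split_ifs <;> first | rfl | omega

private theorem st_plain {y : Nat} {a : Nat → GaussianInt} (hy : ∀ i, dg y i < 2 ^ 54)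
    (ha : ∀ k, k < 35 → a k = ⟨(dg y k : ℤ), (dg y (k + 35) : ℤ)⟩)
    (hok : okU (Nat.add fD y) = true) : St (cut (Nat.add fD y)) a := by
  apply st_of _ hok
  intro k hk
  have e : Nat.add fD y = fD + y := rfl
  have h1 : ∀ i, dg fD i + dg y i < 2 ^ 116 := by
    intro i
    have h2 := hy i
    rw [dg_fD]
    split_ifs <;> omega
  have h3 := hy k
  have h4 := hy (k + 35)
  rw [ha k hk, e, dg_add h1, dg_add h1, dg_fD, dg_fD, if_pos (by omega), if_pos (by omega)]
  norm_num at h3 h4 ⊢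
  omega

private theorem pos_bound {j : Nat} (hj : j < 5) : 1 ≤ pos j ∧ pos j < 35 := by
  interval_cases j <;> decide

/-- a real variable `c + h ε_j` -/
theorem var_spec {c h j : Nat} (hc : c ≤ 9007199254740991) (hh : h ≤ 9007199254740991)
    (hj : j < 5)
    (hok : okU (Nat.add fD (Nat.add c (Nat.shiftLeft h (Nat.mul 116 (pos j))))) = true) :
    St (cut (Nat.add fD (Nat.add c (Nat.shiftLeft h (Nat.mul 116 (pos j))))))
      (fun k => if k = 0 then ⟨c, 0⟩ else if k = pos j then ⟨h, 0⟩ else 0) := by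
  have hp := pos_bound hj
  generalize pos j = p at hp hok ⊢
  have e : Nat.add c (Nat.shiftLeft h (Nat.mul 116 p)) = c + Nat.shiftLeft h (Nat.mul 116 p) := rfl
  have h0 : ∀ i, dg c i + dg (Nat.shiftLeft h (Nat.mul 116 p)) i < 2 ^ 116 := by
    intro i
    rw [dg_small (by omega), dg_small_shl (by omega)]
    split_ifs <;> omega
  have h1 : ∀ i, dg (Nat.add c (Nat.shiftLeft h (Nat.mul 116 p))) i =
      (if i = 0 then c else 0) + (if i = p then h else 0) := by
    intro i
    rw [e, dg_add h0, dg_small (by omega), dg_small_shl (by omega)]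
  apply st_plain _ _ hok
  · intro i
    rw [h1]
    split_ifs <;> omega
  · intro k hk
    rw [h1, h1]
    by_cases h2 : k = 0
    · rw [if_pos h2, if_pos h2, if_neg (by omega), if_neg (by omega)]
      by_cases h3 : k + 35 = p
      · omega
      · rw [if_neg h3]
        simp
    · rw [if_neg h2, if_neg h2, if_neg (by omega : ¬ (k + 35 = 0)), if_neg (by omega : ¬ (k + 35 = p))]
      by_cases h3 : k = p
      · rw [if_pos h3, if_pos h3]
        simp
      · rw [if_neg h3, if_neg h3]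
        rfl

/-- a disc -/
theorem disc_spec {j : Nat} (hj : j < 5)
    (hok : okU (Nat.add fD (Nat.shiftLeft 1099511627776 (Nat.mul 116 (pos j)))) = true) :
    St (cut (Nat.add fD (Nat.shiftLeft 1099511627776 (Nat.mul 116 (pos j)))))
      (fun k => if k = pos j then ⟨1099511627776, 0⟩ else 0) := by
  have hp := pos_bound hj
  generalize pos j = p at hp hok ⊢
  apply st_plain _ _ hok
  · intro i
    rw [dg_small_shl (by norm_num)]
    split_ifs <;> norm_num
  · intro k hk
    rw [dg_small_shl (by norm_num), dg_small_shl (by norm_num),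
      if_neg (by omega : ¬ (k + 35 = p))]
    by_cases h3 : k = p
    · rw [if_pos h3, if_pos h3]
      rfl
    · rw [if_neg h3, if_neg h3]
      rfl

end Pool.Agent.helper14.QF
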